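import Mathlib
import Pool.Agent.H532.RM.Bin2

/-!
The generating functions for one set and for two sets of integers which are incongruent modulo the
primes considered.
-/

namespace Pool.Agent.H532.WG

open Finset MeasureTheory Function Pool.Agent.H532.RM
open scoped ENNReal

/-- the elements of `S` are incongruent modulo the elements of `P` -/
def InjP (P S : Finset ℕ) : Prop := ∀ p ∈ P, ∀ n ∈ S, ∀ n' ∈ S, n % p = n' % p → n = n'

lemma class_le_oneG {S : Finset ℕ} {p : ℕ} (hS : ∀ n ∈ S, ∀ n' ∈ S, n % p = n' % p → n = n')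
    (r : ℕ) : (S.filter (fun n => r ∈ OmD {0} n p)).card ≤ 1 := by
  rw [card_le_one]
  intro n hn n' hn'
  obtain ⟨h1, h2⟩ := mem_filter.1 hn
  obtain ⟨h1', h2'⟩ := mem_filter.1 hn'
  rw [mem_Om0] at h2 h2'
  exact hS n h1 n' h1' (by rw [← h2, ← h2'])

lemma binOK_singleG {C : ℝ} {M W : ℕ} {P S : Finset ℕ}
    (hS : InjP P S) (hP : ∀ p ∈ P, W < p) (hM : S.card ≤ M)
    (hCM : 2 * C * M ≤ W) : BinOK (OmD {0}) C (fun _ => 0) M P S where
  pos p hp := by have := hP p hp; omega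
  big p hp := by
    have h1 : (W : ℝ) ≤ p := by exact_mod_cast (hP p hp).le
    linarith
  card := hM
  om n _ p hp := om0_ok n p (by have := hP p hp; omega)
  two p hp r _ := (class_le_oneG (hS p hp) r).trans (by norm_num)
  nu p hp := by
    rw [Nat.le_zero, card_eq_zero, filter_eq_empty_iff]
    intro r _ h
    have := class_le_oneG (hS p hp) r
    omega

lemma binOK_pairG {C : ℝ} {M W : ℕ} {P S T : Finset ℕ}
    (hS : InjP P S) (hT : InjP P T) (hP : ∀ p ∈ P, W < p)
    (hM : (S ∪ T).card ≤ M) (hCM : 2 * C * M ≤ W) :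
    BinOK (OmD {0}) C (fun p => ((S ×ˢ T).filter (fun q => q.1 % p = q.2 % p)).card) M P
      (S ∪ T) where
  pos p hp := by have := hP p hp; omega
  big p hp := by
    have h1 : (W : ℝ) ≤ p := by exact_mod_cast (hP p hp).le
    linarith
  card := hM
  om n _ p hp := om0_ok n p (by have := hP p hp; omega)
  two p hp r _ := by
    have h1 := class_le_oneG (hS p hp) r
    have h2 := class_le_oneG (hT p hp) r
    rw [filter_union]
    exact (card_union_le _ _).trans (by omega)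
  nu p hp := by
    have h0 : (range p).filter (fun r => ((S ∪ T).filter (fun n => r ∈ OmD {0} n p)).card = 2) ⊆
        ((S ×ˢ T).filter (fun q => q.1 % p = q.2 % p)).image (fun q => q.1 % p) := by
      intro r hr
      obtain ⟨_, h3⟩ := mem_filter.1 hr
      have h1 := class_le_oneG (hS p hp) r
      have h2 := class_le_oneG (hT p hp) r
      rw [filter_union] at h3
      have h4 := card_union_le (S.filter (fun n => r ∈ OmD {0} n p))
        (T.filter (fun n => r ∈ OmD {0} n p))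
      rw [h3] at h4
      obtain ⟨n, hn⟩ := card_pos.1 (show 0 < (S.filter (fun n => r ∈ OmD {0} n p)).card by omega)
      obtain ⟨n', hn'⟩ := card_pos.1 (show 0 < (T.filter (fun n => r ∈ OmD {0} n p)).card by omega)
      obtain ⟨a1, a2⟩ := mem_filter.1 hn
      obtain ⟨b1, b2⟩ := mem_filter.1 hn'
      rw [mem_Om0] at a2 b2
      refine mem_image.2 ⟨(n, n'), mem_filter.2 ⟨mem_product.2 ⟨a1, b1⟩, ?_⟩, a2.symm⟩
      show n % p = n' % p
      rw [← a2, ← b2]
    exact (card_le_card h0).trans card_image_le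

/-- One window: upper bound. -/
theorem gf1_upperG (ν' : ℕ → Measure ℕ) [∀ p, IsProbabilityMeasure (ν' p)]
    (g C : ℝ) (hg : -1 < g) (hC : |g| ≤ C * min 1 (1 + g)) {W : ℕ} {P S : Finset ℕ}
    (hν : ∀ p ∈ P, UnifOn (ν' p) p)
    (hS : InjP P S) (hP : ∀ p ∈ P, W < p)
    (hCM : 2 * C * S.card ≤ W) (x : ℕ → ℕ) :
    lmarginal ν' P (fun a => ENNReal.ofReal ((1 + g) ^ (surv (OmD {0}) P a S).card)) x ≤
      ENNReal.ofReal ((1 + g * rho 1 P) ^ S.card) := by
  have h := bin_upper ν' (OmD {0}) g C hg hC (fun _ => 0) S.card P hν S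
    (binOK_singleG hS hP le_rfl hCM) x
  simpa using h

/-- One window: lower bound. -/
theorem gf1_lowerG (ν' : ℕ → Measure ℕ) [∀ p, IsProbabilityMeasure (ν' p)]
    (g C : ℝ) (hg : -1 < g) (hC : |g| ≤ C * min 1 (1 + g)) (hC0 : 0 ≤ C) {W : ℕ}
    {P S : Finset ℕ} (hW : 0 < W)
    (hν : ∀ p ∈ P, UnifOn (ν' p) p)
    (hS : InjP P S) (hP : ∀ p ∈ P, W < p)
    (hCM : 2 * C * S.card ≤ W) (x : ℕ → ℕ) :
    ENNReal.ofReal ((1 + g * rho 1 P) ^ S.card * (1 - 2 * C ^ 2 * (S.card : ℝ) ^ 2 / W)) ≤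
    lmarginal ν' P (fun a => ENNReal.ofReal ((1 + g) ^ (surv (OmD {0}) P a S).card)) x := by
  have hpos : ∀ p ∈ P, 0 < p := fun p hp => by have := hP p hp; omega
  have h := bin_lower ν' (OmD {0}) g C hg hC S.card P hν S
    (binOK_singleG hS hP le_rfl hCM) x
  refine le_trans (ENNReal.ofReal_le_ofReal ?_) h
  have h1 := prod_single_ge hW hP C hC0 S.card hCM
  have h2 : 0 ≤ 1 + g * rho 1 P := by
    have := (damp hg hC (rho_one_nonneg P hpos) (rho_one_le P hpos)).1
    linarith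
  gcongr

/-- Two windows: upper bound. -/
theorem gf2_upperG (ν' : ℕ → Measure ℕ) [∀ p, IsProbabilityMeasure (ν' p)]
    (g C : ℝ) (hg : -1 < g) (hC : |g| ≤ C * min 1 (1 + g)) {W N J : ℕ}
    {P S T : Finset ℕ} (hW : 0 < W)
    (hν : ∀ p ∈ P, UnifOn (ν' p) p) (hPp : ∀ p ∈ P, p.Prime)
    (hS : InjP P S) (hT : InjP P T) (hST : Disjoint S T)
    (hSN : S.card = N) (hTN : T.card = N)
    (hSJ : ∀ n ∈ S, n < 2 ^ J) (hTJ : ∀ n ∈ T, n < 2 ^ J)
    (hP : ∀ p ∈ P, W < p)
    (hCM : 4 * C * N ≤ W) (x : ℕ → ℕ) :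
    lmarginal ν' P (fun a => ENNReal.ofReal ((1 + g) ^ (surv (OmD {0}) P a S).card *
      (1 + g) ^ (surv (OmD {0}) P a T).card)) x ≤
      ENNReal.ofReal ((1 + g * rho 1 P) ^ N * (1 + g * rho 1 P) ^ N *
        Real.exp (2 * C ^ 2 * (N : ℝ) ^ 2 * J / W)) := by
  have hcard : (S ∪ T).card = 2 * N := by
    rw [card_union_of_disjoint hST, hSN, hTN]; ring
  have hpos : ∀ p ∈ P, 0 < p := fun p hp => by have := hP p hp; omega
  have h := bin_upper ν' (OmD {0}) g C hg hC _ (2 * N) P hν (S ∪ T)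
    (binOK_pairG hS hT hP hcard.le (by push_cast; linarith)) x
  have e1 : ∀ a : ℕ → ℕ, (surv (OmD {0}) P a (S ∪ T)).card =
      (surv (OmD {0}) P a S).card + (surv (OmD {0}) P a T).card := by
    intro a
    unfold surv
    rw [filter_union, card_union_of_disjoint]
    exact hST.mono (filter_subset _ _) (filter_subset _ _)
  simp only [e1, pow_add] at h
  refine h.trans (ENNReal.ofReal_le_ofReal ?_)
  have h2 : 0 ≤ 1 + g * rho 1 P := by
    have := (damp hg hC (rho_one_nonneg P hpos) (rho_one_le P hpos)).1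
    linarith
  rw [hcard, two_mul, pow_add]
  have h3 := prod_pair_le hW hP C (fun p => ((S ×ˢ T).filter (fun q => q.1 % p = q.2 % p)).card)
    (S.card * T.card * J) (sum_pairs_le hPp hSJ hTJ hST)
  rw [hSN, hTN] at h3
  refine mul_le_mul_of_nonneg_left (h3.trans (le_of_eq ?_)) (by positivity)
  congr 1
  push_cast
  ring

end Pool.Agent.H532.WG
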