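import Mathlib
import Pool.Agent.H532.LG.Stage
import Pool.Agent.H532.WG.SMg

/-!
From families of sets with few surviving elements at one level to such families at a higher level.
-/

namespace Pool.Agent.H532.WG

open Finset MeasureTheory Function ProbabilityTheory Filter Pool.Agent.H532.RM
open scoped ENNReal Topology

/-- the elements of the set `Wd m` which survive the sieve by the primes up to `lev` -/
def TG (Wd : ℕ → Finset ℕ) (a : ℕ → ℕ) (lev m : ℕ) : Finset ℕ :=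
  (Wd m).filter (fun n => ∀ p ∈ primesLe lev, n % p ≠ a p % p)

/-- A family of at least `D0` sets with at most `n` survivors. -/
def FamG (Wd : ℕ → Finset ℕ) (Bs : Finset ℕ) (a : ℕ → ℕ) (lev n : ℕ) (D0 : ℝ) : Prop :=
  ∃ M ⊆ Bs, D0 ≤ (M.card : ℝ) ∧ ∀ m ∈ M, (TG Wd a lev m).card ≤ n

lemma FamG.mono {Wd : ℕ → Finset ℕ} {Bs : Finset ℕ} {a : ℕ → ℕ} {lev n : ℕ} {D0 D1 : ℝ}
    (h : FamG Wd Bs a lev n D0) (hD : D1 ≤ D0) : FamG Wd Bs a lev n D1 := by
  obtain ⟨M, h1, h2, h3⟩ := h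
  exact ⟨M, h1, hD.trans h2, h3⟩

lemma TG_congr (Wd : ℕ → Finset ℕ) {a a' : ℕ → ℕ} {lev : ℕ} (h : ∀ p ∈ primesLe lev, a p = a' p)
    (m : ℕ) : TG Wd a lev m = TG Wd a' lev m := by
  unfold TG
  refine filter_congr fun n _ => ?_
  constructor
  · intro h3 p hp; rw [← h p hp]; exact h3 p hp
  · intro h3 p hp; rw [h p hp]; exact h3 p hp

lemma surv_TG (Wd : ℕ → Finset ℕ) {W Z : ℕ} (hWZ : W ≤ Z) (m : ℕ) (a : ℕ → ℕ)
    (ha : ∀ p, p.Prime → a p < p) :
    surv (OmD {0}) (bigP W Z) a (TG Wd a W m) = TG Wd a Z m := by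
  unfold surv TG
  rw [filter_filter]
  refine filter_congr fun n _ => ?_
  constructor
  · rintro ⟨h1, h2⟩ p hp
    rw [← primesLe_union_bigP hWZ, mem_union] at hp
    rcases hp with hp | hp
    · exact h1 p hp
    · have h3 := h2 p hp
      rw [mem_Om0] at h3
      have hpp := (mem_bigP.1 hp).1.2
      rw [Nat.mod_eq_of_lt (ha p hpp)]
      exact fun h => h3 h.symm
  · intro h1
    refine ⟨fun p hp => h1 p (primesLe_mono hWZ hp), fun p hp h => ?_⟩
    rw [mem_Om0] at h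
    have hpp := (mem_bigP.1 hp).1
    refine h1 p (mem_primesLe.2 hpp) ?_
    rw [Nat.mod_eq_of_lt (ha p hpp.2)]
    exact h.symm

lemma TG_update (Wd : ℕ → Finset ℕ) (x : ℕ → ℕ) (W Z m : ℕ) (y' : bigP W Z → ℕ) :
    TG Wd (updateFinset x (bigP W Z) y') W m = TG Wd x W m := by
  refine TG_congr Wd (fun p hp => ?_) m
  rw [updateFinset_def]
  have : p ∉ bigP W Z := fun h => by
    have := (mem_bigP.1 h).2
    have := (mem_primesLe.1 hp).1
    omega
  simp [this]

lemma dep_survG (Wd : ℕ → Finset ℕ) (W Z m : ℕ) (h : W ≤ Z) :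
    DepOn (primesLe Z) (fun a => surv (OmD {0}) (bigP W Z) a (TG Wd a W m)) := by
  intro a a' hab
  have h1 : TG Wd a W m = TG Wd a' W m :=
    TG_congr Wd (fun p hp => hab p (primesLe_mono h hp)) m
  show surv _ _ a _ = surv _ _ a' _
  rw [h1]
  unfold surv
  refine filter_congr fun n _ => ?_
  have h2 : ∀ p ∈ bigP W Z, a p = a' p := fun p hp => hab p (mem_primesLe.2 (mem_bigP.1 hp).1)
  constructor
  · intro h3 p hp; rw [← h2 p hp]; exact h3 p hp
  · intro h3 p hp; rw [h2 p hp]; exact h3 p hp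

section
variable {Ω : Type} [MeasurableSpace Ω] {μ : Measure Ω} [IsProbabilityMeasure μ]
  {A : ℕ → Ω → ℕ}

theorem stageG (hA : RandomClasses μ A) (Wd : ℕ → Finset ℕ) {W Z : ℕ}
    (hWZ : W ≤ Z) (n k : ℕ)
    (Bs : Finset ℕ) (D0 D2 : ℝ) (err : ℝ) (hnU : ∀ m ∈ Bs, n ≤ (Wd m).card)
    (hone : ∀ (x : ℕ → ℕ) (M : Finset ℕ) (S : ℕ → Finset ℕ), M ⊆ Bs → D0 ≤ (M.card : ℝ) →
      (∀ m ∈ M, S m ⊆ Wd m) → (∀ m ∈ M, (S m).card = n) →
      lmarginal (law μ A) (bigP W Z) (fun a => if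
        ((M.filter (fun m => (surv (OmD {0}) (bigP W Z) a (S m)).card ≤ k)).card : ℝ) < D2
        then 1 else 0) x ≤ ENNReal.ofReal err) :
    μ {ω | FamG Wd Bs (fun p => A p ω) W n D0 ∧ ¬ FamG Wd Bs (fun p => A p ω) Z k D2} ≤
      ENNReal.ofReal err := by
  classical
  have := fun p => law_prob hA p
  set P := bigP W Z with hP
  have hPW : ∀ p ∈ P, W < p := fun p hp => (mem_bigP.1 hp).2
  have hPp : ∀ p ∈ P, p.Prime := fun p hp => (mem_bigP.1 hp).1.2
  set FS : (ℕ → ℕ) → Prop := fun a => ∃ M ⊆ Bs, D2 ≤ (M.card : ℝ) ∧ ∀ m ∈ M,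
    (surv (OmD {0}) P a (TG Wd a W m)).card ≤ k with hFS
  set f : (ℕ → ℕ) → ℝ≥0∞ := fun a => if FamG Wd Bs a W n D0 ∧ ¬ FS a then 1 else 0 with hf
  have hTW : ∀ a a' : ℕ → ℕ, (∀ p ∈ primesLe W, a p = a' p) → ∀ m, TG Wd a W m = TG Wd a' W m :=
    fun a a' haa m => TG_congr Wd haa m
  have hFdep : ∀ a a' : ℕ → ℕ, (∀ p ∈ primesLe W, a p = a' p) → FamG Wd Bs a W n D0 →
      FamG Wd Bs a' W n D0 := by
    rintro a a' haa ⟨M, h1, h2, h4⟩
    exact ⟨M, h1, h2, fun m hm => by rw [← hTW a a' haa m]; exact h4 m hm⟩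
  have hevdep : ∀ a a' : ℕ → ℕ, (∀ p ∈ primesLe Z, a p = a' p) →
      ((FamG Wd Bs a W n D0 ∧ ¬ FS a) ↔ (FamG Wd Bs a' W n D0 ∧ ¬ FS a')) := by
    intro a a' haa
    have h1 : FamG Wd Bs a W n D0 ↔ FamG Wd Bs a' W n D0 :=
      ⟨hFdep a a' fun p hp => haa p (primesLe_mono hWZ hp),
        hFdep a' a fun p hp => (haa p (primesLe_mono hWZ hp)).symm⟩
    have h2 : ∀ m, surv (OmD {0}) P a (TG Wd a W m) =
      surv (OmD {0}) P a' (TG Wd a' W m) := fun m =>
        dep_survG Wd W Z m hWZ a a' haa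
    rw [hFS]
    simp only [h1, h2]
  have hdep : DepOn (primesLe Z) f := by
    intro a a' haa
    rw [hf]
    simp only
    rw [if_congr (hevdep a a' haa) rfl rfl]
  have hle := lintegral_le_of_lmarginal hA (primesLe Z) P (fun p hp => (mem_primesLe.1 hp).2)
    (filter_subset _ _) f hdep (ENNReal.ofReal err) (fun x => by
      have hxW : ∀ y' : P → ℕ, ∀ p ∈ primesLe W, updateFinset x P y' p = x p := by
        intro y' p hp
        rw [updateFinset_def]
        have : p ∉ P := fun h => by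
          have := hPW p h
          have := (mem_primesLe.1 hp).1
          omega
        simp [this]
      by_cases hQx : FamG Wd Bs x W n D0
      · obtain ⟨M, hMB, hMD, hMn⟩ := id hQx
        have h5 : ∀ m, ∃ S : Finset ℕ, m ∈ M → TG Wd x W m ⊆ S ∧
            S ⊆ Wd m ∧ S.card = n := by
          intro m
          by_cases hm : m ∈ M
          · obtain ⟨S, hS1, hS2, hS3⟩ := exists_subsuperset_card_eq
              (s := TG Wd x W m) (t := Wd m) (n := n)
              (filter_subset _ _) (hMn m hm) (hnU m (hMB hm))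
            exact ⟨S, fun _ => ⟨hS1, hS2, hS3⟩⟩
          · exact ⟨∅, fun h => absurd h hm⟩
        choose S hS using h5
        refine le_trans ?_ (hone x M S hMB hMD (fun m hm => (hS m hm).2.1)
          (fun m hm => (hS m hm).2.2))
        unfold lmarginal
        refine lintegral_mono fun y' => ?_
        rw [hf]
        simp only
        split_ifs with h1 h2
        · exact le_rfl
        · exfalso
          rw [not_lt] at h2
          refine h1.2 ⟨_, (filter_subset _ M).trans hMB, h2, ?_⟩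
          · intro m hm
            obtain ⟨hm1, hm2⟩ := mem_filter.1 hm
            rw [TG_update Wd x W Z m y']
            exact (card_le_card (filter_subset_filter _ (hS m hm1).1)).trans hm2
        · exact bot_le
        · exact le_rfl
      · have : lmarginal (law μ A) P f x = 0 := by
          unfold lmarginal
          rw [hf]
          have h0 : ∀ y' : P → ℕ, ¬ FamG Wd Bs (updateFinset x P y') W n D0 := fun y' hy =>
            hQx (hFdep _ _ (hxW y') hy)
          simp only [h0, false_and, if_false, lintegral_zero]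
        rw [this]
        exact bot_le)
  refine le_trans ?_ hle
  have hms : MeasurableSet {ω | FamG Wd Bs (fun p => A p ω) W n D0 ∧ ¬ FS (fun p => A p ω)} := by
    have hA' : Measurable (fun ω (p : ℕ) => A p ω) := measurable_pi_lambda _ hA.meas
    have h1 : Measurable (fun a : ℕ → ℕ => (FamG Wd Bs a W n D0 ∧ ¬ FS a : Prop)) := by
      refine DepOn.measurable (s := primesLe Z) ?_
      intro a a' haa
      exact propext (hevdep a a' haa)
    have h2 := h1.comp hA'
    have e : {ω | FamG Wd Bs (fun p => A p ω) W n D0 ∧ ¬ FS (fun p => A p ω)} =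
      (fun ω => (FamG Wd Bs (fun p => A p ω) W n D0 ∧ ¬ FS (fun p => A p ω) : Prop)) ⁻¹'
        {True} := by
      ext ω
      simp
    rw [e]
    exact h2 (measurableSet_singleton _)
  have hrw : ∫⁻ ω, f (fun p => A p ω) ∂μ =
      μ {ω | FamG Wd Bs (fun p => A p ω) W n D0 ∧ ¬ FS (fun p => A p ω)} := by
    rw [← lintegral_indicator_one hms]
    refine lintegral_congr fun ω => ?_
    rw [Set.indicator_apply]
    rfl
  rw [hrw]
  refine measure_mono_ae ?_
  filter_upwards [ae_lt hA] with ω hω h1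
  refine ⟨h1.1, fun h2 => h1.2 ?_⟩
  obtain ⟨M, g1, g2, g4⟩ := h2
  refine ⟨M, g1, g2, fun m hm => ?_⟩
  have h3 := g4 m hm
  rw [surv_TG Wd hWZ m _ hω] at h3
  exact h3

/-- The first stage: from `n` elements to about `(1 + g) ρ n` elements. -/
theorem stage1G (hA : RandomClasses μ A) (Wd : ℕ → Finset ℕ) {W Z : ℕ}
    (hWZ : W ≤ Z) (hW : 0 < W) (n k J : ℕ) (g C h : ℝ) (hg : -1 < g) (hC : |g| ≤ C * min 1 (1 + g))
    (hC1 : 1 ≤ C) (h0 : 0 < h) (hh : h ≤ 1 / 2) (hCN : 10 * C * n ≤ W)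
    (hgρ : |g * (V Z / V W)| ≤ h / 24) (b : ℝ) (hb : b = (1 + g) * (V Z / V W) * n)
    (hk : (1 + h) * b < k + 1) (Bs : Finset ℕ)
    (hBs : ∀ m ∈ Bs, ∀ q ∈ Wd m, q < 2 ^ J) (hinj : ∀ m ∈ Bs, InjP (bigP W Z) (Wd m))
    (hdis : ∀ m ∈ Bs, ∀ m' ∈ Bs, m ≠ m' → Disjoint (Wd m) (Wd m'))
    (hnU : ∀ m ∈ Bs, n ≤ (Wd m).card) (D0 D : ℝ)
    (hD0 : 0 < D0)
    (hD : D = Real.exp (b * Real.log (1 + g) - g * (V Z / V W) * n + h * b * |Real.log (1 + g)| +
          2 * (g * (V Z / V W)) ^ 2 * n)) :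
    μ {ω | FamG Wd Bs (fun p => A p ω) W n D0 ∧
        ¬ FamG Wd Bs (fun p => A p ω) Z k (D0 / (2 * D))} ≤
      ENNReal.ofReal (4 * (4 * C ^ 2 * (n : ℝ) ^ 2 / W +
        (Real.exp (2 * C ^ 2 * (n : ℝ) ^ 2 * J / W) - 1) +
        D / D0 + 4 * Real.exp (-(b * h ^ 2 / 12)))) := by
  classical
  have := fun p => law_prob hA p
  have hρ : rho 1 (bigP W Z) = V Z / V W := rho_bigP hWZ
  rw [← hρ] at hgρ hb hD
  have hDpos : 0 < D := by rw [hD]; exact Real.exp_pos _
  refine stageG hA Wd hWZ n k Bs D0 _ _ hnU fun x M S hMB hMD hS1 hS2 => ?_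
  have hMne : M.Nonempty := by
    rw [← card_pos]
    have : (0 : ℝ) < M.card := lt_of_lt_of_le hD0 hMD
    exact_mod_cast this
  have hsm := sm_countG (law μ A) g C h hg hC hC1 h0 hh M hMne S (W := W)
    (N := n) (J := J) (P := bigP W Z) hW (fun p hp => law_unif hA (mem_bigP.1 hp).1.2)
    (fun p hp => (mem_bigP.1 hp).1.2)
    (fun m hm p hp q hq q' hq' h => hinj m (hMB hm) p hp q (hS1 m hm hq) q' (hS1 m hm hq') h) hS2
    (fun m hm q hq => hBs m (hMB hm) q (hS1 m hm hq))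
    (fun m hm m' hm' hne => (hdis m (hMB hm) m' (hMB hm') hne).mono (hS1 m hm) (hS1 m' hm'))
    (fun p hp => (mem_bigP.1 hp).2) hCN hgρ b hb x
  rw [← hD] at hsm
  refine le_trans ?_ (hsm.trans (ENNReal.ofReal_le_ofReal ?_))
  · unfold lmarginal
    refine lintegral_mono fun y => ?_
    simp only
    split_ifs with h1 h2
    · exact le_rfl
    · exfalso
      apply h2
      have h3 : ((M.filter (fun i => (1 - h) * b ≤
          ((surv (OmD {0}) (bigP W Z) (updateFinset x (bigP W Z) y) (S i)).card : ℝ) ∧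
          ((surv (OmD {0}) (bigP W Z) (updateFinset x (bigP W Z) y) (S i)).card : ℝ) ≤
            (1 + h) * b)).card : ℝ) ≤
          ((M.filter (fun m => (surv (OmD {0}) (bigP W Z) (updateFinset x (bigP W Z) y)
            (S m)).card ≤ k)).card : ℝ) := by
        have : M.filter (fun i => (1 - h) * b ≤
          ((surv (OmD {0}) (bigP W Z) (updateFinset x (bigP W Z) y) (S i)).card : ℝ) ∧
          ((surv (OmD {0}) (bigP W Z) (updateFinset x (bigP W Z) y) (S i)).card : ℝ) ≤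
            (1 + h) * b) ⊆ M.filter (fun m => (surv (OmD {0}) (bigP W Z)
              (updateFinset x (bigP W Z) y) (S m)).card ≤ k) := by
          intro m hm
          obtain ⟨hm1, _, hm3⟩ := mem_filter.1 hm
          refine mem_filter.2 ⟨hm1, ?_⟩
          have h4 := lt_of_le_of_lt hm3 hk
          have h5 : (surv (OmD {0}) (bigP W Z) (updateFinset x (bigP W Z) y) (S m)).card <
            k + 1 := by exact_mod_cast h4
          omega
        exact_mod_cast card_le_card this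
      have h4 := lt_of_le_of_lt h3 h1
      rw [lt_div_iff₀ (by positivity)] at h4
      exact lt_of_lt_of_le h4 hMD
    · exact bot_le
    · exact le_rfl
  · gcongr

/-- The second stage: from few elements to no elements. -/
theorem stage2G (hA : RandomClasses μ A) (Wd : ℕ → Finset ℕ) {W Z : ℕ}
    (hWZ : W ≤ Z) (hW : 0 < W) (n J : ℕ) (θ : ℝ) (hθ : 0 < θ) (hθ1 : θ ≤ 1 / 2)
    (hCN : 4 * (1 / θ) * n ≤ W) (Bs : Finset ℕ)
    (hBs : ∀ m ∈ Bs, ∀ q ∈ Wd m, q < 2 ^ J) (hinj : ∀ m ∈ Bs, InjP (bigP W Z) (Wd m))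
    (hdis : ∀ m ∈ Bs, ∀ m' ∈ Bs, m ≠ m' → Disjoint (Wd m) (Wd m'))
    (hnU : ∀ m ∈ Bs, n ≤ (Wd m).card) (D0 D : ℝ)
    (hD0 : 0 < D0) (hD : D = 1 / (1 - (1 - θ) * (V Z / V W)) ^ n) :
    μ {ω | FamG Wd Bs (fun p => A p ω) W n D0 ∧
        ¬ FamG Wd Bs (fun p => A p ω) Z 0 (D0 / (2 * D))} ≤
      ENNReal.ofReal (4 * (4 * (1 / θ) ^ 2 * (n : ℝ) ^ 2 / W +
        (Real.exp (2 * (1 / θ) ^ 2 * (n : ℝ) ^ 2 * J / W) - 1) +
        D / D0 + 2 * (θ * D))) := by
  classical
  have := fun p => law_prob hA p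
  have hρ : rho 1 (bigP W Z) = V Z / V W := rho_bigP hWZ
  have hρ1 : V Z / V W ≤ 1 := by rw [div_le_one (V_pos W)]; exact V_anti hWZ
  have hρ0 : 0 ≤ V Z / V W := div_nonneg (V_pos Z).le (V_pos W).le
  have hq0 : 0 < 1 - (1 - θ) * (V Z / V W) := by
    have : (1 - θ) * (V Z / V W) ≤ (1 - θ) * 1 := by
      have : 0 ≤ 1 - θ := by linarith
      gcongr
    linarith
  have hDpos : 0 < D := by rw [hD]; positivity
  have hθD : θ / (1 - (1 - θ) * (V Z / V W)) ^ n = θ * D := by rw [hD]; ring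
  rw [← hρ] at hD hθD
  refine stageG hA Wd hWZ n 0 Bs D0 _ _ hnU fun x M S hMB hMD hS1 hS2 => ?_
  have hMne : M.Nonempty := by
    rw [← card_pos]
    have : (0 : ℝ) < M.card := lt_of_lt_of_le hD0 hMD
    exact_mod_cast this
  have hsm := sm_killG (law μ A) θ hθ hθ1 M hMne S (W := W)
    (N := n) (J := J) (P := bigP W Z) hW (fun p hp => law_unif hA (mem_bigP.1 hp).1.2)
    (fun p hp => (mem_bigP.1 hp).1.2)
    (fun m hm p hp q hq q' hq' h => hinj m (hMB hm) p hp q (hS1 m hm hq) q' (hS1 m hm hq') h) hS2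
    (fun m hm q hq => hBs m (hMB hm) q (hS1 m hm hq))
    (fun m hm m' hm' hne => (hdis m (hMB hm) m' (hMB hm') hne).mono (hS1 m hm) (hS1 m' hm'))
    (fun p hp => (mem_bigP.1 hp).2) hCN x
  rw [hθD, ← hD] at hsm
  refine le_trans ?_ (hsm.trans (ENNReal.ofReal_le_ofReal ?_))
  · unfold lmarginal
    refine lintegral_mono fun y => ?_
    simp only
    split_ifs with h1 h2
    · exact le_rfl
    · exfalso
      apply h2
      have e : M.filter (fun m => (surv (OmD {0}) (bigP W Z) (updateFinset x (bigP W Z) y)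
            (S m)).card ≤ 0) = M.filter (fun m => (surv (OmD {0}) (bigP W Z)
              (updateFinset x (bigP W Z) y) (S m)).card = 0) :=
        filter_congr fun m _ => Nat.le_zero
      rw [e] at h1
      rw [lt_div_iff₀ (by positivity)] at h1
      exact lt_of_lt_of_le h1 hMD
    · exact bot_le
    · exact le_rfl
  · gcongr

end

end Pool.Agent.H532.WG
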