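import Mathlib
import Pool.Agent.H532.LG.FamBlock
import Pool.Agent.H532.WG.StageG

/-!
Families of classes modulo a prime whose first elements are sieved well by the small primes.
-/

namespace Pool.Agent.H532.WG

open Finset MeasureTheory Function ProbabilityTheory Filter Pool.Agent.H532.RM
open Pool.Agent.H532.LG hiding Fam
open scoped ENNReal Topology

/-- the first `U` elements of the class `b` modulo `d` -/
def apW (d U b : ℕ) : Finset ℕ := (range U).image (fun s => b + d * s)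

lemma apW_inj {d : ℕ} (hd : 0 < d) (b : ℕ) : Function.Injective (fun s => b + d * s) := by
  intro s s' h
  have h1 : b + d * s = b + d * s' := h
  have h2 : d * s = d * s' := by omega
  exact Nat.eq_of_mul_eq_mul_left hd h2

lemma card_apW {d : ℕ} (hd : 0 < d) (U b : ℕ) : (apW d U b).card = U := by
  unfold apW
  rw [card_image_of_injective _ (apW_inj hd b), card_range]

lemma injP_apW {d U b W Z : ℕ} (hd : d.Prime) (hZd : Z < d) (hUW : U ≤ W) :
    InjP (bigP W Z) (apW d U b) := by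
  intro p hp n hn n' hn' h
  obtain ⟨⟨h1, h2⟩, h3⟩ := mem_bigP.1 hp
  obtain ⟨s, hs, rfl⟩ := mem_image.1 hn
  obtain ⟨s', hs', rfl⟩ := mem_image.1 hn'
  rw [mem_range] at hs hs'
  have hnd : ¬ p ∣ d := by
    intro hc
    have := (Nat.prime_dvd_prime_iff_eq h2 hd).1 hc
    omega
  rw [class_iff h2 hnd, Nat.mod_eq_of_lt (by omega), Nat.mod_eq_of_lt (by omega)] at h
  rw [h]

lemma disj_apW {d U b b' : ℕ} (hb : b < d) (hb' : b' < d) (hne : b ≠ b') :
    Disjoint (apW d U b) (apW d U b') := by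
  rw [Finset.disjoint_left]
  intro n hn hn'
  obtain ⟨s, _, rfl⟩ := mem_image.1 hn
  obtain ⟨s', _, h⟩ := mem_image.1 hn'
  have h1 := congrArg (· % d) h
  simp only [Nat.add_mul_mod_self_left] at h1
  rw [Nat.mod_eq_of_lt hb, Nat.mod_eq_of_lt hb'] at h1
  exact hne h1.symm

/-- the class can be chosen such that the small primes sieve as little as possible -/
lemma ap_attain (a : ℕ → ℕ) (d v U m0 B : ℕ) (hd : d.Prime) (hvd : v < d) :
    ∃ x, B ≤ x ∧ x < B + 4 ^ v ∧
      (TG (fun b => apW d U b) a v x).card = T1 (fun _ => 0) v m0 U := by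
  obtain ⟨x, h1, h2, hx⟩ := crt v (fun p => a p + d * (m0 + 1)) B
  refine ⟨x, h1, h2, ?_⟩
  unfold T1
  refine card_bij' (fun n _ => m0 + 1 + (n - x) / d) (fun n _ => x + d * (n - (m0 + 1)))
    ?_ ?_ ?_ ?_
  all_goals
    have hdp := hd.pos
    have key : ∀ p ∈ primesLe v, ∀ s : ℕ, (x + d * s) % p = a p % p ↔ (m0 + 1 + s) % p = 0 := by
      intro p hp s
      obtain ⟨hpv, hpp⟩ := mem_primesLe.1 hp
      have hnd : ¬ p ∣ d := by
        intro hc
        have := (Nat.prime_dvd_prime_iff_eq hpp hd).1 hc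
        omega
      have hxp : x ≡ a p + d * (m0 + 1) [MOD p] := hx p hp
      have h5 : x + d * s ≡ a p + d * (m0 + 1 + s) [MOD p] := by
        have := hxp.add_right (d * s)
        rw [mul_add d (m0 + 1) s, ← add_assoc]
        exact this
      constructor
      · intro h
        have h6 : a p + d * (m0 + 1 + s) ≡ a p + 0 [MOD p] := h5.symm.trans h
        have h7 := Nat.ModEq.add_left_cancel' _ h6
        have h8 : p ∣ d * (m0 + 1 + s) := (Nat.modEq_zero_iff_dvd).1 h7
        exact Nat.mod_eq_zero_of_dvd (((Nat.Prime.dvd_mul hpp).1 h8).resolve_left hnd)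
      · intro h
        have h8 : p ∣ d * (m0 + 1 + s) := Dvd.dvd.mul_left (Nat.dvd_of_mod_eq_zero h) d
        have h9 : a p + d * (m0 + 1 + s) ≡ a p + 0 [MOD p] :=
          ((Nat.modEq_zero_iff_dvd).2 h8).add_left _
        exact h5.trans h9
  · intro n hn
    obtain ⟨h3, h4⟩ := mem_filter.1 hn
    obtain ⟨s, hs, rfl⟩ := mem_image.1 h3
    rw [mem_range] at hs
    have e : x + d * s - x = d * s := by omega
    rw [e, Nat.mul_div_cancel_left _ hdp]
    refine mem_T1.2 ⟨by omega, fun p hp h => ?_⟩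
    exact h4 p hp ((key p hp s).2 (by rw [h, Nat.zero_mod]))
  · intro n hn
    obtain ⟨⟨h3, h3'⟩, h4⟩ := mem_T1.1 hn
    refine mem_filter.2 ⟨mem_image.2 ⟨n - (m0 + 1), mem_range.2 (by omega), rfl⟩,
      fun p hp h => ?_⟩
    have h5 := (key p hp _).1 h
    have e : m0 + 1 + (n - (m0 + 1)) = n := by omega
    rw [e] at h5
    exact h4 p hp (by rw [h5, Nat.zero_mod])
  · intro n hn
    obtain ⟨h3, h4⟩ := mem_filter.1 hn
    obtain ⟨s, hs, rfl⟩ := mem_image.1 h3
    have e : x + d * s - x = d * s := by omega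
    rw [e, Nat.mul_div_cancel_left _ hdp]
    congr 2
    omega
  · intro n hn
    obtain ⟨⟨h3, h3'⟩, h4⟩ := mem_T1.1 hn
    have e : x + d * (n - (m0 + 1)) - x = d * (n - (m0 + 1)) := by omega
    rw [e, Nat.mul_div_cancel_left _ hdp]
    omega

lemma TG_shift_le (a : ℕ → ℕ) (d v W x0 U t : ℕ) (hvW : v ≤ W) :
    (TG (fun b => apW d U b) a W (x0 + primorial v * t)).card ≤
      ((TG (fun b => apW d U b) a v x0).filter (fun n =>
        ∀ p ∈ bigP v W, (n + primorial v * t) % p ≠ a p % p)).card := by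
  refine card_le_card_of_injOn (fun n => n - primorial v * t) ?_ ?_
  · intro n hn
    obtain ⟨h1, h3⟩ := mem_filter.1 (mem_coe.1 hn)
    obtain ⟨s, hs, rfl⟩ := mem_image.1 h1
    have e : x0 + primorial v * t + d * s - primorial v * t = x0 + d * s := by omega
    have e2 : x0 + d * s + primorial v * t = x0 + primorial v * t + d * s := by omega
    refine mem_coe.2 (mem_filter.2 ⟨mem_filter.2 ⟨?_, ?_⟩, ?_⟩)
    · beta_reduce
      rw [e]
      exact mem_image.2 ⟨s, hs, rfl⟩
    · intro p hp h4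
      beta_reduce at h4
      rw [e] at h4
      refine h3 p (primesLe_mono hvW hp) ?_
      rw [← h4]
      have hpd : primorial v * t ≡ 0 [MOD p] := by
        rw [Nat.modEq_zero_iff_dvd]
        exact Dvd.dvd.mul_right ((prime_dvd_primorial (mem_primesLe.1 hp).2).2
          (mem_primesLe.1 hp).1) t
      have h5 : x0 + d * s + primorial v * t ≡ x0 + d * s + 0 [MOD p] := hpd.add_left _
      rw [e2, add_zero] at h5
      exact h5
    · intro p hp
      show (x0 + primorial v * t + d * s - primorial v * t + primorial v * t) % p ≠ a p % p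
      rw [e, e2]
      exact h3 p (mem_primesLe.2 (mem_bigP.1 hp).1)
  · intro n hn n' hn' h
    obtain ⟨h1, _⟩ := mem_filter.1 (mem_coe.1 hn)
    obtain ⟨h2, _⟩ := mem_filter.1 (mem_coe.1 hn')
    obtain ⟨s, hs, rfl⟩ := mem_image.1 h1
    obtain ⟨s', hs', rfl⟩ := mem_image.1 h2
    have h3 : x0 + primorial v * t + d * s - primorial v * t =
      x0 + primorial v * t + d * s' - primorial v * t := h
    omega

theorem fam_genF (δ : ℝ) (hδ : 0 < δ) (hδ1 : δ ≤ 1) : ∃ (e : ℝ) (T0 : ℕ), 0 < e ∧ ∀ T : ℕ,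
    T0 ≤ T → ∀ (a : ℕ → ℕ) (v W : ℕ) (S0 : Finset ℕ), v ≤ W → (W : ℝ) ≤ (T : ℝ) ^ e →
    ∃ G ⊆ Ioc 0 T, δ / 3 * T ≤ (G.card : ℝ) ∧ ∀ t ∈ G,
      ((S0.filter (fun n => ∀ p ∈ bigP v W, (n + primorial v * t) % p ≠ a p % p)).card : ℝ) ≤
        (1 + δ) * (S0.card * (V W / V v)) := by
  classical
  obtain ⟨C, hC1, hfund⟩ := fund 1
  obtain ⟨b0, hb0⟩ := exists_pow_lt_of_lt_one (show (0 : ℝ) < δ / 3 by positivity)
    (show (1 / 2 : ℝ) < 1 by norm_num)
  obtain ⟨b, hb⟩ : ∃ b, b = max C b0 := ⟨_, rfl⟩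
  have hbC : C ≤ b := by rw [hb]; exact le_max_left _ _
  have hbb : (1 / 2 : ℝ) ^ b ≤ δ / 3 := by
    refine le_trans ?_ hb0.le
    exact pow_le_pow_of_le_one (by norm_num) (by norm_num) (by rw [hb]; exact le_max_right _ _)
  obtain ⟨U0, hU0⟩ := hfund b hbC
  have hb1 : 1 ≤ b := hC1.trans hbC
  have hbr : (1 : ℝ) ≤ b := by exact_mod_cast hb1
  have hCr : (1 : ℝ) ≤ C := by exact_mod_cast hC1
  refine ⟨1 / ((C : ℝ) * b), max U0 1, by positivity, ?_⟩
  intro T hT a v W S0 hvW hW
  have hTU0 : U0 ≤ T := (le_max_left _ _).trans hT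
  have hT1 : 1 ≤ T := (le_max_right _ _).trans hT
  have hTr : (0 : ℝ) < T := by exact_mod_cast hT1
  obtain ⟨Q, hQ⟩ : ∃ Q, Q = bigP v W := ⟨_, rfl⟩
  rw [← hQ]
  have hVW := V_pos W
  have hVv := V_pos v
  set r : ℝ := V W / V v with hr
  have hr0 : 0 < r := by positivity
  obtain ⟨f, hf⟩ : ∃ f : ℕ → ℝ, f = fun t =>
    ((S0.filter (fun n => ∀ p ∈ Q, (n + primorial v * t) % p ≠ a p % p)).card : ℝ) := ⟨_, rfl⟩
  have hf0 : ∀ t, 0 ≤ f t := fun t => by rw [hf]; exact Nat.cast_nonneg _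
  have hft : ∀ t, ((S0.filter (fun n => ∀ p ∈ Q, (n + primorial v * t) % p ≠ a p % p)).card : ℝ) =
    f t := fun t => by rw [hf]
  -- the sum over `t`
  have hsum : ∑ t ∈ Ioc 0 T, f t ≤ S0.card * ((1 + δ / 3) * (T * r)) := by
    have h1 : ∑ t ∈ Ioc 0 T, f t =
        ∑ t ∈ Ioc 0 T, ∑ n ∈ S0, if (∀ p ∈ Q, (n + primorial v * t) % p ≠ a p % p)
          then (1 : ℝ) else 0 := by
      refine sum_congr rfl fun t _ => ?_
      rw [hf]
      simp only
      rw [card_filter]
      push_cast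
      rfl
    rw [h1, sum_comm]
    have h2 : ∀ n ∈ S0, (∑ t ∈ Ioc 0 T, if (∀ p ∈ Q, (n + primorial v * t) % p ≠ a p % p)
        then (1 : ℝ) else 0) ≤ (1 + δ / 3) * (T * r) := by
      intro n _
      obtain ⟨c, hc⟩ := exists_class a (primorial v) n
      have h3 : (∑ t ∈ Ioc 0 T, if (∀ p ∈ Q, (n + primorial v * t) % p ≠ a p % p)
          then (1 : ℝ) else 0) = ((TT {0} c Q 0 T).card : ℝ) := by
        have h4 : TT {0} c Q 0 T = (Ioc 0 T).filter (fun t =>
            ∀ p ∈ Q, (n + primorial v * t) % p ≠ a p % p) := by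
          ext t
          rw [mem_T1, mem_filter, mem_Ioc, zero_add]
          refine and_congr Iff.rfl (forall₂_congr fun p hp => ?_)
          rw [hQ] at hp
          obtain ⟨⟨_, hpp⟩, hvp⟩ := mem_bigP.1 hp
          have hnd : ¬ p ∣ primorial v := by
            rw [prime_dvd_primorial hpp]; omega
          have h5 : (n + primorial v * c p) % p = a p % p := hc p hpp hnd
          rw [← h5, Ne, Ne, class_iff hpp hnd]
        rw [h4, card_filter]
        push_cast
        rfl
      rw [h3]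
      have h4 := hU0 T hTU0 {0} (by simp) c Q (fun p hp => by
        rw [hQ] at hp
        obtain ⟨⟨h5, hpp⟩, _⟩ := mem_bigP.1 hp
        refine ⟨hpp, le_trans (by exact_mod_cast h5) hW, ?_⟩
        have : nuD {0} p ≤ 1 := by
          have := nuD_le {0} p
          simpa using this
        exact lt_of_le_of_lt this hpp.one_lt) 0
      rw [hQ, VDQ_bigP hvW] at h4
      have h5 := (abs_le.1 h4).2
      have h6 : (1 / 2 : ℝ) ^ b * (T * (V W / V v)) ≤ δ / 3 * (T * (V W / V v)) := by gcongr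
      rw [hr, hQ]
      linarith
    calc ∑ n ∈ S0, (∑ t ∈ Ioc 0 T, if (∀ p ∈ Q, (n + primorial v * t) % p ≠ a p % p)
        then (1 : ℝ) else 0) ≤ ∑ n ∈ S0, (1 + δ / 3) * (T * r) := sum_le_sum h2
      _ = S0.card * ((1 + δ / 3) * (T * r)) := by rw [sum_const, nsmul_eq_mul]
  simp only [hft]
  set xx : ℝ := S0.card * r with hxx
  have hxx0 : 0 ≤ xx := mul_nonneg (Nat.cast_nonneg _) hr0.le
  set G := (Ioc 0 T).filter (fun t => f t ≤ (1 + δ) * xx) with hG
  set Bd := (Ioc 0 T).filter (fun t => ¬ f t ≤ (1 + δ) * xx) with hBd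
  have hGB : (G.card : ℝ) + Bd.card = T := by
    have h1 := Finset.card_filter_add_card_filter_not (s := Ioc 0 T)
      (fun t => f t ≤ (1 + δ) * xx)
    rw [Nat.card_Ioc, Nat.sub_zero] at h1
    rw [hG, hBd]
    exact_mod_cast h1
  have hBd1 : (Bd.card : ℝ) * ((1 + δ) * xx) ≤ xx * ((1 + δ / 3) * T) := by
    calc (Bd.card : ℝ) * ((1 + δ) * xx) = ∑ t ∈ Bd, (1 + δ) * xx := by
          rw [sum_const, nsmul_eq_mul]
      _ ≤ ∑ t ∈ Bd, f t := by
          refine sum_le_sum fun t ht => ?_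
          exact (not_le.1 (mem_filter.1 ht).2).le
      _ ≤ ∑ t ∈ Ioc 0 T, f t :=
          sum_le_sum_of_subset_of_nonneg (filter_subset _ _) fun t _ _ => hf0 t
      _ ≤ S0.card * ((1 + δ / 3) * (T * r)) := hsum
      _ = xx * ((1 + δ / 3) * T) := by rw [hxx]; ring
  refine ⟨G, filter_subset _ _, ?_, fun t ht => (mem_filter.1 ht).2⟩
  rcases hxx0.eq_or_lt with h0 | h0
  · -- nothing to do
    have h1 : Bd = ∅ := by
      rw [Finset.eq_empty_iff_forall_notMem]
      intro t ht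
      have h2 := (mem_filter.1 ht).2
      rw [← h0, mul_zero] at h2
      have h3 : ∑ t ∈ Ioc 0 T, f t ≤ 0 := by
        refine hsum.trans (le_of_eq ?_)
        have : (S0.card : ℝ) * r = 0 := h0.symm
        have h4 : (S0.card : ℝ) = 0 := by
          rcases mul_eq_zero.1 this with h | h
          · exact h
          · exact absurd h hr0.ne'
        rw [h4, zero_mul]
      have h4 := single_le_sum (f := f) (fun t _ => hf0 t) (mem_filter.1 ht).1
      exact h2 (h4.trans h3)
    rw [h1, card_empty, Nat.cast_zero, add_zero] at hGB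
    rw [hGB]
    nlinarith
  · have h1 : (Bd.card : ℝ) * (1 + δ) ≤ (1 + δ / 3) * T := by
      have h2 : ((Bd.card : ℝ) * (1 + δ)) * xx ≤ ((1 + δ / 3) * T) * xx := by linarith
      exact le_of_mul_le_mul_right h2 h0
    have h3 : (Bd.card : ℝ) = T - G.card := by linarith
    rw [h3] at h1
    have h4 : (2 * δ / 3) * T ≤ G.card * (1 + δ) := by linarith
    have h5 : (G.card : ℝ) * (1 + δ) ≤ G.card * 2 :=
      mul_le_mul_of_nonneg_left (by linarith) (Nat.cast_nonneg _)
    linarith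

end Pool.Agent.H532.WG
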