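import Mathlib
import Pool.Agent.H532.WG.FamAP

/-!
Many classes modulo a prime with few elements after the sieve by the primes up to `W`.
-/

namespace Pool.Agent.H532.WG

open Finset MeasureTheory Function ProbabilityTheory Filter Pool.Agent.H532.RM
open Pool.Agent.H532.LG hiding Fam
open scoped ENNReal Topology

theorem fam_ap (δ η : ℝ) (hδ : 0 < δ) (hδ1 : δ ≤ 1) (hη : 0 < η) (W : ℕ → ℕ)
    (hW : ∀ c : ℝ, 0 < c → ∀ᶠ j : ℕ in atTop, (W j : ℝ) ≤ Real.exp (c * j)) :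
    ∀ᶠ j : ℕ in atTop, ∀ (a : ℕ → ℕ) (d U v m0 n : ℕ), d.Prime → 2 ^ (j - 1) < d →
      d ≤ 2 ^ j → Real.log j ^ 2 ≤ (U : ℝ) / j → v ≤ W j →
      (4 : ℝ) ^ v ≤ Real.exp (η / 4 * ((U : ℝ) / j)) → 8 * v ≤ j →
      (1 + δ) * (T1 (fun _ => 0) v m0 U * (V (W j) / V v)) ≤ n →
      FamG (fun b => apW d U b) (Ico ((d + 1) / 2) d) a (W j) n
        (2 ^ j * Real.exp (-(η * ((U : ℝ) / j)))) := by
  classical
  obtain ⟨e, T0, he, hfam⟩ := fam_genF δ hδ hδ1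
  obtain ⟨N0, hN0⟩ : ∃ N0 : ℕ, (T0 : ℝ) ≤ 2 ^ N0 := by
    obtain ⟨N0, hN0⟩ := pow_unbounded_of_one_lt (T0 : ℝ) (show (1 : ℝ) < 2 by norm_num)
    exact ⟨N0, hN0.le⟩
  have hlog2 : (0 : ℝ) < Real.log 2 := Real.log_pos (by norm_num)
  filter_upwards [hW (e * Real.log 2 / 8) (by positivity), ev_const_exp (3 * η / 4) (96 / δ)
    (by positivity), eventually_ge_atTop (4 * N0 + 64)] with j hWj hexp hj
  intro a d U v m0 n hdp hd1 hd2 hU2 hvW h4v h8v hn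
  have hj64 : 64 ≤ j := by omega
  have hj32 : (64 : ℝ) ≤ j := by exact_mod_cast hj64
  have hj0 : (0 : ℝ) < j := by linarith
  set P := primorial v with hP
  have hPpos : 0 < P := primorial_pos _
  have hP4 : P ≤ 4 ^ v := primorial_le_four_pow _
  have hPr : (0 : ℝ) < P := by exact_mod_cast hPpos
  -- sizes
  have hv4 : 4 ^ v ≤ 2 ^ (j / 4) := by
    calc 4 ^ v = 2 ^ (2 * v) := by rw [pow_mul]; norm_num
      _ ≤ 2 ^ (j / 4) := Nat.pow_le_pow_right (by norm_num) (by omega)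
  have hvd : v < d := by
    have h1 : v < 4 ^ v := Nat.lt_pow_self (by norm_num)
    have h2 : 2 ^ (j / 4) ≤ 2 ^ (j - 1) := Nat.pow_le_pow_right (by norm_num) (by omega)
    omega
  have h2q : 2 ^ (j / 4) * 2 ^ (j - 4 - j / 4) ≤ 2 ^ (j - 4) := by
    rw [← pow_add]
    exact Nat.pow_le_pow_right (by norm_num) (by omega)
  have hj1 : 2 ^ (j - 1) = 8 * 2 ^ (j - 4) := by
    have : j - 1 = 3 + (j - 4) := by omega
    rw [this, pow_add]; norm_num
  have hjj : 2 ^ j = 16 * 2 ^ (j - 4) := by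
    have : j = 4 + (j - 4) := by omega
    conv_lhs => rw [this, pow_add]
    norm_num
  have hv16 : 4 ^ v * 4 ≤ 2 ^ (j - 4) := by
    refine le_trans (Nat.mul_le_mul hv4 ?_) h2q
    calc 4 = 2 ^ 2 := by norm_num
      _ ≤ 2 ^ (j - 4 - j / 4) := Nat.pow_le_pow_right (by norm_num) (by omega)
  obtain ⟨B, hB⟩ : ∃ B, B = (d + 1) / 2 := ⟨_, rfl⟩
  obtain ⟨x0, hx1, hx2, hx3⟩ := ap_attain a d v U m0 B hdp hvd
  obtain ⟨T, hT⟩ : ∃ T, T = (d - B - 4 ^ v) / P := ⟨_, rfl⟩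
  have hPT : P * T ≤ d - B - 4 ^ v := by rw [hT]; exact Nat.mul_div_le _ _
  have hdB : 4 * 2 ^ (j - 4) ≤ d - B := by omega
  have hTlow : (2 : ℝ) ^ (j - 4) / 4 ^ v ≤ T := by
    have h4 := Nat.lt_div_mul_add (a := d - B - 4 ^ v) hPpos
    rw [← hT] at h4
    have h5 : 4 * 2 ^ (j - 4) < T * P + P + 4 ^ v := by omega
    have h6 : 2 ^ (j - 4) ≤ T * 4 ^ v := by
      have : T * P ≤ T * 4 ^ v := Nat.mul_le_mul_left _ hP4
      omega
    rw [div_le_iff₀ (by positivity)]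
    exact_mod_cast h6
  -- `T ≥ 2 ^ (j / 4)`
  have hTpow : (2 : ℝ) ^ (j / 4) ≤ T := by
    refine le_trans ?_ hTlow
    rw [le_div_iff₀ (by positivity)]
    have h1 : 2 ^ (j / 4) * 4 ^ v ≤ 2 ^ (j - 4) := by
      calc 2 ^ (j / 4) * 4 ^ v ≤ 2 ^ (j / 4) * 2 ^ (j / 4) := Nat.mul_le_mul_left _ hv4
        _ = 2 ^ (j / 4 + j / 4) := by rw [pow_add]
        _ ≤ 2 ^ (j - 4) := Nat.pow_le_pow_right (by norm_num) (by omega)
    exact_mod_cast h1
  have hTT0 : T0 ≤ T := by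
    have h1 : (T0 : ℝ) ≤ T := by
      refine hN0.trans (le_trans ?_ hTpow)
      exact pow_le_pow_right₀ (by norm_num) (by omega)
    exact_mod_cast h1
  have hTW : (W j : ℝ) ≤ (T : ℝ) ^ e := by
    refine hWj.trans ?_
    have hT0 : (0 : ℝ) < 2 ^ (j / 4) := by positivity
    have h1 : Real.exp (e * Real.log 2 / 8 * j) ≤ ((2 : ℝ) ^ (j / 4)) ^ e := by
      rw [Real.rpow_def_of_pos hT0, Real.log_pow]
      refine Real.exp_le_exp.2 ?_
      have h2 : (j : ℝ) / 8 ≤ ((j / 4 : ℕ) : ℝ) := by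
        have h3 : j ≤ 8 * (j / 4) := by omega
        have h4 : (j : ℝ) ≤ 8 * ((j / 4 : ℕ) : ℝ) := by exact_mod_cast h3
        linarith
      have h3 : (j : ℝ) / 8 * (Real.log 2 * e) ≤ ((j / 4 : ℕ) : ℝ) * (Real.log 2 * e) := by
        gcongr
      linarith
    exact h1.trans (Real.rpow_le_rpow hT0.le hTpow he.le)
  obtain ⟨G, hG1, hG2, hG3⟩ := hfam T hTT0 a v (W j) (TG (fun b => apW d U b) a v x0) hvW hTW
  have hinj : Function.Injective (fun t => x0 + P * t) := fun t t' h => by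
    have h1 : x0 + P * t = x0 + P * t' := h
    have h2 : P * t = P * t' := by omega
    exact Nat.eq_of_mul_eq_mul_left hPpos h2
  refine ⟨G.image (fun t => x0 + P * t), ?_, ?_, ?_⟩
  · intro m hm
    obtain ⟨t, ht, rfl⟩ := mem_image.1 hm
    have h1 := mem_Ioc.1 (hG1 ht)
    have h2 : P * t ≤ P * T := Nat.mul_le_mul_left _ h1.2
    rw [mem_Ico]
    constructor
    · omega
    · omega
  · rw [card_image_of_injective _ hinj]
    refine le_trans ?_ hG2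
    have h3 : δ / 3 * ((2 : ℝ) ^ (j - 4) / 4 ^ v) ≤ δ / 3 * T :=
      mul_le_mul_of_nonneg_left hTlow (by positivity)
    refine le_trans ?_ h3
    have h4 : (2 : ℝ) ^ j = 16 * 2 ^ (j - 4) := by exact_mod_cast hjj
    rw [h4]
    have h5 : 48 / δ ≤ Real.exp (3 * η / 4 * ((U : ℝ) / j)) := by
      have h6 : 48 / δ ≤ 96 / δ * ((j : ℝ) ^ 3 + 1) := by
        have h7 : (1 : ℝ) ≤ (j : ℝ) ^ 3 + 1 := by
          have : (0 : ℝ) ≤ (j : ℝ) ^ 3 := by positivity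
          linarith
        calc 48 / δ ≤ 96 / δ * 1 := by rw [mul_one]; gcongr; norm_num
          _ ≤ 96 / δ * ((j : ℝ) ^ 3 + 1) := by gcongr
      refine h6.trans (hexp.trans (Real.exp_le_exp.2 ?_))
      gcongr
    have h8 : Real.exp (η * ((U : ℝ) / j)) = Real.exp (3 * η / 4 * ((U : ℝ) / j)) *
        Real.exp (η / 4 * ((U : ℝ) / j)) := by
      rw [← Real.exp_add]; congr 1; ring
    rw [Real.exp_neg, h8, mul_inv]
    have h9 : (Real.exp (3 * η / 4 * ((U : ℝ) / j)))⁻¹ ≤ δ / 48 := by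
      rw [show δ / 48 = (48 / δ)⁻¹ by rw [inv_div]]
      exact inv_anti₀ (by positivity) h5
    have h10 : (Real.exp (η / 4 * ((U : ℝ) / j)))⁻¹ ≤ 1 / 4 ^ v := by
      rw [one_div]
      exact inv_anti₀ (by positivity) h4v
    calc 16 * (2 : ℝ) ^ (j - 4) * ((Real.exp (3 * η / 4 * ((U : ℝ) / j)))⁻¹ *
          (Real.exp (η / 4 * ((U : ℝ) / j)))⁻¹) ≤
        16 * (2 : ℝ) ^ (j - 4) * (δ / 48 * (1 / 4 ^ v)) := by gcongr
      _ = δ / 3 * ((2 : ℝ) ^ (j - 4) / 4 ^ v) := by ring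
  · intro m hm
    obtain ⟨t, ht, rfl⟩ := mem_image.1 hm
    have h1 := hG3 t ht
    rw [hx3] at h1
    have h2 := TG_shift_le a d v (W j) x0 U t hvW
    have h3 : ((TG (fun b => apW d U b) a (W j) (x0 + P * t)).card : ℝ) ≤ n := by
      refine le_trans ?_ (h1.trans hn)
      exact_mod_cast h2
    exact_mod_cast h3

end Pool.Agent.H532.WG
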