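import Mathlib
import Pool.Agent.H532.LG.EmptyCount
import Pool.Agent.H532.WG.StageG
import Pool.Agent.H532.WG.FamAP

/-!
One class modulo a prime: the probability that it contains no small element.
-/

namespace Pool.Agent.H532.WG

open Finset MeasureTheory Function ProbabilityTheory Filter Pool.Agent.H532.RM
open Pool.Agent.H532.LG hiding Fam
open scoped ENNReal Topology

theorem up_one (δ C0 : ℝ) (hδ : 0 < δ) (hδ1 : δ ≤ 1) (hC0 : 0 < C0) (Z : ℕ → ℕ)
    (hZ : Tendsto (fun j : ℕ => V (Z j) * (j * Real.log 2)) atTop (𝓝 1)) :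
    ∀ᶠ j : ℕ in atTop, ∀ {Ω : Type} [MeasurableSpace Ω] (μ : Measure Ω) [IsProbabilityMeasure μ]
      (A : ℕ → Ω → ℕ) (_ : RandomClasses μ A) (U : ℕ), UOK C0 j U → ∀ ζ : ℕ, 2 * U / j / 4 ≤ ζ →
      ζ ≤ 2 * U / j → ∀ m : ℕ, μ {ω | T1 (fun p => A p ω) (Z j) m U = 0} ≤
          ENNReal.ofReal (2 * Real.exp (-((rm U ζ - δ / 2) * (U * V (Z j))))) := by
  classical
  obtain ⟨CK, hCK, hprob⟩ := empty_prob
  obtain ⟨C, hC, ζ0, hrp⟩ := rp_bdd
  obtain ⟨κ', hκ'⟩ : ∃ κ' : ℝ, κ' = min 1 (δ / (32 * C)) := ⟨_, rfl⟩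
  have hκ'0 : 0 < κ' := by rw [hκ']; exact lt_min one_pos (by positivity)
  have hκ'1 : κ' ≤ 1 := by rw [hκ']; exact min_le_left _ _
  have hκ'2 : 4 * κ' * C ≤ δ / 8 := by
    have h1 : κ' ≤ δ / (32 * C) := by rw [hκ']; exact min_le_right _ _
    rw [le_div_iff₀ (by positivity)] at h1
    linarith
  have hρ := rho_small hZ
  have hvz : ∀ᶠ j : ℕ in atTop, 1 ≤ (j : ℝ) * V (Z j) ∧ (j : ℝ) * V (Z j) ≤ 2 := by
    have hl2a := Real.log_two_gt_d9
    have hl2b := Real.log_two_lt_d9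
    filter_upwards [hZ.eventually (lt_mem_nhds (show (0.9 : ℝ) < 1 by norm_num)),
      hZ.eventually (gt_mem_nhds (show (1 : ℝ) < 1.1 by norm_num))] with j h1 h2
    have h3 : 0 ≤ (j : ℝ) * V (Z j) := mul_nonneg (Nat.cast_nonneg _) (V_pos _).le
    constructor <;> nlinarith
  filter_upwards [ev_w _ (normOK (δ / 8) (1 / (4 * C0)) (by positivity) (by positivity)),
      ev_w _ (wj_large (4 * CK / κ')), ev_w _ (wj_tendsto.eventually_ge_atTop 4),
      ev_w _ (eventually_ge_atTop (max 8 (4 * ζ0))), Wj_le_Z hZ,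
      hρ.eventually (gt_mem_nhds (show (0 : ℝ) < κ' / 2 by positivity)), hvz,
      ev_log_exp (δ / 2) (by positivity) 11, eventually_ge_atTop 16] with
      j h1 h2 h3 h4 h5 h6 h7 h8 h9
  obtain ⟨h7a, h7b⟩ := h7
  have hjr : (16 : ℝ) ≤ j := by exact_mod_cast h9
  have hj0 : (0 : ℝ) < j := by linarith
  have hVZ := V_pos (Z j)
  have hVW := V_pos (Wj j)
  intro Ω _ μ _ A hA U hU ζ hζ1 hζ2 m
  obtain ⟨w, hw⟩ : ∃ w, w = 2 * U / j := ⟨_, rfl⟩
  have k1 := h1 U hU.u2
  have k2 := h2 U hU.u2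
  have k3 := h3 U hU.u2
  have k4 := h4 U hU.u2
  obtain ⟨u1, u2, u3⟩ := hU.w_le (by omega) hC0
  rw [← hw] at hζ1 hζ2 k1 k2 k3 k4 u1 u2
  have hw8 : 8 ≤ w := (le_max_left _ _).trans k4
  have hwζ : 4 * ζ0 ≤ w := (le_max_right _ _).trans k4
  have hζζ0 : ζ0 ≤ ζ := by omega
  -- `U / j ≤ w`
  have hUw : (U : ℝ) / j ≤ w := by
    have e1 : 2 * U < w * j + j := by
      rw [hw]; exact Nat.lt_div_mul_add (by omega)
    have e2 : 2 * (U : ℝ) < w * j + j := by exact_mod_cast e1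
    rw [div_le_iff₀ hj0]
    have e3 : (8 : ℝ) ≤ w := by exact_mod_cast hw8
    nlinarith
  have hwU : w ≤ U := by
    rw [hw]
    refine Nat.div_le_of_le_mul ?_
    nlinarith
  have hUpos : 0 < U := by omega
  have hUr : (0 : ℝ) < U := by exact_mod_cast hUpos
  have hU3 : (U : ℝ) ≤ (j : ℝ) ^ 3 := by exact_mod_cast hU.u1
  have hww : wj w ≤ Wj j := by
    have e1 : Nat.log 2 w ≤ w := (Nat.log_lt_self 2 (by omega)).le
    have e2 : w ≤ 2 * j ^ 2 := by
      rw [hw]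
      refine Nat.div_le_of_le_mul ?_
      calc 2 * U ≤ 2 * j ^ 3 := Nat.mul_le_mul_left _ hU.u1
        _ = j * (2 * j ^ 2) := by ring
    unfold wj Wj
    calc w * Nat.log 2 w ^ 3 ≤ w * w ^ 3 := by gcongr
      _ = w ^ 4 := by ring
      _ ≤ (2 * j ^ 2) ^ 4 := by gcongr
      _ = 16 * j ^ 8 := by ring
      _ ≤ j * j ^ 8 := by gcongr
      _ = j ^ 9 := by ring
      _ ≤ j ^ 40 := Nat.pow_le_pow_right (by omega) (by norm_num)
  have hUW : U ≤ Wj j := hU.u1.trans (by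
    unfold Wj; exact Nat.pow_le_pow_right (by omega) (by norm_num))
  have hWr : ((Wj j : ℕ) : ℝ) = (j : ℝ) ^ 40 := by unfold Wj; push_cast; rfl
  have hU4 : 4 * (U : ℝ) ^ 2 ≤ (Wj j : ℕ) := by
    rw [hWr]
    calc 4 * (U : ℝ) ^ 2 ≤ j * ((j : ℝ) ^ 3) ^ 2 := by gcongr; linarith
      _ = (j : ℝ) ^ 7 := by ring
      _ ≤ (j : ℝ) ^ 40 := pow_le_pow_right₀ (by linarith) (by norm_num)
  have hrC : rm U ζ ≤ C := (rm_le_rp U ζ).trans (hrp ζ hζζ0 U hUpos (by
    calc ζ ≤ w := hζ2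
      _ ≤ U := hwU
      _ ≤ U ^ 2 := Nat.le_self_pow (by norm_num) U))
  have hUVZ : (U : ℝ) * V (Z j) ≤ 2 * w := by
    calc (U : ℝ) * V (Z j) = (U / j) * (j * V (Z j)) := by field_simp
      _ ≤ w * 2 := by gcongr
      _ = 2 * w := by ring
  have hwjr : (0 : ℝ) < wj w := by exact_mod_cast (by omega : 0 < wj w)
  have hκb : V (Z j) / V (Wj j) * (1 + CK * (U * V (Wj j) *
      (Real.log (wj w) / (wj w : ℕ)))) ≤ κ' := by
    have e1 : V (Z j) / V (Wj j) * (1 + CK * (U * V (Wj j) *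
      (Real.log (wj w) / (wj w : ℕ)))) = V (Z j) / V (Wj j) +
      CK * (U * V (Z j)) * (Real.log (wj w) / (wj w : ℕ)) := by
      field_simp
    have hlw : 0 ≤ Real.log (wj w) := Real.log_natCast_nonneg _
    have e2 : CK * (U * V (Z j)) * (Real.log (wj w) / (wj w : ℕ)) ≤ κ' / 2 := by
      calc CK * (U * V (Z j)) * (Real.log (wj w) / (wj w : ℕ)) ≤
          CK * (2 * w) * (Real.log (wj w) / (wj w : ℕ)) := by gcongr
        _ = κ' / 2 * ((4 * CK / κ' * w * Real.log (wj w)) / (wj w : ℕ)) := by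
            field_simp; ring
        _ ≤ κ' / 2 * 1 := by
            gcongr
            rw [div_le_one hwjr]
            exact k2
        _ = κ' / 2 := mul_one _
    rw [e1]
    linarith
  have hx : ∀ (m : ℕ) (c : ℕ → ℕ), (rm U ζ - δ / 2) * (U * V (Z j)) ≤
      V (Z j) / V (wj w) * Real.exp (-(4 * κ')) * T1 c (wj w) m U := by
    intro m c
    have g1 := k1.low U ζ u2 hζ1 hζ2 c m
    have hVw := V_pos (wj w)
    have g2 : (rm U ζ - δ / 8) * (U * V (Z j)) ≤ V (Z j) / V (wj w) * T1 c (wj w) m U := by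
      calc (rm U ζ - δ / 8) * (U * V (Z j)) =
          V (Z j) / V (wj w) * ((rm U ζ - δ / 8) * (U * V (wj w))) := by field_simp
        _ ≤ V (Z j) / V (wj w) * T1 c (wj w) m U := by gcongr
    have g3 := exp_loss hκ'0.le hκ'2 hrC hδ (by positivity : (0 : ℝ) ≤ U * V (Z j))
      (by positivity) g2
    refine g3.trans (le_of_eq ?_)
    ring
  exact hprob μ A hA (wj w) (Wj j) (Z j) m U k3 hww h5 hUW hU4 κ' _ hκb hκ'1 (hx m)

/-- the classes of the numbers `s + 1`, if `b + d s` is removed by the class `x` -/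
noncomputable def trf (d b p x : ℕ) : ℕ :=
  if x < p then (((x : ZMod p) - b) * (d : ZMod p)⁻¹ + 1).val else x

lemma trf_iff {d b p x : ℕ} (hp : p.Prime) (hpd : ¬ p ∣ d) (hx : x < p) (s : ℕ) :
    (b + d * s) % p = x % p ↔ (s + 1) % p = trf d b p x % p := by
  haveI : Fact p.Prime := ⟨hp⟩
  haveI : NeZero p := ⟨hp.ne_zero⟩
  have hd : (d : ZMod p) ≠ 0 := by
    rw [Ne, ZMod.natCast_eq_zero_iff]
    exact hpd
  have e1 : (b + d * s) % p = x % p ↔ ((b + d * s : ℕ) : ZMod p) = ((x : ℕ) : ZMod p) :=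
    (ZMod.natCast_eq_natCast_iff' _ _ _).symm
  have e2 : (s + 1) % p = trf d b p x % p ↔ ((s + 1 : ℕ) : ZMod p) =
      ((trf d b p x : ℕ) : ZMod p) := (ZMod.natCast_eq_natCast_iff' _ _ _).symm
  rw [e1, e2]
  unfold trf
  rw [if_pos hx, ZMod.natCast_zmod_val]
  push_cast
  constructor
  · intro h
    rw [← h]
    field_simp
    ring
  · intro h
    have h2 : (s : ZMod p) = ((x : ZMod p) - b) * (d : ZMod p)⁻¹ := by
      exact add_right_cancel h
    rw [h2]
    field_simp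
    ring

lemma trf_unif {d b p : ℕ} (hp : p.Prime) (hpd : ¬ p ∣ d) {r : ℕ} (hr : r < p) :
    ∃ r' < p, ∀ x, trf d b p x = r ↔ x = r' := by
  haveI : Fact p.Prime := ⟨hp⟩
  haveI : NeZero p := ⟨hp.ne_zero⟩
  have hd : (d : ZMod p) ≠ 0 := by
    rw [Ne, ZMod.natCast_eq_zero_iff]
    exact hpd
  refine ⟨((b : ZMod p) + (d : ZMod p) * ((r : ZMod p) - 1)).val, ZMod.val_lt _, fun x => ?_⟩
  unfold trf
  split_ifs with hx
  · constructor
    · intro h
      have h1 : ((x : ZMod p) - b) * (d : ZMod p)⁻¹ + 1 = (r : ZMod p) := by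
        rw [← h, ZMod.natCast_zmod_val]
      have h2 : (b : ZMod p) + d * ((r : ZMod p) - 1) = (x : ZMod p) := by
        rw [← h1]
        field_simp
        ring
      rw [h2, ZMod.val_natCast_of_lt hx]
    · intro h
      have h1 : (x : ZMod p) = (b : ZMod p) + d * ((r : ZMod p) - 1) := by
        rw [h, ZMod.natCast_zmod_val]
      have h2 : ((x : ZMod p) - b) * (d : ZMod p)⁻¹ + 1 = (r : ZMod p) := by
        rw [h1]
        field_simp
        ring
      rw [h2, ZMod.val_natCast_of_lt hr]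
  · constructor
    · intro h; omega
    · intro h
      have := ZMod.val_lt ((b : ZMod p) + (d : ZMod p) * ((r : ZMod p) - 1))
      omega

/-- the classes for the progression -/
noncomputable def trA {Ω : Type} (A : ℕ → Ω → ℕ) (d b : ℕ) (p : ℕ) (ω : Ω) : ℕ :=
  if p ∣ d then A p ω else trf d b p (A p ω)

lemma trA_random {Ω : Type} [MeasurableSpace Ω] {μ : Measure Ω} {A : ℕ → Ω → ℕ}
    (hA : RandomClasses μ A) (d b : ℕ) : RandomClasses μ (trA A d b) where
  meas p := by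
    unfold trA
    split_ifs
    · exact hA.meas p
    · exact (measurable_of_countable (trf d b p)).comp (hA.meas p)
  indep := by
    have h1 := hA.indep.comp (fun (p : Nat.Primes) (x : ℕ) =>
      if (p : ℕ) ∣ d then x else trf d b p x) (fun p => measurable_of_countable _)
    refine h1.congr ?_
    intro p
    refine Eventually.of_forall fun ω => ?_
    simp only [comp_apply, trA]
  unif p hp r hr := by
    unfold trA
    by_cases h : p ∣ d
    · simp only [h, if_true]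
      exact hA.unif p hp r hr
    · simp only [h, if_false]
      obtain ⟨r', hr', h1⟩ := trf_unif (b := b) hp h hr
      have : {ω | trf d b p (A p ω) = r} = {ω | A p ω = r'} := by
        ext ω
        simp only [Set.mem_setOf_eq]
        exact h1 _
      rw [this]
      exact hA.unif p hp r' hr'

lemma TG_trA {Ω : Type} (A : ℕ → Ω → ℕ) {d b Z U : ℕ} (hd : d.Prime) (hZd : Z < d) (ω : Ω)
    (hω : ∀ p, p.Prime → A p ω < p) (h : (TG (fun b => apW d U b) (fun p => A p ω) Z b).card = 0) :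
    T1 (fun p => trA A d b p ω) Z 0 U = 0 := by
  unfold T1
  rw [card_eq_zero, Finset.eq_empty_iff_forall_notMem] at h ⊢
  intro n hn
  obtain ⟨⟨h1, h2⟩, h3⟩ := mem_T1.1 hn
  refine h (b + d * (n - 1)) (mem_filter.2 ⟨mem_image.2 ⟨n - 1, mem_range.2 (by omega), rfl⟩,
    fun p hp h4 => ?_⟩)
  obtain ⟨h5, h6⟩ := mem_primesLe.1 hp
  have hnd : ¬ p ∣ d := by
    intro hc
    have := (Nat.prime_dvd_prime_iff_eq h6 hd).1 hc
    omega
  refine h3 p hp ?_
  beta_reduce at h4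
  have h7 := (trf_iff h6 hnd (hω p h6) (n - 1)).1 h4
  have e : n - 1 + 1 = n := by omega
  rw [e] at h7
  simp only [trA, if_neg hnd]
  exact h7

end Pool.Agent.H532.WG
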