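import Mathlib
import Pool.Agent.H532.WG.One
import Pool.Agent.H532.WG.Up

/-!
The largest least element of `R` in the classes modulo a prime.
-/

namespace Pool.Agent.H532.WG

open Finset MeasureTheory Function ProbabilityTheory Filter Pool.Agent.H532.RM
open Pool.Agent.H532.LG hiding Fam
open scoped ENNReal Topology

lemma V_seq (z : ℕ → ℕ) (hz : Tendsto (fun n : ℕ => V (z n) * Real.log n) atTop (𝓝 1))
    (m : ℕ → ℕ) (hm : Tendsto m atTop atTop)
    (hl : Tendsto (fun j : ℕ => (j * Real.log 2) / Real.log (m j)) atTop (𝓝 1)) :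
    Tendsto (fun j : ℕ => V (z (m j)) * (j * Real.log 2)) atTop (𝓝 1) := by
  have h1 := (hz.comp hm).mul hl
  rw [mul_one] at h1
  refine h1.congr' ?_
  filter_upwards [hm.eventually_ge_atTop 2] with j hj
  have h2 : 0 < Real.log (m j) := Real.log_pos (by exact_mod_cast (by omega : 1 < m j))
  simp only [comp_apply]
  field_simp

lemma Z_lt (Z : ℕ → ℕ) (hZ : Tendsto (fun j : ℕ => V (Z j) * (j * Real.log 2)) atTop (𝓝 1)) :
    ∀ᶠ j : ℕ in atTop, Z j < 2 ^ (j - 1) := by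
  have hlog2 : (0 : ℝ) < Real.log 2 := Real.log_pos (by norm_num)
  have ht : Tendsto (fun j : ℕ => 2 ^ (j - 1)) atTop atTop :=
    (tendsto_pow_atTop_atTop_of_one_lt (by norm_num : 1 < 2)).comp (tendsto_sub_atTop_nat 1)
  have h1 := V_log.comp ht
  have hc : Real.exp (-Real.eulerMascheroniConstant) < 0.7 := by
    have h4 := Real.one_half_lt_eulerMascheroniConstant
    have h5 : Real.exp (-Real.eulerMascheroniConstant) ≤ Real.exp (-(1 / 2)) :=
      Real.exp_le_exp.2 (by linarith)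
    have h6 : Real.exp (-(1 / 2 : ℝ)) ^ 2 = Real.exp (-1) := by
      rw [← Real.exp_nat_mul]; congr 1; norm_num
    have h7 : Real.exp (-1) < 0.49 := by
      rw [Real.exp_neg]
      have := Real.exp_one_gt_d9
      rw [inv_lt_comm₀ (Real.exp_pos _) (by norm_num)]
      norm_num
      linarith
    have h8 := Real.exp_pos (-(1 / 2 : ℝ))
    nlinarith
  filter_upwards [h1.eventually (gt_mem_nhds hc), hZ.eventually (lt_mem_nhds
    (show (0.9 : ℝ) < 1 by norm_num)), eventually_ge_atTop 8] with j h2 h3 hj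
  by_contra hcon
  rw [not_lt] at hcon
  have h4 := V_anti hcon
  simp only [comp_apply] at h2
  push_cast at h2
  rw [Real.log_pow] at h2
  have hj1 : ((j - 1 : ℕ) : ℝ) = (j : ℝ) - 1 := by
    rw [Nat.cast_sub (by omega)]; norm_num
  rw [hj1] at h2
  have hjr : (8 : ℝ) ≤ j := by exact_mod_cast hj
  have h5 : V (Z j) * (j * Real.log 2) ≤ V (2 ^ (j - 1)) * (j * Real.log 2) := by gcongr
  have h6 := V_pos (2 ^ (j - 1))
  have h7 : 0 < V (2 ^ (j - 1)) * Real.log 2 := by positivity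
  nlinarith

lemma V_low (z : ℕ → ℕ) (hz : Tendsto (fun n : ℕ => V (z n) * Real.log n) atTop (𝓝 1)) :
    Tendsto (fun j : ℕ => V (z (2 ^ (j - 2))) * (j * Real.log 2)) atTop (𝓝 1) := by
  have hlog2 : (0 : ℝ) < Real.log 2 := Real.log_pos (by norm_num)
  refine V_seq z hz (fun j => 2 ^ (j - 2)) ?_ ?_
  · exact (tendsto_pow_atTop_atTop_of_one_lt (by norm_num : 1 < 2)).comp (tendsto_sub_atTop_nat 2)
  · have hjt : Tendsto (fun j : ℕ => (j : ℝ)) atTop atTop := tendsto_natCast_atTop_atTop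
    have h1 : Tendsto (fun j : ℕ => 1 - 2 / (j : ℝ)) atTop (𝓝 (1 - 0)) :=
      tendsto_const_nhds.sub (hjt.const_div_atTop 2)
    rw [sub_zero] at h1
    have h2 := h1.inv₀ one_ne_zero
    rw [inv_one] at h2
    refine h2.congr' ?_
    filter_upwards [eventually_ge_atTop 3] with j hj
    push_cast
    rw [Real.log_pow]
    have hj1 : ((j - 2 : ℕ) : ℝ) = (j : ℝ) - 2 := by
      rw [Nat.cast_sub (by omega)]; norm_num
    rw [hj1]
    have hjr : (3 : ℝ) ≤ j := by exact_mod_cast hj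
    have h3 : (j : ℝ) - 2 ≠ 0 := by
      have : (0 : ℝ) < j - 2 := by linarith
      exact this.ne'
    have h4 : (j : ℝ) ≠ 0 := by positivity
    field_simp

lemma V_up (z : ℕ → ℕ) (hz : Tendsto (fun n : ℕ => V (z n) * Real.log n) atTop (𝓝 1)) :
    Tendsto (fun j : ℕ => V (z (2 ^ j * j ^ 3)) * (j * Real.log 2)) atTop (𝓝 1) := by
  have hlog2 : (0 : ℝ) < Real.log 2 := Real.log_pos (by norm_num)
  refine V_seq z hz (fun j => 2 ^ j * j ^ 3) ?_ ?_
  · refine tendsto_atTop_mono' atTop ?_ (tendsto_pow_atTop_atTop_of_one_lt (by norm_num : 1 < 2))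
    filter_upwards [eventually_ge_atTop 1] with j hj
    exact Nat.le_mul_of_pos_right _ (by positivity)
  · have hjt : Tendsto (fun j : ℕ => (j : ℝ)) atTop atTop := tendsto_natCast_atTop_atTop
    have h0 : Tendsto (fun j : ℕ => Real.log (j : ℝ) / (j : ℝ)) atTop (𝓝 0) := by
      exact (Real.isLittleO_log_id_atTop.tendsto_div_nhds_zero).comp hjt
    have h1 : Tendsto (fun j : ℕ => 1 + 3 / Real.log 2 * (Real.log (j : ℝ) / (j : ℝ))) atTop
        (𝓝 (1 + 3 / Real.log 2 * 0)) := tendsto_const_nhds.add (h0.const_mul _)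
    rw [mul_zero, add_zero] at h1
    have h2 := h1.inv₀ one_ne_zero
    rw [inv_one] at h2
    refine h2.congr' ?_
    filter_upwards [eventually_ge_atTop 3] with j hj
    push_cast
    have hjr : (3 : ℝ) ≤ j := by exact_mod_cast hj
    have hj0 : (0 : ℝ) < j := by linarith
    rw [Real.log_mul (by positivity) (by positivity), Real.log_pow, Real.log_pow]
    have hlj : 0 < Real.log j := Real.log_pos (by linarith)
    push_cast
    field_simp

lemma count_bad {Ω : Type} [MeasurableSpace Ω] (μ : Measure Ω) [IsProbabilityMeasure μ]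
    (s : ℕ → Finset ℕ) (E : ℕ → ℕ → Set Ω) (hs : ∀ j, (s j).card ≤ 2 ^ j)
    (hE : ∀ᶠ j : ℕ in atTop, ∀ d ∈ s j, μ (E j d) ≤ ENNReal.ofReal (1 / (j : ℝ) ^ 16)) :
    ∀ᵐ ω ∂μ, ∀ᶠ j : ℕ in atTop, ∀ t ⊆ s j, (∀ d ∈ t, ω ∈ E j d) →
      (t.card : ℝ) ≤ 2 ^ j / (j : ℝ) ^ 14 := by
  classical
  obtain ⟨B, hB⟩ : ∃ B : ℕ → Set Ω, B = fun j : ℕ => {ω | 2 ^ j / (j : ℝ) ^ 14 <
    ∑ m ∈ s j, (toMeasurable μ (E j m)).indicator (fun _ => (1 : ℝ)) ω} := ⟨_, rfl⟩
  have hbc := borel_cantelli_sq μ B (by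
    filter_upwards [hE, eventually_ge_atTop 1] with j hj hj1
    have hj0 : (0 : ℝ) < j := by exact_mod_cast hj1
    have h1 := markov_count μ (s j) (fun m => toMeasurable μ (E j m)) (1 / (j : ℝ) ^ 16)
      (2 ^ j / (j : ℝ) ^ 14) (fun m _ => measurableSet_toMeasurable μ _)
      (fun m hm => by rw [measure_toMeasurable]; exact hj m hm) (by positivity) (by positivity)
    rw [hB]
    refine h1.trans (ENNReal.ofReal_le_ofReal ?_)
    have h2 : ((s j).card : ℝ) ≤ 2 ^ j := by exact_mod_cast hs j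
    rw [div_le_iff₀ (by positivity)]
    calc ((s j).card : ℝ) * (1 / (j : ℝ) ^ 16) ≤ 2 ^ j * (1 / (j : ℝ) ^ 16) := by gcongr
      _ = 1 / (j : ℝ) ^ 2 * (2 ^ j / (j : ℝ) ^ 14) := by field_simp)
  filter_upwards [hbc] with ω hω
  filter_upwards [hω] with j hj t ht hd
  have h1 : ¬ (2 ^ j / (j : ℝ) ^ 14 <
    ∑ m ∈ s j, (toMeasurable μ (E j m)).indicator (fun _ => (1 : ℝ)) ω) := by
    rw [hB] at hj; exact hj
  rw [not_lt] at h1
  refine le_trans ?_ h1
  calc (t.card : ℝ) = ∑ m ∈ t, (1 : ℝ) := by rw [sum_const, nsmul_eq_mul, mul_one]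
    _ = ∑ m ∈ t, (toMeasurable μ (E j m)).indicator (fun _ => (1 : ℝ)) ω := by
        refine sum_congr rfl fun m hm => ?_
        rw [Set.indicator_of_mem (subset_toMeasurable μ _ (hd m hm))]
    _ ≤ ∑ m ∈ s j, (toMeasurable μ (E j m)).indicator (fun _ => (1 : ℝ)) ω :=
        sum_le_sum_of_subset_of_nonneg ht fun m _ _ =>
          Set.indicator_nonneg (fun _ _ => zero_le_one) _

/-- some class modulo `d`, not that of `a d`, contains no element of `R` up to `Y` -/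
def Exc (z a : ℕ → ℕ) (d : ℕ) (Y : ℝ) : Prop :=
  ∃ b < d, ¬ b ≡ a d [MOD d] ∧ ∀ n : ℕ, (∀ p : ℕ, p.Prime → p ≤ z n → ¬ n ≡ a p [MOD p]) →
    n ≡ b [MOD d] → Y < n

/-- the law of the largest least element -/
def Good (δ : ℝ) (z a : ℕ → ℕ) (d : ℕ) : Prop := ∀ U : ℕ, δ * Real.log d ^ 2 ≤ U →
  U ≤ 1 / δ * Real.log d ^ 2 →
  ((rm U ⌊U / Real.log d⌋₊ + δ) * U ≤ (1 - δ) * Real.log d ^ 2 → Exc z a d (d * U)) ∧
  ((1 + δ) * Real.log d ^ 2 ≤ (rm U ⌊U / Real.log d⌋₊ - δ) * U → ¬ Exc z a d (d * U))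

lemma exc_of_fam (z a : ℕ → ℕ) (hz : Monotone z) {d U j : ℕ} (hj : 2 ≤ j)
    (hd1 : 2 ^ (j - 1) < d)
    (h : FamG (fun b => apW d U b) (Ico ((d + 1) / 2) d) a (z (2 ^ (j - 2))) 0 2) :
    Exc z a d (d * U) := by
  obtain ⟨M, h1, h2, h3⟩ := h
  have hc : 1 < M.card := by
    have : (2 : ℝ) ≤ M.card := h2
    exact_mod_cast this
  obtain ⟨b, hb, hne⟩ := Finset.exists_mem_ne hc (a d % d)
  have hbI := mem_Ico.1 (h1 hb)
  have e2 : 2 ^ (j - 1) = 2 * 2 ^ (j - 2) := by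
    rw [← pow_succ']; congr 1; omega
  have hb2 : 2 ^ (j - 2) ≤ b := by omega
  have hb1 : 0 < b := lt_of_lt_of_le (by positivity) hb2
  refine ⟨b, hbI.2, ?_, ?_⟩
  · intro hcon
    have h4 : b % d = a d % d := hcon
    rw [Nat.mod_eq_of_lt hbI.2] at h4
    exact hne h4
  · intro n hn hnb
    have h4 : n % d = b := by
      have : n % d = b % d := hnb
      rw [this, Nat.mod_eq_of_lt hbI.2]
    have h5 : n = b + d * (n / d) := by
      conv_lhs => rw [← Nat.mod_add_div n d, h4]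
    have h6 : U ≤ n / d := by
      by_contra hcon
      rw [not_le] at hcon
      have h7 := h3 b hb
      rw [Nat.le_zero, card_eq_zero, Finset.eq_empty_iff_forall_notMem] at h7
      refine h7 n (mem_filter.2 ⟨mem_image.2 ⟨n / d, mem_range.2 hcon, h5.symm⟩,
        fun p hp h8 => ?_⟩)
      obtain ⟨h9, h10⟩ := mem_primesLe.1 hp
      have hbn : b ≤ n := by rw [h5]; exact Nat.le_add_right _ _
      exact hn p h10 (h9.trans (hz (hb2.trans hbn))) h8
    have h8 : d * U ≤ d * (n / d) := Nat.mul_le_mul_left _ h6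
    have h9 : d * U < n := by omega
    exact_mod_cast h9

lemma not_exc (z a : ℕ → ℕ) (hz : Monotone z) {d U j : ℕ} (hd2 : d ≤ 2 ^ j)
    (hU : U ≤ j ^ 3)
    (h : ∀ b < d, (TG (fun b => apW d U b) a (z (2 ^ j * j ^ 3)) b).card ≠ 0) :
    ¬ Exc z a d (d * U) := by
  rintro ⟨b, hb, _, h2⟩
  obtain ⟨q, hq⟩ := card_pos.1 (Nat.pos_of_ne_zero (h b hb))
  obtain ⟨h3, h4⟩ := mem_filter.1 hq
  obtain ⟨s, hs, rfl⟩ := mem_image.1 h3
  rw [mem_range] at hs
  have e1 : b + d * s < d * U := by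
    have : d * (s + 1) ≤ d * U := Nat.mul_le_mul_left _ hs
    rw [mul_add, mul_one] at this
    omega
  have e2 : b + d * s ≤ 2 ^ j * j ^ 3 := e1.le.trans (Nat.mul_le_mul hd2 hU)
  have h5 := h2 (b + d * s) (fun p hp hpz hc => h4 p (mem_primesLe.2 ⟨hpz.trans (hz e2), hp⟩) hc)
    (by
      show (b + d * s) % d = b % d
      rw [Nat.add_mul_mod_self_left])
  have h6 : ((b + d * s : ℕ) : ℝ) < d * U := by exact_mod_cast e1
  linarith

end Pool.Agent.H532.WG
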