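import Mathlib
import Pool.Agent.H532.WG.Main

/-!
The largest least element of `R` in the classes modulo a prime: almost all primes.
-/

namespace Pool.Agent.H532.WG

open Finset MeasureTheory Function ProbabilityTheory Filter Pool.Agent.H532.RM
open Pool.Agent.H532.LG hiding Fam
open scoped ENNReal Topology

/-- the numbers -/
lemma num_ok (δ : ℝ) (hδ : 0 < δ) (hδ1 : δ ≤ 1) : ∀ᶠ j : ℕ in atTop, ∀ d U : ℕ,
    2 ^ (j - 1) < d → d ≤ 2 ^ j → δ * Real.log d ^ 2 ≤ U → U ≤ 1 / δ * Real.log d ^ 2 →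
    UOK (1 / δ) j U ∧ 2 * U / j / 4 ≤ ⌊U / Real.log d⌋₊ ∧ ⌊U / Real.log d⌋₊ ≤ 2 * U / j ∧
    (1 - δ / 8) * (j * Real.log 2) ^ 2 ≤ Real.log d ^ 2 ∧
    Real.log d ^ 2 ≤ (j * Real.log 2) ^ 2 := by
  have hl2a := Real.log_two_gt_d9
  have hl2b := Real.log_two_lt_d9
  have hjt : Tendsto (fun j : ℕ => (j : ℝ)) atTop atTop := tendsto_natCast_atTop_atTop
  have hlogj : ∀ᶠ j : ℕ in atTop, Real.log (j : ℝ) ^ 2 ≤ δ / 4 * j := by
    have h1 : Tendsto (fun x : ℝ => Real.log x ^ 2 / (1 * x + 0)) atTop (𝓝 0) :=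
      Real.tendsto_pow_log_div_mul_add_atTop 1 0 2 one_ne_zero
    have h2 := h1.comp hjt
    filter_upwards [h2.eventually (gt_mem_nhds (show (0 : ℝ) < δ / 4 by positivity)),
      eventually_ge_atTop 1] with j hj hj1
    have hj0 : (0 : ℝ) < j := by exact_mod_cast hj1
    simp only [comp_apply, one_mul, add_zero] at hj
    rw [div_lt_iff₀ hj0] at hj
    exact hj.le
  filter_upwards [hlogj, hjt.eventually_ge_atTop (1 / δ), hjt.eventually_ge_atTop (8 / δ),
    hjt.eventually_ge_atTop (16 / δ), eventually_ge_atTop 16] with j h1 h2 h3 h3' h4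
  intro d U hd1 hd2 hU1 hU2
  have hjr : (16 : ℝ) ≤ j := by exact_mod_cast h4
  have hj0 : (0 : ℝ) < j := by linarith
  have hd0 : 0 < d := (Nat.zero_le _).trans_lt hd1
  have hdr : (0 : ℝ) < d := by exact_mod_cast hd0
  obtain ⟨L, hL⟩ : ∃ L, L = Real.log d := ⟨_, rfl⟩
  rw [← hL] at hU1 hU2 ⊢
  have hLu : L ≤ j * Real.log 2 := by
    rw [hL, ← Real.log_pow]
    refine Real.log_le_log hdr ?_
    exact_mod_cast hd2
  have hLl : ((j : ℝ) - 1) * Real.log 2 ≤ L := by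
    have e : (j : ℝ) - 1 = ((j - 1 : ℕ) : ℝ) := by
      rw [Nat.cast_sub (by omega)]; norm_num
    rw [hL, e, ← Real.log_pow]
    refine Real.log_le_log (by positivity) ?_
    exact_mod_cast hd1.le
  have hLlow : 0.6 * (j : ℝ) ≤ L := by
    refine le_trans ?_ hLl
    nlinarith
  have hL0 : 0 < L := by linarith
  have hU0 : (0 : ℝ) < U := lt_of_lt_of_le (by positivity) hU1
  have hUlow : δ * (0.36 * (j : ℝ) ^ 2) ≤ U := by
    refine le_trans ?_ hU1
    have : 0.36 * (j : ℝ) ^ 2 ≤ L ^ 2 := by nlinarith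
    gcongr
  have hUj : δ / 4 * j ≤ (U : ℝ) / j := by
    rw [le_div_iff₀ hj0]
    refine le_trans ?_ hUlow
    nlinarith [mul_pos hδ (pow_pos hj0 2)]
  have hUj2 : 2 ≤ (U : ℝ) / j := by
    refine le_trans ?_ hUj
    have : 8 ≤ δ * j := by
      rw [div_le_iff₀ hδ] at h3; linarith
    linarith
  have hUup : (U : ℝ) ≤ 1 / δ * (j : ℝ) ^ 2 := by
    refine hU2.trans ?_
    have : L ^ 2 ≤ (j : ℝ) ^ 2 := by
      have : L ≤ j := hLu.trans (by nlinarith)
      gcongr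
    gcongr
  refine ⟨⟨?_, ?_, ?_⟩, ?_, ?_, ?_, ?_⟩
  · have : (U : ℝ) ≤ (j : ℝ) ^ 3 := by
      refine hUup.trans ?_
      calc 1 / δ * (j : ℝ) ^ 2 ≤ j * (j : ℝ) ^ 2 := by gcongr
        _ = (j : ℝ) ^ 3 := by ring
    exact_mod_cast this
  · exact h1.trans hUj
  · exact hUup
  · refine Nat.le_floor ?_
    have e1 : ((2 * U / j / 4 : ℕ) : ℝ) ≤ (2 * U / j : ℕ) / 4 := by
      exact Nat.cast_div_le.trans (le_of_eq (by norm_num))
    have e2 : ((2 * U / j : ℕ) : ℝ) ≤ 2 * U / j := by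
      refine Nat.cast_div_le.trans (le_of_eq ?_)
      push_cast; ring
    calc ((2 * U / j / 4 : ℕ) : ℝ) ≤ (2 * U / j) / 4 := by linarith
      _ = U / (2 * j) := by field_simp; norm_num
      _ ≤ U / L := by
          gcongr
          nlinarith
  · rw [Nat.le_div_iff_mul_le (by omega)]
    have e1 : (⌊(U : ℝ) / L⌋₊ : ℝ) ≤ U / L := Nat.floor_le (by positivity)
    have e2 : (⌊(U : ℝ) / L⌋₊ : ℝ) * j ≤ 2 * U := by
      calc (⌊(U : ℝ) / L⌋₊ : ℝ) * j ≤ (U / L) * j := by gcongr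
        _ ≤ (U / (0.6 * j)) * j := by gcongr
        _ = U / 0.6 := by field_simp
        _ ≤ 2 * U := by
            rw [div_le_iff₀ (by norm_num)]
            linarith
    exact_mod_cast e2
  · have e1 : (((j : ℝ) - 1) * Real.log 2) ^ 2 ≤ L ^ 2 := by
      have : 0 ≤ ((j : ℝ) - 1) * Real.log 2 := by
        have : (0 : ℝ) ≤ j - 1 := by linarith
        positivity
      gcongr
    refine le_trans ?_ e1
    have e2 : (1 - δ / 8) * (j : ℝ) ^ 2 ≤ ((j : ℝ) - 1) ^ 2 := by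
      have : 16 ≤ δ * j := by
        rw [div_le_iff₀ hδ] at h3'; linarith
      nlinarith
    calc (1 - δ / 8) * (j * Real.log 2) ^ 2 = ((1 - δ / 8) * (j : ℝ) ^ 2) * Real.log 2 ^ 2 := by
          ring
      _ ≤ ((j : ℝ) - 1) ^ 2 * Real.log 2 ^ 2 := by gcongr
      _ = _ := by ring
  · gcongr

lemma cost_low {δ r U v J L2 : ℝ} (hδ : 0 < δ) (hδ1 : δ ≤ 1) (hU : 0 ≤ U)
    (hJ : 0 < J) (hv0 : 0 < v) (hv : v * J ≤ 1 + δ / 4) (hL : L2 ≤ J ^ 2)
    (h : (r + δ) * U ≤ (1 - δ) * L2) : (r + δ / 4) * (U * v) ≤ (1 - δ / 4) * J := by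
  have h1 : (r + δ / 4) * U ≤ (1 - δ) * J ^ 2 := by
    calc (r + δ / 4) * U ≤ (r + δ) * U := by gcongr; linarith
      _ ≤ (1 - δ) * L2 := h
      _ ≤ (1 - δ) * J ^ 2 := by
          have : 0 ≤ 1 - δ := by linarith
          gcongr
  have h2 : (r + δ / 4) * (U * v) * J ≤ (1 - δ / 4) * J * J := by
    calc (r + δ / 4) * (U * v) * J = ((r + δ / 4) * U) * (v * J) := by ring
      _ ≤ ((1 - δ) * J ^ 2) * (1 + δ / 4) := by
          have : 0 ≤ (1 - δ) * J ^ 2 := by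
            have : 0 ≤ 1 - δ := by linarith
            positivity
          have : 0 ≤ v * J := by positivity
          gcongr
      _ = ((1 - δ) * (1 + δ / 4)) * J ^ 2 := by ring
      _ ≤ (1 - δ / 4) * J ^ 2 := by
          gcongr
          nlinarith
      _ = _ := by ring
  exact le_of_mul_le_mul_right h2 hJ

lemma cost_up {δ r U v J L2 : ℝ} (hδ : 0 < δ) (hδ1 : δ ≤ 1) (hU : 0 ≤ U)
    (hJ : 0 < J) (hv : 1 - δ / 8 ≤ v * J) (hv0 : 0 < v) (hL : (1 - δ / 8) * J ^ 2 ≤ L2)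
    (h : (1 + δ) * L2 ≤ (r - δ) * U) : (1 + δ / 8) * J ≤ (r - δ / 8) * (U * v) := by
  have h1 : (1 + δ) * ((1 - δ / 8) * J ^ 2) ≤ (r - δ / 8) * U := by
    calc (1 + δ) * ((1 - δ / 8) * J ^ 2) ≤ (1 + δ) * L2 := by gcongr
      _ ≤ (r - δ) * U := h
      _ ≤ (r - δ / 8) * U := by gcongr; linarith
  have h2 : (1 + δ / 8) * J * J ≤ (r - δ / 8) * (U * v) * J := by
    have h3 : 0 ≤ (1 + δ) * ((1 - δ / 8) * J ^ 2) := by
      have : 0 ≤ 1 - δ / 8 := by linarith
      positivity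
    have h4 : 0 ≤ 1 - δ / 8 := by linarith
    calc (1 + δ / 8) * J * J = (1 + δ / 8) * J ^ 2 := by ring
      _ ≤ ((1 + δ) * ((1 - δ / 8) * (1 - δ / 8))) * J ^ 2 := by
          gcongr
          nlinarith [mul_pos hδ hδ, mul_nonneg (sq_nonneg δ) (by linarith : 0 ≤ 1 - δ)]
      _ = ((1 + δ) * ((1 - δ / 8) * J ^ 2)) * (1 - δ / 8) := by ring
      _ ≤ ((1 + δ) * ((1 - δ / 8) * J ^ 2)) * (v * J) := by gcongr
      _ ≤ ((r - δ / 8) * U) * (v * J) := by gcongr
      _ = _ := by ring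
  exact le_of_mul_le_mul_right h2 hJ

theorem main_good (δ : ℝ) (hδ : 0 < δ) (hδ1 : δ ≤ 1) {Ω : Type} [MeasurableSpace Ω]
    (μ : Measure Ω) [IsProbabilityMeasure μ] (A : ℕ → Ω → ℕ) (hA : RandomClasses μ A)
    (z : ℕ → ℕ) (hzm : Monotone z)
    (hz : Tendsto (fun n : ℕ => V (z n) * Real.log n) atTop (𝓝 1)) :
    ∀ᵐ ω ∂μ, ∀ᶠ j : ℕ in atTop, ∀ t : Finset ℕ, (∀ d ∈ t, d.Prime ∧ 2 ^ (j - 1) < d ∧ d ≤ 2 ^ j ∧
      ¬ Good δ z (fun p => A p ω) d) → (t.card : ℝ) ≤ 2 ^ j / (j : ℝ) ^ 14 := by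
  classical
  have hl2a := Real.log_two_gt_d9
  have hl2b := Real.log_two_lt_d9
  have hlog2 : (0 : ℝ) < Real.log 2 := by linarith
  have hZ0 := V_low z hz
  have hZ1 := V_up z hz
  have hCδ : 1 ≤ 1 / δ := by rw [le_div_iff₀ hδ]; linarith
  have hv0 : ∀ᶠ j : ℕ in atTop, V (z (2 ^ (j - 2))) * (j * Real.log 2) ≤ 1 + δ / 4 := by
    filter_upwards [hZ0.eventually (gt_mem_nhds (show 1 < 1 + δ / 4 by linarith))] with j h
    exact h.le
  have hv1 : ∀ᶠ j : ℕ in atTop, 1 - δ / 8 ≤ V (z (2 ^ j * j ^ 3)) * (j * Real.log 2) := by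
    filter_upwards [hZ1.eventually (lt_mem_nhds (show 1 - δ / 8 < 1 by linarith))] with j h
    exact h.le
  -- the events
  obtain ⟨cL, hcL⟩ : ∃ cL : ℕ → ℕ → ℕ → Prop, cL = fun (j d U : ℕ) =>
    UOK (1 / δ) j U ∧ 2 * U / j / 4 ≤ ⌊U / Real.log d⌋₊ ∧ ⌊U / Real.log d⌋₊ ≤ 2 * U / j ∧
    (rm U ⌊U / Real.log d⌋₊ + δ / 4) * (U * V (z (2 ^ (j - 2)))) ≤
      (1 - δ / 4) * (j * Real.log 2) := ⟨_, rfl⟩
  obtain ⟨cU, hcU⟩ : ∃ cU : ℕ → ℕ → ℕ → Prop, cU = fun (j d U : ℕ) =>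
    UOK (1 / δ) j U ∧ 2 * U / j / 4 ≤ ⌊U / Real.log d⌋₊ ∧ ⌊U / Real.log d⌋₊ ≤ 2 * U / j ∧
    (1 + δ / 8) * (j * Real.log 2) ≤
      (rm U ⌊U / Real.log d⌋₊ - δ / 8) * (U * V (z (2 ^ j * j ^ 3))) := ⟨_, rfl⟩
  obtain ⟨EL, hEL⟩ : ∃ EL : ℕ → ℕ → ℕ → Set Ω, EL = fun j d U =>
    {ω | ¬ FamG (fun b => apW d U b) (Ico ((d + 1) / 2) d) (fun p => A p ω)
      (z (2 ^ (j - 2))) 0 2} := ⟨_, rfl⟩
  obtain ⟨EU, hEU⟩ : ∃ EU : ℕ → ℕ → ℕ → Set Ω, EU = fun j d U =>
    ⋃ b ∈ range d, {ω | T1 (fun p => trA A d b p ω) (z (2 ^ j * j ^ 3)) 0 U = 0} := ⟨_, rfl⟩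
  obtain ⟨E, hE⟩ : ∃ E : ℕ → ℕ → Set Ω, E = fun j d =>
    (⋃ U ∈ (range (j ^ 3 + 1)).filter (cL j d), EL j d U) ∪
    (⋃ U ∈ (range (j ^ 3 + 1)).filter (cU j d), EU j d U) := ⟨_, rfl⟩
  obtain ⟨s, hs⟩ : ∃ s : ℕ → Finset ℕ, s = fun j =>
    (Ioc (2 ^ (j - 1)) (2 ^ j)).filter (fun d => d.Prime) := ⟨_, rfl⟩
  have hcb := count_bad μ s E (fun j => by
    rw [hs]
    refine (card_filter_le _ _).trans ?_
    rw [Nat.card_Ioc]
    exact Nat.sub_le _ _) (by
    filter_upwards [ap_one (δ / 4) (1 / δ) (by positivity) (by linarith) hCδ _ hZ0,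
      up_one (δ / 4) (1 / δ) (by positivity) (by linarith) (by positivity) _ hZ1,
      Z_lt _ hZ0, ev_poly_exp (δ / 8 * Real.log 2) (by positivity) 23, eventually_ge_atTop 16]
      with j h1 h2 h3 h4 hj16 d hd
    rw [hs] at hd
    obtain ⟨hd1, hdp⟩ := mem_filter.1 hd
    obtain ⟨hd1, hd2⟩ := mem_Ioc.1 hd1
    have hjr : (16 : ℝ) ≤ j := by exact_mod_cast hj16
    have hj0 : (0 : ℝ) < j := by linarith
    rw [hE]
    have hcard : ∀ (P : ℕ → Prop) [DecidablePred P],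
        ((((range (j ^ 3 + 1)).filter P).card : ℕ) : ℝ) ≤ 2 * (j : ℝ) ^ 3 := by
      intro P _
      have e1 : ((range (j ^ 3 + 1)).filter P).card ≤ j ^ 3 + 1 := by
        refine (card_filter_le _ _).trans (le_of_eq (card_range _))
      have e2 : ((((range (j ^ 3 + 1)).filter P).card : ℕ) : ℝ) ≤ (j : ℝ) ^ 3 + 1 := by
        exact_mod_cast e1
      have e3 : (1 : ℝ) ≤ (j : ℝ) ^ 3 := one_le_pow₀ (by linarith)
      linarith
    have g1 : μ (⋃ U ∈ (range (j ^ 3 + 1)).filter (cL j d), EL j d U) ≤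
        ENNReal.ofReal (2 * (j : ℝ) ^ 3 * (2 / (j : ℝ) ^ 20)) := by
      calc μ (⋃ U ∈ (range (j ^ 3 + 1)).filter (cL j d), EL j d U) ≤
          ∑ U ∈ (range (j ^ 3 + 1)).filter (cL j d), μ (EL j d U) :=
            measure_biUnion_finset_le _ _
        _ ≤ ∑ U ∈ (range (j ^ 3 + 1)).filter (cL j d), ENNReal.ofReal (2 / (j : ℝ) ^ 20) := by
            refine sum_le_sum fun U hU => ?_
            have k := (mem_filter.1 hU).2
            rw [hcL] at k
            rw [hEL]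
            exact h1 μ A hA d hdp hd1 hd2 (h3.trans hd1) U k.1 _ k.2.1 k.2.2.1 k.2.2.2
        _ = ENNReal.ofReal (((((range (j ^ 3 + 1)).filter (cL j d)).card : ℕ) : ℝ) *
            (2 / (j : ℝ) ^ 20)) := by
            rw [sum_const, nsmul_eq_mul, ENNReal.ofReal_mul (Nat.cast_nonneg _),
              ENNReal.ofReal_natCast]
        _ ≤ _ := by
            refine ENNReal.ofReal_le_ofReal ?_
            have := hcard (cL j d)
            gcongr
    obtain ⟨x, hx⟩ : ∃ x : ℝ, x = 2 * Real.exp (-(δ / 8 * Real.log 2 * j)) := ⟨_, rfl⟩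
    have g2 : μ (⋃ U ∈ (range (j ^ 3 + 1)).filter (cU j d), EU j d U) ≤
        ENNReal.ofReal (2 * (j : ℝ) ^ 3 * x) := by
      calc μ (⋃ U ∈ (range (j ^ 3 + 1)).filter (cU j d), EU j d U) ≤
          ∑ U ∈ (range (j ^ 3 + 1)).filter (cU j d), μ (EU j d U) :=
            measure_biUnion_finset_le _ _
        _ ≤ ∑ U ∈ (range (j ^ 3 + 1)).filter (cU j d), ENNReal.ofReal x := by
            refine sum_le_sum fun U hU => ?_
            have k := (mem_filter.1 hU).2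
            rw [hcU] at k
            rw [hEU]
            calc μ (⋃ b ∈ range d, {ω | T1 (fun p => trA A d b p ω) (z (2 ^ j * j ^ 3)) 0 U = 0}) ≤
                ∑ b ∈ range d, μ {ω | T1 (fun p => trA A d b p ω) (z (2 ^ j * j ^ 3)) 0 U = 0} :=
                  measure_biUnion_finset_le _ _
              _ ≤ ∑ b ∈ range d, ENNReal.ofReal (2 * Real.exp (-((1 + δ / 8) *
                    (j * Real.log 2)))) := by
                  refine sum_le_sum fun b _ => ?_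
                  refine (h2 μ (trA A d b) (trA_random hA d b) U k.1 _ k.2.1 k.2.2.1 0).trans ?_
                  refine ENNReal.ofReal_le_ofReal ?_
                  have e : δ / 4 / 2 = δ / 8 := by ring
                  rw [e]
                  have := Real.exp_le_exp.2 (neg_le_neg k.2.2.2)
                  linarith
              _ = ENNReal.ofReal (d * (2 * Real.exp (-((1 + δ / 8) * (j * Real.log 2))))) := by
                  rw [sum_const, card_range, nsmul_eq_mul, ENNReal.ofReal_mul (Nat.cast_nonneg _),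
                    ENNReal.ofReal_natCast]
              _ ≤ ENNReal.ofReal x := by
                  refine ENNReal.ofReal_le_ofReal ?_
                  have e1 : (d : ℝ) ≤ Real.exp (j * Real.log 2) := by
                    rw [Real.exp_nat_mul, Real.exp_log (by norm_num)]
                    exact_mod_cast hd2
                  calc (d : ℝ) * (2 * Real.exp (-((1 + δ / 8) * (j * Real.log 2)))) ≤
                      Real.exp (j * Real.log 2) *
                        (2 * Real.exp (-((1 + δ / 8) * (j * Real.log 2)))) := by gcongr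
                    _ = 2 * (Real.exp (j * Real.log 2) *
                        Real.exp (-((1 + δ / 8) * (j * Real.log 2)))) := by ring
                    _ = x := by
                        rw [← Real.exp_add, hx]
                        congr 2
                        ring
        _ = ENNReal.ofReal (((((range (j ^ 3 + 1)).filter (cU j d)).card : ℕ) : ℝ) * x) := by
            rw [sum_const, nsmul_eq_mul, ENNReal.ofReal_mul (Nat.cast_nonneg _),
              ENNReal.ofReal_natCast]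
        _ ≤ _ := by
            refine ENNReal.ofReal_le_ofReal ?_
            have := hcard (cU j d)
            have hx0 : 0 ≤ x := by rw [hx]; positivity
            gcongr
    have hx23 : x ≤ 2 / (j : ℝ) ^ 23 := by
      rw [hx, le_div_iff₀ (by positivity)]
      nlinarith
    refine (measure_union_le _ _).trans ((add_le_add g1 g2).trans ?_)
    rw [← ENNReal.ofReal_add (by positivity) (by rw [hx]; positivity)]
    refine ENNReal.ofReal_le_ofReal ?_
    calc 2 * (j : ℝ) ^ 3 * (2 / (j : ℝ) ^ 20) + 2 * (j : ℝ) ^ 3 * x ≤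
        2 * (j : ℝ) ^ 3 * (2 / (j : ℝ) ^ 20) + 2 * (j : ℝ) ^ 3 * (2 / (j : ℝ) ^ 23) := by gcongr
      _ ≤ 2 * (j : ℝ) ^ 3 * (2 / (j : ℝ) ^ 20) + 2 * (j : ℝ) ^ 3 * (2 / (j : ℝ) ^ 20) := by
          have : (j : ℝ) ^ 20 ≤ (j : ℝ) ^ 23 := pow_le_pow_right₀ (by linarith) (by norm_num)
          gcongr
      _ = (8 / j) * (1 / (j : ℝ) ^ 16) := by field_simp; norm_num
      _ ≤ 1 * (1 / (j : ℝ) ^ 16) := by
          gcongr
          rw [div_le_one hj0]; linarith
      _ = 1 / (j : ℝ) ^ 16 := one_mul _)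
  filter_upwards [hcb, ae_lt hA] with ω hω hlt
  filter_upwards [hω, num_ok δ hδ hδ1, hv0, hv1, Z_lt _ hZ1, eventually_ge_atTop 2] with
    j h1 h2 h3 h4 h5 hj2 t ht
  refine h1 t (fun d hd => ?_) (fun d hd => ?_)
  · obtain ⟨k1, k2, k3, _⟩ := ht d hd
    rw [hs]
    exact mem_filter.2 ⟨mem_Ioc.2 ⟨k2, k3⟩, k1⟩
  · obtain ⟨k1, k2, k3, k4⟩ := ht d hd
    by_contra hcon
    refine k4 ?_
    rw [hE] at hcon
    simp only [Set.mem_union, not_or] at hcon
    obtain ⟨hn1, hn2⟩ := hcon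
    have hj0 : (0 : ℝ) < j := by exact_mod_cast (by omega : 0 < j)
    intro U hU1 hU2
    obtain ⟨m1, m2, m3, m4, m5⟩ := h2 d U k2 k3 hU1 hU2
    have hUr : U ∈ range (j ^ 3 + 1) := mem_range.2 (by have := m1.u1; omega)
    constructor
    · intro hc
      have hc2 := cost_low hδ hδ1 (Nat.cast_nonneg U) (by positivity : 0 < j * Real.log 2)
        (V_pos _) h3 m5 hc
      have hmem : U ∈ (range (j ^ 3 + 1)).filter (cL j d) := by
        refine mem_filter.2 ⟨hUr, ?_⟩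
        rw [hcL]
        exact ⟨m1, m2, m3, hc2⟩
      refine exc_of_fam z _ hzm hj2 k2 ?_
      by_contra hneg
      refine hn1 (Set.mem_biUnion (x := U) (mem_coe.2 hmem) ?_)
      rw [hEL]
      exact hneg
    · intro hc
      have hc2 := cost_up hδ hδ1 (Nat.cast_nonneg U) (by positivity : 0 < j * Real.log 2)
        h4 (V_pos _) m4 hc
      have hmem : U ∈ (range (j ^ 3 + 1)).filter (cU j d) := by
        refine mem_filter.2 ⟨hUr, ?_⟩
        rw [hcU]
        exact ⟨m1, m2, m3, hc2⟩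
      refine not_exc z _ hzm k3 m1.u1 fun b hb hcard => ?_
      refine hn2 (Set.mem_biUnion (x := U) (mem_coe.2 hmem) ?_)
      rw [hEU]
      refine Set.mem_biUnion (x := b) (mem_coe.2 (mem_range.2 hb)) ?_
      exact TG_trA A k1 (h5.trans k2) ω hlt hcard

end Pool.Agent.H532.WG
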