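import Mathlib
import Pool.Agent.H532.WG.Main2
import Pool.Agent.H532.LG.Facts2

/-!
The largest least element of `R` in the classes modulo a prime: the final forms.
-/

namespace Pool.Agent.H532.WG

open Finset MeasureTheory Function ProbabilityTheory Filter Pool.Agent.H532.RM
open Pool.Agent.H532.LG hiding Fam
open scoped ENNReal Topology

lemma Exc.mono {z a : ℕ → ℕ} {d : ℕ} {Y Y' : ℝ} (h : Exc z a d Y) (hY : Y' ≤ Y) :
    Exc z a d Y' := by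
  obtain ⟨b, h1, h2, h3⟩ := h
  exact ⟨b, h1, h2, fun n hn hb => lt_of_le_of_lt hY (h3 n hn hb)⟩

/-- from dyadic blocks to `(x, 2 x]` -/
lemma blocks (P : ℕ → Prop) (h : ∀ᶠ j : ℕ in atTop, ∀ t : Finset ℕ,
    (∀ d ∈ t, d.Prime ∧ 2 ^ (j - 1) < d ∧ d ≤ 2 ^ j ∧ P d) →
      (t.card : ℝ) ≤ 2 ^ j / (j : ℝ) ^ 14) :
    ∀ᶠ x : ℕ in atTop, ∀ t : Finset ℕ, (∀ d ∈ t, d.Prime ∧ x < d ∧ d ≤ 2 * x ∧ P d) →
      (t.card : ℝ) ≤ x / Real.log x ^ 12 := by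
  classical
  obtain ⟨J, hJ⟩ := eventually_atTop.1 h
  filter_upwards [eventually_ge_atTop (2 ^ (max J 8))] with x hx t ht
  obtain ⟨i, hi⟩ : ∃ i, i = Nat.log 2 x := ⟨_, rfl⟩
  have hx0 : x ≠ 0 := by
    have : 0 < 2 ^ (max J 8) := by positivity
    omega
  have hi1 : 2 ^ i ≤ x := by rw [hi]; exact Nat.pow_log_le_self 2 hx0
  have hi2 : x < 2 ^ (i + 1) := by rw [hi]; exact Nat.lt_pow_succ_log_self (by norm_num) _
  have hiJ : max J 8 ≤ i := by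
    rw [hi]
    exact Nat.le_log_of_pow_le (by norm_num) hx
  have hiJ1 : J ≤ i := (le_max_left _ _).trans hiJ
  have hi8 : 8 ≤ i := (le_max_right _ _).trans hiJ
  have c1 := hJ (i + 1) (by omega) (t.filter (fun d => d ≤ 2 ^ (i + 1))) (fun d hd => by
    obtain ⟨h1, h2⟩ := mem_filter.1 hd
    obtain ⟨k1, k2, k3, k4⟩ := ht d h1
    refine ⟨k1, ?_, h2, k4⟩
    have : i + 1 - 1 = i := by omega
    rw [this]; omega)
  have c2 := hJ (i + 2) (by omega) (t.filter (fun d => ¬ d ≤ 2 ^ (i + 1))) (fun d hd => by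
    obtain ⟨h1, h2⟩ := mem_filter.1 hd
    obtain ⟨k1, k2, k3, k4⟩ := ht d h1
    refine ⟨k1, ?_, ?_, k4⟩
    · have : i + 2 - 1 = i + 1 := by omega
      rw [this]; omega
    · have : 2 ^ (i + 2) = 2 * 2 ^ (i + 1) := by rw [← pow_succ']
      omega)
  have c3 : (t.card : ℝ) = ((t.filter (fun d => d ≤ 2 ^ (i + 1))).card : ℝ) +
      ((t.filter (fun d => ¬ d ≤ 2 ^ (i + 1))).card : ℝ) := by
    have := Finset.card_filter_add_card_filter_not (s := t) (fun d => d ≤ 2 ^ (i + 1))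
    exact_mod_cast this.symm
  have hir : (8 : ℝ) ≤ i := by exact_mod_cast hi8
  have hi0 : (0 : ℝ) < i := by linarith
  have hxr : (0 : ℝ) < x := by exact_mod_cast Nat.pos_of_ne_zero hx0
  have hx2 : (2 : ℝ) ^ i ≤ x := by exact_mod_cast hi1
  have hlog : Real.log x ≤ i + 1 := by
    have h1 : Real.log x ≤ Real.log ((2 : ℝ) ^ (i + 1)) := by
      refine Real.log_le_log hxr ?_
      exact_mod_cast hi2.le
    rw [Real.log_pow] at h1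
    have hl2b := Real.log_two_lt_d9
    push_cast at h1
    nlinarith
  have hlog0 : 0 < Real.log x := by
    refine Real.log_pos ?_
    have : (2 : ℝ) ^ 1 ≤ 2 ^ i := pow_le_pow_right₀ (by norm_num) (by omega)
    linarith
  have b1 : ((2 : ℝ) ^ (i + 1)) / ((i + 1 : ℕ) : ℝ) ^ 14 ≤ 2 * x / ((i : ℝ) + 1) ^ 14 := by
    push_cast
    have : (2 : ℝ) ^ (i + 1) ≤ 2 * x := by rw [pow_succ]; linarith
    gcongr
  have b2 : ((2 : ℝ) ^ (i + 2)) / ((i + 2 : ℕ) : ℝ) ^ 14 ≤ 4 * x / ((i : ℝ) + 1) ^ 14 := by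
    push_cast
    have : (2 : ℝ) ^ (i + 2) ≤ 4 * x := by rw [pow_add]; linarith
    gcongr
    norm_num
  rw [c3]
  calc _ ≤ 2 * x / ((i : ℝ) + 1) ^ 14 + 4 * x / ((i : ℝ) + 1) ^ 14 :=
        add_le_add (c1.trans b1) (c2.trans b2)
    _ = 6 / ((i : ℝ) + 1) ^ 2 * (x / ((i : ℝ) + 1) ^ 12) := by field_simp; norm_num
    _ ≤ 1 * (x / ((i : ℝ) + 1) ^ 12) := by
        gcongr
        rw [div_le_one (by positivity)]
        nlinarith
    _ = x / ((i : ℝ) + 1) ^ 12 := one_mul _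
    _ ≤ x / Real.log x ^ 12 := by gcongr

theorem final_A (δ : ℝ) (hδ : 0 < δ) (hδ1 : δ ≤ 1) {Ω : Type} [MeasurableSpace Ω]
    (μ : Measure Ω) [IsProbabilityMeasure μ] (A : ℕ → Ω → ℕ) (hA : RandomClasses μ A)
    (z : ℕ → ℕ) (hzm : Monotone z)
    (hz : Tendsto (fun n : ℕ => V (z n) * Real.log n) atTop (𝓝 1)) :
    ∀ᵐ ω ∂μ, ∀ᶠ x : ℕ in atTop, ∀ t : Finset ℕ, (∀ d ∈ t, d.Prime ∧ x < d ∧ d ≤ 2 * x ∧
      ¬ Good δ z (fun p => A p ω) d) → (t.card : ℝ) ≤ x / Real.log x ^ 12 := by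
  filter_upwards [main_good δ hδ hδ1 μ A hA z hzm hz] with ω hω
  exact blocks (fun d => ¬ Good δ z (fun p => A p ω) d) hω

theorem exc_of_good : ∃ c δ : ℝ, 0 < c ∧ 0 < δ ∧ δ ≤ 1 ∧ ∀ᶠ d : ℕ in atTop, ∀ z a : ℕ → ℕ,
    Good δ z a d → Exc z a d ((1 + c) * d * Real.log d ^ 2) := by
  obtain ⟨c1, hc1, hev⟩ := rm_lt_one (1 / 2) (by norm_num)
  obtain ⟨c0, hc0⟩ : ∃ c0 : ℝ, c0 = min c1 1 := ⟨_, rfl⟩
  have h0 : 0 < c0 := by rw [hc0]; exact lt_min hc1 one_pos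
  have h1 : c0 ≤ 1 := by rw [hc0]; exact min_le_right _ _
  have h2 : c0 ≤ c1 := by rw [hc0]; exact min_le_left _ _
  refine ⟨c0 / 4, c0 / 8, by positivity, by positivity, by linarith, ?_⟩
  have hnt : Tendsto (fun d : ℕ => (d : ℝ)) atTop atTop := tendsto_natCast_atTop_atTop
  filter_upwards [hnt.eventually hev, (Real.tendsto_log_atTop.comp hnt).eventually_ge_atTop
    (4 / c0)] with d k1 k2 z a hG
  simp only [comp_apply] at k2
  obtain ⟨L, hL⟩ : ∃ L, L = Real.log d := ⟨_, rfl⟩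
  rw [← hL] at k1 k2 ⊢
  have hL4 : 4 ≤ L := by
    refine le_trans ?_ k2
    rw [le_div_iff₀ h0]; linarith
  have hL0 : 0 < L := by linarith
  have hL2 : 4 / c0 ≤ L ^ 2 := by nlinarith
  have hL3 : 1 ≤ c0 / 4 * L ^ 2 := by
    rw [div_le_iff₀ h0] at hL2; linarith
  obtain ⟨U, hU⟩ : ∃ U, U = ⌈(1 + c0 / 4) * L ^ 2⌉₊ := ⟨_, rfl⟩
  have hU1 : (1 + c0 / 4) * L ^ 2 ≤ U := by rw [hU]; exact Nat.le_ceil _
  have hU2 : (U : ℝ) ≤ (1 + c0 / 4) * L ^ 2 + 1 := by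
    rw [hU]; exact (Nat.ceil_lt_add_one (by positivity)).le
  have hU3 : (U : ℝ) ≤ (1 + c0 / 2) * L ^ 2 := by linarith
  have hsq : 0 < L ^ 2 := by positivity
  have hr := k1 U (by
    have e : (1 : ℝ) + 1 / 2 ≤ 2 := by norm_num
    have e1 : L ^ ((1 : ℝ) + 1 / 2) ≤ L ^ (2 : ℝ) :=
      Real.rpow_le_rpow_of_exponent_le (by linarith) e
    rw [Real.rpow_two] at e1
    nlinarith) (by
    norm_num
    nlinarith)
  rw [Nat.floor_natCast] at hr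
  have hG1 := (hG U (by rw [← hL]; nlinarith) (by
    rw [← hL]
    have e1 : (2 : ℝ) ≤ 1 / (c0 / 8) := by
      rw [le_div_iff₀ (by positivity)]; linarith
    calc (U : ℝ) ≤ 2 * L ^ 2 := by nlinarith
      _ ≤ 1 / (c0 / 8) * L ^ 2 := by gcongr)).1
  rw [← hL] at hG1
  have hr' : rm U ⌊(U : ℝ) / L⌋₊ ≤ 1 - c0 := hr.trans (by linarith)
  have hr0 := rm_nonneg U ⌊(U : ℝ) / L⌋₊
  have hE := hG1 (by
    calc (rm U ⌊(U : ℝ) / L⌋₊ + c0 / 8) * U ≤ (1 - c0 + c0 / 8) * ((1 + c0 / 2) * L ^ 2) := by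
          have : 0 ≤ 1 - c0 + c0 / 8 := by linarith
          gcongr
      _ = ((1 - c0 + c0 / 8) * (1 + c0 / 2)) * L ^ 2 := by ring
      _ ≤ (1 - c0 / 8) * L ^ 2 := by
          gcongr
          nlinarith)
  refine hE.mono ?_
  calc (1 + c0 / 4) * (d : ℝ) * L ^ 2 = (d : ℝ) * ((1 + c0 / 4) * L ^ 2) := by ring
    _ ≤ (d : ℝ) * U := by gcongr

theorem final_B : ∃ c : ℝ, 0 < c ∧ ∀ {Ω : Type} [MeasurableSpace Ω]
    (μ : Measure Ω) [IsProbabilityMeasure μ] (A : ℕ → Ω → ℕ) (_ : RandomClasses μ A)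
    (z : ℕ → ℕ) (_ : Monotone z)
    (_ : Tendsto (fun n : ℕ => V (z n) * Real.log n) atTop (𝓝 1)),
    ∀ᵐ ω ∂μ, ∀ᶠ x : ℕ in atTop, ∀ t : Finset ℕ, (∀ d ∈ t, d.Prime ∧ x < d ∧ d ≤ 2 * x ∧
      ¬ Exc z (fun p => A p ω) d ((1 + c) * d * Real.log d ^ 2)) →
      (t.card : ℝ) ≤ x / Real.log x ^ 12 := by
  obtain ⟨c, δ, hc, hδ, hδ1, hev⟩ := exc_of_good
  obtain ⟨N, hN⟩ := eventually_atTop.1 hev
  refine ⟨c, hc, ?_⟩
  intro Ω _ μ _ A hA z hzm hz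
  filter_upwards [final_A δ hδ hδ1 μ A hA z hzm hz] with ω hω
  filter_upwards [hω, eventually_ge_atTop N] with x hx hxN t ht
  refine hx t fun d hd => ?_
  obtain ⟨k1, k2, k3, k4⟩ := ht d hd
  exact ⟨k1, k2, k3, fun hg => k4 (hN d (by omega) z _ hg)⟩

end Pool.Agent.H532.WG
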