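import Mathlib
import Pool.Agent.H532.WG.Main

/-!
Numbers for the count of the classes without small elements.
-/

namespace Pool.Agent.H532.WG

open Finset MeasureTheory Function ProbabilityTheory Filter Pool.Agent.H532.RM
open Pool.Agent.H532.LG hiding Fam
open scoped ENNReal Topology

lemma num_okC (δ ε K : ℝ) (hδ : 0 < δ) (hδ1 : δ ≤ 1) (hε : 0 < ε) :
    ∀ᶠ j : ℕ in atTop, ∀ d U : ℕ, 2 ^ (j - 1) < d → d ≤ 2 ^ j →
      Real.log d * Real.log (Real.log d) ^ 3 ≤ U → U ≤ 1 / δ * Real.log d ^ 2 →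
    UOK (1 / δ) j U ∧ 2 * U / j / 4 ≤ ⌊U / Real.log d⌋₊ ∧ ⌊U / Real.log d⌋₊ ≤ 2 * U / j ∧
    (1 - ε) * (j * Real.log 2) ≤ Real.log d ∧ Real.log d ≤ j * Real.log 2 ∧
    K ≤ (U : ℝ) / Real.log d ∧ 0 < Real.log d := by
  have hl2a := Real.log_two_gt_d9
  have hl2b := Real.log_two_lt_d9
  have hjt : Tendsto (fun j : ℕ => (j : ℝ)) atTop atTop := tendsto_natCast_atTop_atTop
  have hlt : Tendsto (fun j : ℕ => Real.log (j : ℝ)) atTop atTop :=
    Real.tendsto_log_atTop.comp hjt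
  filter_upwards [hjt.eventually_ge_atTop (1 / δ), hlt.eventually_ge_atTop (|K| + 28),
    hjt.eventually_ge_atTop (1 / ε), eventually_ge_atTop 16] with j h2 h3 h3' h4
  intro d U hd1 hd2 hU1 hU2
  have hjr : (16 : ℝ) ≤ j := by exact_mod_cast h4
  have hj0 : (0 : ℝ) < j := by linarith
  have hd0 : 0 < d := (Nat.zero_le _).trans_lt hd1
  have hdr : (0 : ℝ) < d := by exact_mod_cast hd0
  obtain ⟨L, hL⟩ : ∃ L, L = Real.log d := ⟨_, rfl⟩
  rw [← hL] at hU1 hU2 ⊢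
  have hLu : L ≤ j * Real.log 2 := by
    rw [hL, ← Real.log_pow]
    refine Real.log_le_log hdr ?_
    exact_mod_cast hd2
  have hLl : ((j : ℝ) - 1) * Real.log 2 ≤ L := by
    have e : (j : ℝ) - 1 = ((j - 1 : ℕ) : ℝ) := by
      rw [Nat.cast_sub (by omega)]; norm_num
    rw [hL, e, ← Real.log_pow]
    refine Real.log_le_log (by positivity) ?_
    exact_mod_cast hd1.le
  have hLlow : 0.6 * (j : ℝ) ≤ L := by
    refine le_trans ?_ hLl
    nlinarith
  have hL0 : 0 < L := by linarith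
  have hK := abs_nonneg K
  have hK2 := le_abs_self K
  obtain ⟨l, hl⟩ : ∃ l, l = Real.log (j : ℝ) := ⟨_, rfl⟩
  rw [← hl] at h3
  have hLL : l / 2 ≤ Real.log L := by
    have e1 : Real.log (0.6 * (j : ℝ)) ≤ Real.log L := Real.log_le_log (by positivity) hLlow
    rw [Real.log_mul (by norm_num) hj0.ne', ← hl] at e1
    have e2 := Real.one_sub_inv_le_log_of_pos (show (0 : ℝ) < 0.6 by norm_num)
    have e3 : (1 : ℝ) - 0.6⁻¹ ≥ -1 := by norm_num
    linarith
  have hl28 : 28 ≤ l := by linarith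
  have hLL3 : (l / 2) ^ 3 ≤ Real.log L ^ 3 := by gcongr
  have hUL : (l / 2) ^ 3 ≤ (U : ℝ) / L := by
    rw [le_div_iff₀ hL0]
    calc (l / 2) ^ 3 * L ≤ Real.log L ^ 3 * L := by gcongr
      _ = L * Real.log L ^ 3 := by ring
      _ ≤ U := hU1
  have hU0 : (0 : ℝ) ≤ U := Nat.cast_nonneg _
  have hUj : l ^ 2 ≤ (U : ℝ) / j := by
    have e1 : 0.6 * ((U : ℝ) / L) ≤ (U : ℝ) / j := by
      rw [le_div_iff₀ hj0]
      calc 0.6 * ((U : ℝ) / L) * j = ((U : ℝ) / L) * (0.6 * j) := by ring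
        _ ≤ ((U : ℝ) / L) * L := by gcongr
        _ = U := by field_simp
    refine le_trans ?_ e1
    have e2 : 0.6 * (l / 2) ^ 3 ≤ 0.6 * ((U : ℝ) / L) := by gcongr
    refine le_trans ?_ e2
    have e3 : (l / 2) ^ 3 = l ^ 2 * (l / 8) := by ring
    rw [e3]
    nlinarith [sq_nonneg l]
  have hUj2 : 2 ≤ (U : ℝ) / j := by
    refine le_trans ?_ hUj
    nlinarith
  have hUup : (U : ℝ) ≤ 1 / δ * (j : ℝ) ^ 2 := by
    refine hU2.trans ?_
    have : L ^ 2 ≤ (j : ℝ) ^ 2 := by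
      have : L ≤ j := hLu.trans (by nlinarith)
      gcongr
    gcongr
  refine ⟨⟨?_, ?_, ?_⟩, ?_, ?_, ?_, hLu, ?_, hL0⟩
  · have : (U : ℝ) ≤ (j : ℝ) ^ 3 := by
      refine hUup.trans ?_
      calc 1 / δ * (j : ℝ) ^ 2 ≤ j * (j : ℝ) ^ 2 := by gcongr
        _ = (j : ℝ) ^ 3 := by ring
    exact_mod_cast this
  · rw [← hl]; exact hUj
  · exact hUup
  · refine Nat.le_floor ?_
    have e1 : ((2 * U / j / 4 : ℕ) : ℝ) ≤ (2 * U / j : ℕ) / 4 := by
      exact Nat.cast_div_le.trans (le_of_eq (by norm_num))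
    have e2 : ((2 * U / j : ℕ) : ℝ) ≤ 2 * U / j := by
      refine Nat.cast_div_le.trans (le_of_eq ?_)
      push_cast; ring
    calc ((2 * U / j / 4 : ℕ) : ℝ) ≤ (2 * U / j) / 4 := by linarith
      _ = U / (2 * j) := by field_simp; ring
      _ ≤ U / L := by
          gcongr
          nlinarith
  · rw [Nat.le_div_iff_mul_le (by omega)]
    have e1 : (⌊(U : ℝ) / L⌋₊ : ℝ) ≤ U / L := Nat.floor_le (by positivity)
    have e2 : (⌊(U : ℝ) / L⌋₊ : ℝ) * j ≤ 2 * U := by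
      calc (⌊(U : ℝ) / L⌋₊ : ℝ) * j ≤ (U / L) * j := by gcongr
        _ ≤ (U / (0.6 * j)) * j := by gcongr
        _ = U / 0.6 := by field_simp
        _ ≤ 2 * U := by
            rw [div_le_iff₀ (by norm_num)]
            linarith
    exact_mod_cast e2
  · refine le_trans ?_ hLl
    have : 1 ≤ ε * j := by
      rw [div_le_iff₀ hε] at h3'; linarith
    calc (1 - ε) * (j * Real.log 2) = ((1 - ε) * j) * Real.log 2 := by ring
      _ ≤ ((j : ℝ) - 1) * Real.log 2 := by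
          gcongr
          linarith
  · refine le_trans ?_ hUL
    have e1 : (1 : ℝ) ≤ (l / 2) ^ 2 := one_le_pow₀ (by linarith)
    have e2 : (l / 2) ^ 3 = (l / 2) ^ 2 * (l / 2) := by ring
    have e3 : 1 * (l / 2) ≤ (l / 2) ^ 2 * (l / 2) := by gcongr
    have e4 : K ≤ (l / 2) ^ 3 := by
      rw [e2]
      by_cases hKs : |K| ≤ 14
      · linarith
      · rw [not_le] at hKs
        have e5 : |K| / 2 + 14 ≤ l / 2 := by linarith
        have e6 : (196 : ℝ) ≤ (l / 2) ^ 2 := by nlinarith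
        nlinarith
    exact e4

lemma two_le_exp {δ h : ℝ} (hδ : 0 < δ) (h1 : 4 / δ ≤ h) : 2 ≤ Real.exp (δ / 2 * h) := by
  have h2 : 2 ≤ δ / 2 * h := by
    calc 2 = δ / 2 * (4 / δ) := by field_simp; norm_num
      _ ≤ δ / 2 * h := by gcongr
  have h3 := Real.add_one_le_exp (δ / 2 * h)
  linarith

/-- comparison of the expected numbers, lower bound -/
lemma cnt_low {δ ε C r U v J L N d E2 : ℝ} (hδ : 0 < δ) (hδ1 : δ ≤ 1) (hε : 0 < ε)
    (hε2 : 24 * ε * (C + 1) ≤ δ) (hC : 0 < C) (hr0 : 0 ≤ r) (hrC : r ≤ C) (hL0 : 0 < L)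
    (hLJ : L ≤ J) (hU : 0 ≤ U) (hv0 : 0 < v) (hv : v * J ≤ 1 + ε) (hd : 0 < d) (hdE : d ≤ E2)
    (hE2 : E2 = Real.exp J) (hh : 4 / δ ≤ U / L) (hJ2 : 2 ≤ Real.exp (δ / 4 * J))
    (h : (r + δ) * U ≤ (1 - δ) * L ^ 2) :
    (r + δ / 4) * (U * v) ≤ (1 - δ / 4) * J ∧
    (E2 * Real.exp (-((r + δ / 4) * (U * v))) - 1 ≤ N →
      d * Real.exp (-((r + δ) * (U / L))) ≤ N) := by
  obtain ⟨y, hy⟩ : ∃ y, y = U / L := ⟨_, rfl⟩
  have hy0 : 0 ≤ y := by rw [hy]; positivity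
  have hJ0 : 0 < J := by linarith
  have hUv : U * v ≤ (1 + ε) * y := by
    have e1 : U = y * L := by rw [hy]; field_simp
    calc U * v = y * (L * v) := by rw [e1]; ring
      _ ≤ y * (J * v) := by gcongr
      _ = y * (v * J) := by ring
      _ ≤ y * (1 + ε) := by gcongr
      _ = (1 + ε) * y := by ring
  have hεC : ε * C ≤ δ / 24 := by nlinarith
  have hε24 : ε ≤ δ / 24 := by nlinarith
  have h1 : (r + δ / 4) * (U * v) ≤ (r + δ / 2) * y := by
    calc (r + δ / 4) * (U * v) ≤ (r + δ / 4) * ((1 + ε) * y) := by gcongr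
      _ = ((r + δ / 4) * (1 + ε)) * y := by ring
      _ ≤ (r + δ / 2) * y := by
          gcongr
          have : ε * r ≤ ε * C := by gcongr
          nlinarith
  have h2 : (r + δ) * y ≤ (1 - δ) * L := by
    rw [hy, ← mul_div_assoc, div_le_iff₀ hL0]
    calc (r + δ) * U ≤ (1 - δ) * L ^ 2 := h
      _ = _ := by ring
  have h3 : (r + δ / 4) * (U * v) ≤ (1 - δ / 4) * J := by
    calc (r + δ / 4) * (U * v) ≤ (r + δ / 2) * y := h1
      _ ≤ (r + δ) * y := by gcongr; linarith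
      _ ≤ (1 - δ) * L := h2
      _ ≤ (1 - δ) * J := by
          have : 0 ≤ 1 - δ := by linarith
          gcongr
      _ ≤ (1 - δ / 4) * J := by gcongr; linarith
  refine ⟨h3, fun hN => ?_⟩
  rw [← hy]
  rw [← hy] at hh
  have h4 : 2 ≤ E2 * Real.exp (-((r + δ / 4) * (U * v))) := by
    refine hJ2.trans ?_
    rw [hE2, ← Real.exp_add]
    refine Real.exp_le_exp.2 ?_
    linarith
  have h5 : 2 * (d * Real.exp (-((r + δ) * y))) ≤
      E2 * Real.exp (-((r + δ / 4) * (U * v))) := by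
    have e1 := two_le_exp hδ hh
    calc 2 * (d * Real.exp (-((r + δ) * y))) ≤
        Real.exp (δ / 2 * y) * (E2 * Real.exp (-((r + δ) * y))) := by gcongr
      _ = E2 * (Real.exp (δ / 2 * y) * Real.exp (-((r + δ) * y))) := by ring
      _ = E2 * Real.exp (-((r + δ / 2) * y)) := by
          rw [← Real.exp_add]; congr 2; ring
      _ ≤ E2 * Real.exp (-((r + δ / 4) * (U * v))) := by
          have hE0 : 0 ≤ E2 := by linarith
          gcongr
  linarith

/-- comparison of the expected numbers, upper bound -/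
lemma cnt_up {δ ε C r U v J L N d E2 : ℝ} (hδ : 0 < δ) (hδ1 : δ ≤ 1) (hε : 0 < ε)
    (hε1 : ε ≤ 1 / 16)
    (hε2 : 24 * ε * (C + 1) ≤ δ) (hC : 0 < C) (hr0 : 0 ≤ r) (hrC : r ≤ C) (hL0 : 0 < L)
    (hLJ : L ≤ J) (hLJ2 : (1 - ε) * J ≤ L) (hU : 0 ≤ U) (hv0 : 0 < v) (hv : v * J ≤ 1 + ε)
    (hv' : 1 - ε ≤ v * J) (hd : 0 < d) (hdE : E2 ≤ 2 * d) (hE0 : 0 ≤ E2)
    (hh : 4 / δ ≤ U / L)
    (hN : N ≤ E2 * Real.exp (-((r - δ / 4) * (U * v)))) :
    N ≤ d * Real.exp (-((r - δ) * (U / L))) := by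
  obtain ⟨y, hy⟩ : ∃ y, y = U / L := ⟨_, rfl⟩
  have hy0 : 0 ≤ y := by rw [hy]; positivity
  have hJ0 : 0 < J := by linarith
  have e1 : U = y * L := by rw [hy]; field_simp
  have hUv : U * v ≤ (1 + ε) * y := by
    calc U * v = y * (L * v) := by rw [e1]; ring
      _ ≤ y * (J * v) := by gcongr
      _ = y * (v * J) := by ring
      _ ≤ y * (1 + ε) := by gcongr
      _ = (1 + ε) * y := by ring
  have hUv2 : (1 - 2 * ε) * y ≤ U * v := by
    calc (1 - 2 * ε) * y ≤ ((1 - ε) * (1 - ε)) * y := by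
          gcongr
          nlinarith
      _ ≤ ((1 - ε) * (v * J)) * y := by
          have : 0 ≤ 1 - ε := by linarith
          gcongr
      _ = y * (((1 - ε) * J) * v) := by ring
      _ ≤ y * (L * v) := by gcongr
      _ = U * v := by rw [e1]; ring
  have hεC : ε * C ≤ δ / 24 := by nlinarith
  have hε24 : ε ≤ δ / 24 := by nlinarith
  have h1 : (r - δ / 2) * y ≤ (r - δ / 4) * (U * v) := by
    have k1 : r * ((1 - 2 * ε) * y) ≤ r * (U * v) := by gcongr
    have k2 : δ / 4 * (U * v) ≤ δ / 4 * ((1 + ε) * y) := by gcongr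
    have k3 : ε * r * y ≤ δ / 24 * y := by
      have : ε * r ≤ ε * C := by gcongr
      have : ε * r ≤ δ / 24 := by linarith
      gcongr
    have k4 : δ / 4 * ε * y ≤ δ / 8 * y := by
      have : δ / 4 * ε ≤ δ / 8 := by nlinarith
      gcongr
    nlinarith
  rw [← hy]
  rw [← hy] at hh
  have e2 := two_le_exp hδ hh
  refine hN.trans ?_
  calc E2 * Real.exp (-((r - δ / 4) * (U * v))) ≤ (2 * d) * Real.exp (-((r - δ / 2) * y)) := by
        gcongr
    _ ≤ (Real.exp (δ / 2 * y) * d) * Real.exp (-((r - δ / 2) * y)) := by gcongr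
    _ = d * (Real.exp (δ / 2 * y) * Real.exp (-((r - δ / 2) * y))) := by ring
    _ = d * Real.exp (-((r - δ) * y)) := by
        rw [← Real.exp_add]; congr 2; ring

end Pool.Agent.H532.WG
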