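import Mathlib
import Pool.Agent.H532.LG.Many
import Pool.Agent.H532.WG.FamBlockAP
import Pool.Agent.H532.WG.KillG

/-!
One prime modulus: with large probability there are classes without small elements.
-/

namespace Pool.Agent.H532.WG

open Finset MeasureTheory Function ProbabilityTheory Filter Pool.Agent.H532.RM
open Pool.Agent.H532.LG hiding Fam
open scoped ENNReal Topology

theorem ap_cnt (δ C0 : ℝ) (hδ : 0 < δ) (hδ1 : δ ≤ 1) (hC0 : 1 ≤ C0) (Z : ℕ → ℕ)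
    (hZ : Tendsto (fun j : ℕ => V (Z j) * (j * Real.log 2)) atTop (𝓝 1)) :
    ∀ᶠ j : ℕ in atTop, ∀ {Ω : Type} [MeasurableSpace Ω] (μ : Measure Ω) [IsProbabilityMeasure μ]
      (A : ℕ → Ω → ℕ) (_ : RandomClasses μ A) (d : ℕ), d.Prime → 2 ^ (j - 1) < d → d ≤ 2 ^ j →
      Z j < d → ∀ U : ℕ, UOK C0 j U → ∀ ζ : ℕ, 2 * U / j / 4 ≤ ζ →
      ζ ≤ 2 * U / j → (rm U ζ + δ) * (U * V (Z j)) ≤ (1 - δ) * (j * Real.log 2) →
      μ {ω | ¬ FamG (fun b => apW d U b) (Ico ((d + 1) / 2) d) (fun p => A p ω) (Z j) 0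
          (2 ^ j * Real.exp (-((rm U ζ + δ) * (U * V (Z j)))))} ≤
        ENNReal.ofReal (2 / (j : ℝ) ^ 20) := by
  classical
  obtain ⟨C, hC, ζ0, hrp⟩ := rp_bdd
  obtain ⟨δf, hδf⟩ : ∃ δf : ℝ, δf = min 1 (δ / (16 * (C + 1))) := ⟨_, rfl⟩
  have hδf0 : 0 < δf := by rw [hδf]; exact lt_min one_pos (by positivity)
  have hδf1 : δf ≤ 1 := by rw [hδf]; exact min_le_left _ _
  have hδf2 : δf * (16 * (C + 1)) ≤ δ := by
    have h1 : δf ≤ δ / (16 * (C + 1)) := by rw [hδf]; exact min_le_right _ _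
    rwa [le_div_iff₀ (by positivity)] at h1
  obtain ⟨C0', hC0'⟩ : ∃ C0' : ℝ, C0' = C0 + (2 * C + 3) := ⟨_, rfl⟩
  have hC0'1 : 1 ≤ C0' := by rw [hC0']; linarith
  obtain ⟨η, hη⟩ : ∃ η : ℝ, η = min (δ / 8) (1 / (8 * C0')) := ⟨_, rfl⟩
  have hη0 : 0 < η := by rw [hη]; exact lt_min (by positivity) (by positivity)
  have hηδ : η ≤ δ / 8 := by rw [hη]; exact min_le_left _ _
  have hηC : η * C0' ≤ 1 / 8 := by
    have h1 : η ≤ 1 / (8 * C0') := by rw [hη]; exact min_le_right _ _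
    rw [le_div_iff₀ (by positivity)] at h1
    linarith
  obtain ⟨ε2, κρ, hε2, hε21, hκρ, hkill⟩ := kill_oneG η C0' (δ / 4) hη0 hC0'1 hηC (by positivity)
  have hρ := rho_small hZ
  obtain ⟨Z1, hlev⟩ := lev_ev ε2 κρ hε2 hε21 hκρ (fun _ => 0) Wj Z
    (Eventually.of_forall fun _ => Nat.zero_le _) (Eventually.of_forall fun _ => le_rfl) hρ hZ
  have hvz : ∀ᶠ j : ℕ in atTop, 1 ≤ (j : ℝ) * V (Z j) ∧ (j : ℝ) * V (Z j) ≤ 2 := by
    have hl2a := Real.log_two_gt_d9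
    have hl2b := Real.log_two_lt_d9
    filter_upwards [hZ.eventually (lt_mem_nhds (show (0.9 : ℝ) < 1 by norm_num)),
      hZ.eventually (gt_mem_nhds (show (1 : ℝ) < 1.1 by norm_num))] with j h1 h2
    have h3 : 0 ≤ (j : ℝ) * V (Z j) := mul_nonneg (Nat.cast_nonneg _) (V_pos _).le
    constructor <;> nlinarith
  have hlog2 : (0 : ℝ) < Real.log 2 := Real.log_pos (by norm_num)
  have hlogt : Tendsto (fun j : ℕ => Real.log (j : ℝ) ^ 2) atTop atTop :=
    (tendsto_pow_atTop (by norm_num)).comp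
      (Real.tendsto_log_atTop.comp tendsto_natCast_atTop_atTop)
  have hpow : ∀ᶠ j : ℕ in atTop, j ^ 3 < 2 ^ j := by
    have h1 := tendsto_pow_const_div_const_pow_of_one_lt 3 (show (1 : ℝ) < 2 by norm_num)
    filter_upwards [h1.eventually (gt_mem_nhds one_pos)] with j hj
    rw [div_lt_one (by positivity)] at hj
    exact_mod_cast hj
  filter_upwards [hkill, hlev, fam_ap δf η hδf0 hδf1 hη0 Wj Wj_exp,
    ev_w _ (smin_v (δ / 16) (1 / (4 * C0)) (by positivity) (by positivity)),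
    ev_w _ (vj_small (η / 16) (by positivity)), ev_w _ (vj_small (1 / (16 * C0)) (by positivity)),
    ev_w _ (eventually_ge_atTop (max 8 (4 * ζ0))), Wj_le_Z hZ,
    V_Wj_zero.eventually (gt_mem_nhds (show (0 : ℝ) < 1 / (2 * (C + 1)) by positivity)),
    hvz, hlogt.eventually_ge_atTop (2 / δ), ev_poly_exp (δ * Real.log 2) (by positivity) 23,
    eventually_ge_atTop 16, hpow] with j h1 hlv h2 h3 h4 h4' h5 h6 h7 h8 h9 h10 h11 hp3
  obtain ⟨h8a, h8b⟩ := h8
  intro Ω _ μ _ A hA d hdp hd1 hd2 hZd U hU ζ hζ1 hζ2 hcost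
  have hjr : (16 : ℝ) ≤ j := by exact_mod_cast h11
  have hj0 : (0 : ℝ) < j := by linarith
  have hVZ := V_pos (Z j)
  have hVW := V_pos (Wj j)
  obtain ⟨w, hw⟩ : ∃ w, w = 2 * U / j := ⟨_, rfl⟩
  have k3 := h3 U hU.u2
  have k4 := h4 U hU.u2
  have k4' := h4' U hU.u2
  have k5 := h5 U hU.u2
  obtain ⟨u1, u2, u3⟩ := hU.w_le (by omega) (by linarith)
  rw [← hw] at hζ1 hζ2 k3 k4 k4' k5 u1 u2
  have hw8 : 8 ≤ w := (le_max_left _ _).trans k5
  have hwζ : 4 * ζ0 ≤ w := (le_max_right _ _).trans k5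
  have hζζ0 : ζ0 ≤ ζ := by omega
  have hwU : w ≤ U := by
    rw [hw]
    refine Nat.div_le_of_le_mul ?_
    nlinarith
  have hUpos : 0 < U := by omega
  have hUr : (0 : ℝ) < U := by exact_mod_cast hUpos
  have hU2r : (2 : ℝ) ≤ U := by exact_mod_cast (by omega : 2 ≤ U)
  obtain ⟨r, hr⟩ : ∃ r, r = rm U ζ := ⟨_, rfl⟩
  have hr0 : 0 ≤ r := by rw [hr]; exact rm_nonneg U ζ
  have hrC : r ≤ C := by
    rw [hr]
    exact (rm_le_rp U ζ).trans (hrp ζ hζζ0 U hUpos (by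
      calc ζ ≤ w := hζ2
        _ ≤ U := hwU
        _ ≤ U ^ 2 := Nat.le_self_pow (by norm_num) U))
  have k3' := k3 U ζ u2 hζ1 hζ2
  rw [← hr] at k3' hcost ⊢
  have hUVZ : (U : ℝ) * V (Z j) ≤ 2 * ((U : ℝ) / j) := by
    calc (U : ℝ) * V (Z j) = (U / j) * (j * V (Z j)) := by field_simp
      _ ≤ (U / j) * 2 := by gcongr
      _ = _ := by ring
  have hUVZ2 : (U : ℝ) / j ≤ U * V (Z j) := by
    calc (U : ℝ) / j = (U / j) * 1 := (mul_one _).symm
      _ ≤ (U / j) * (j * V (Z j)) := by gcongr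
      _ = U * V (Z j) := by field_simp
  have hUj : 2 / δ ≤ (U : ℝ) / j := h9.trans hU.u2
  have hUj0 : 0 < (U : ℝ) / j := by positivity
  have hUj1 : 1 ≤ (U : ℝ) / j := by
    refine le_trans ?_ hUj
    rw [le_div_iff₀ hδ]; linarith
  -- the small primes
  obtain ⟨v, hv⟩ : ∃ v, v = vj w := ⟨_, rfl⟩
  rw [← hv] at k3' k4 k4'
  have hv1 : (4 : ℝ) ^ v ≤ Real.exp (η / 4 * ((U : ℝ) / j)) := by
    have e : (4 : ℝ) ^ v = Real.exp (v * Real.log 4) := by
      rw [Real.exp_nat_mul, Real.exp_log (by norm_num)]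
    rw [e]
    refine Real.exp_le_exp.2 ?_
    have hl4 : Real.log 4 ≤ 2 := by
      have : Real.log 4 = 2 * Real.log 2 := by
        rw [show (4 : ℝ) = 2 ^ 2 by norm_num, Real.log_pow]; norm_num
      rw [this]
      have := Real.log_two_lt_d9
      linarith
    calc (v : ℝ) * Real.log 4 ≤ (η / 16 * w) * 2 := by gcongr
      _ ≤ (η / 16 * (2 * ((U : ℝ) / j))) * 2 := by gcongr
      _ = η / 4 * ((U : ℝ) / j) := by ring
  have hv2 : 8 * v ≤ j := by
    have h12 : 8 * (v : ℝ) ≤ j := by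
      calc 8 * (v : ℝ) ≤ 8 * (1 / (16 * C0) * w) := by gcongr
        _ ≤ 8 * (1 / (16 * C0) * (2 * ((U : ℝ) / j))) := by gcongr
        _ ≤ 8 * (1 / (16 * C0) * (2 * (C0 * j))) := by gcongr
        _ = j := by field_simp; norm_num
    exact_mod_cast h12
  have hvW : v ≤ Wj j := by
    have e1 : v ≤ w := by rw [hv]; exact Nat.div_le_self _ _
    refine e1.trans (hwU.trans (hU.u1.trans ?_))
    unfold Wj; exact Nat.pow_le_pow_right (by omega) (by norm_num)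
  have hUW : U ≤ Wj j := by
    refine hU.u1.trans ?_
    unfold Wj; exact Nat.pow_le_pow_right (by omega) (by norm_num)
  -- the family
  obtain ⟨m0, hm0⟩ := exists_smin U v
  obtain ⟨n, hn⟩ : ∃ n, n = ⌈(r + δ / 4) * (U * V (Wj j))⌉₊ := ⟨_, rfl⟩
  have hn1 : (r + δ / 4) * (U * V (Wj j)) ≤ n := by rw [hn]; exact Nat.le_ceil _
  have hn2 : (n : ℝ) ≤ (r + δ / 4) * (U * V (Wj j)) + 1 := by
    rw [hn]; exact (Nat.ceil_lt_add_one (by positivity)).le
  have hVv := V_pos v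
  have hfamn : (1 + δf) * (T1 (fun _ => 0) v m0 U * (V (Wj j) / V v)) ≤ n := by
    rw [hm0]
    refine le_trans ?_ hn1
    have e1 : (smin U v : ℝ) * (V (Wj j) / V v) ≤ (r + δ / 16) * (U * V (Wj j)) := by
      calc (smin U v : ℝ) * (V (Wj j) / V v) ≤
          ((r + δ / 16) * (U * V v)) * (V (Wj j) / V v) := by gcongr
        _ = (r + δ / 16) * (U * V (Wj j)) := by field_simp
    have e2 : (1 + δf) * (r + δ / 16) ≤ r + δ / 4 := by
      have e3 : δf * r ≤ δ / 16 := by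
        calc δf * r ≤ δf * (C + 1) := by gcongr; linarith
          _ ≤ δ / 16 := by linarith
      have e4 : δf * (δ / 16) ≤ 1 * (δ / 16) := by gcongr
      nlinarith
    calc (1 + δf) * ((smin U v : ℝ) * (V (Wj j) / V v)) ≤
        (1 + δf) * ((r + δ / 16) * (U * V (Wj j))) := by gcongr
      _ = ((1 + δf) * (r + δ / 16)) * (U * V (Wj j)) := by ring
      _ ≤ (r + δ / 4) * (U * V (Wj j)) := by gcongr
  have hfam : ∀ a : ℕ → ℕ, FamG (fun b => apW d U b) (Ico ((d + 1) / 2) d) a (Wj j) n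
      (2 ^ j * Real.exp (-(η * ((U : ℝ) / j)))) := fun a =>
    h2 a d U v m0 n hdp hd1 hd2 hU.u2 hvW hv1 hv2 hfamn
  -- numbers
  have hnU : n ≤ U := by
    have e1 : (n : ℝ) ≤ U := by
      refine hn2.trans ?_
      have e2 : (r + δ / 4) * (U * V (Wj j)) ≤ U / 2 := by
        calc (r + δ / 4) * (U * V (Wj j)) ≤ (C + 1) * (U * (1 / (2 * (C + 1)))) := by
              gcongr
              linarith
          _ = U / 2 := by field_simp
      linarith
    exact_mod_cast e1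
  obtain ⟨ρ, hρd⟩ : ∃ ρ, ρ = V (Z j) / V (Wj j) := ⟨_, rfl⟩
  have hρ0 : 0 < ρ := by rw [hρd]; positivity
  have hρ1 : ρ ≤ 1 := by rw [hρd, div_le_one hVW]; exact V_anti h6
  have hρn1 : (r + δ / 4) * (U * V (Z j)) ≤ ρ * n := by
    calc (r + δ / 4) * (U * V (Z j)) = ρ * ((r + δ / 4) * (U * V (Wj j))) := by
          rw [hρd]; field_simp
      _ ≤ ρ * n := by gcongr
  have hρn2 : ρ * n ≤ (r + δ / 4) * (U * V (Z j)) + 1 := by
    calc ρ * n ≤ ρ * ((r + δ / 4) * (U * V (Wj j)) + 1) := by gcongr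
      _ = (r + δ / 4) * (U * V (Z j)) + ρ := by rw [hρd]; field_simp
      _ ≤ _ := by linarith
  have c3 : δ / 4 * ((U : ℝ) / j) ≤ V (Z j) / V (Wj j) * n := by
    rw [← hρd]
    refine le_trans ?_ hρn1
    gcongr
    linarith
  have c4 : V (Z j) / V (Wj j) * n ≤ C0' * ((U : ℝ) / j) := by
    rw [← hρd, hC0']
    have e1 : (r + δ / 4) * (U * V (Z j)) ≤ (C + 1) * (2 * ((U : ℝ) / j)) := by
      gcongr
      linarith
    nlinarith
  have hexp1 : 2 ^ j * Real.exp (-((r + δ / 2) * (U * V (Z j))) - 1) ≤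
      (2 ^ j * Real.exp (-(η * ((U : ℝ) / j)))) * Real.exp (-(ρ * n) - η * ((U : ℝ) / j)) := by
    calc 2 ^ j * Real.exp (-((r + δ / 2) * (U * V (Z j))) - 1) ≤
        2 ^ j * Real.exp (-(η * ((U : ℝ) / j)) + (-(ρ * n) - η * ((U : ℝ) / j))) := by
          have e1 : -((r + δ / 2) * (U * V (Z j))) - 1 ≤
              -(η * ((U : ℝ) / j)) + (-(ρ * n) - η * ((U : ℝ) / j)) := by
            have e2 : η * ((U : ℝ) / j) ≤ δ / 8 * (U * V (Z j)) := by gcongr
            linarith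
          have := Real.exp_le_exp.2 e1
          gcongr
      _ = _ := by rw [Real.exp_add]; ring
  have c5 : (j : ℝ) ^ 22 ≤ (2 ^ j * Real.exp (-(η * ((U : ℝ) / j)))) *
      Real.exp (-(V (Z j) / V (Wj j) * n) - η * ((U : ℝ) / j)) := by
    rw [← hρd]
    refine le_trans ?_ hexp1
    have e1 : Real.exp (δ * (j * Real.log 2) - 1) ≤
        2 ^ j * Real.exp (-((r + δ / 2) * (U * V (Z j))) - 1) := by
      have e2 : (2 : ℝ) ^ j = Real.exp (j * Real.log 2) := by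
        rw [Real.exp_nat_mul, Real.exp_log (by norm_num)]
      rw [e2, ← Real.exp_add]
      refine Real.exp_le_exp.2 ?_
      have e3 : (r + δ / 2) * (U * V (Z j)) ≤ (r + δ) * (U * V (Z j)) := by
        gcongr; linarith
      linarith
    refine le_trans ?_ e1
    have e4 : (j : ℝ) ^ 23 ≤ Real.exp (δ * Real.log 2 * j) := by
      rw [Real.exp_neg, ← div_eq_mul_inv, div_le_one (Real.exp_pos _)] at h10
      exact h10
    have e5 : Real.exp (δ * (j * Real.log 2) - 1) = Real.exp (δ * Real.log 2 * j) / Real.exp 1 := by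
      rw [← Real.exp_sub]; congr 1; ring
    rw [e5, le_div_iff₀ (Real.exp_pos _)]
    refine le_trans ?_ e4
    have e6 : Real.exp 1 ≤ j := by
      have := Real.exp_one_lt_d9
      linarith
    calc (j : ℝ) ^ 22 * Real.exp 1 ≤ (j : ℝ) ^ 22 * j := by gcongr
      _ = (j : ℝ) ^ 23 := by ring
  have hdpos := hdp.pos
  have hbs : ∀ m ∈ Ico ((d + 1) / 2) d, ∀ q ∈ apW d U m, q < 2 ^ (2 * j) := by
    intro m hm q hq
    obtain ⟨s, hs, rfl⟩ := mem_image.1 hq
    rw [mem_range] at hs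
    have hmd := (mem_Ico.1 hm).2
    have e1 : m + d * s < d * U := by
      have : d * (s + 1) ≤ d * U := Nat.mul_le_mul_left _ hs
      rw [mul_add, mul_one] at this
      omega
    calc m + d * s < d * U := e1
      _ ≤ 2 ^ j * 2 ^ j := Nat.mul_le_mul hd2 (hU.u1.trans hp3.le)
      _ = 2 ^ (2 * j) := by rw [← pow_add]; congr 1; ring
  have hfin := h1 μ A hA (fun b => apW d U b) (Ico ((d + 1) / 2) d) (Wj j) (Z1 j) (Z j) le_rfl
    hlv.WZ1 hlv.Z1Z hlv.Z1e hlv.r1 hlv.r2 hlv.r3 hbs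
    (fun m _ => injP_apW hdp hZd hUW)
    (fun m hm m' hm' hne => disj_apW (mem_Ico.1 hm).2 (mem_Ico.1 hm').2 hne) n
    (hnU.trans hU.u1) (fun m _ => by rw [card_apW hdpos]; exact hnU) ((U : ℝ) / j) hU.u2
    (u3.trans (by
      have : C0 ≤ C0' := by rw [hC0']; linarith
      gcongr)) c3 c4 _ c5
  refine (measure_mono ?_).trans hfin
  intro ω hω
  refine ⟨hfam _, fun hcon => hω (hcon.mono ?_)⟩
  rw [← hρd]
  refine le_trans ?_ hexp1
  have e1 : -((r + δ) * (U * V (Z j))) ≤ -((r + δ / 2) * (U * V (Z j))) - 1 := by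
    have e2 : 1 ≤ δ / 2 * (U * V (Z j)) := by
      calc 1 = δ / 2 * (2 / δ) := by field_simp
        _ ≤ δ / 2 * (U * V (Z j)) := by
            have := hUj.trans hUVZ2
            gcongr
    linarith
  have := Real.exp_le_exp.2 e1
  gcongr

end Pool.Agent.H532.WG
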