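import Mathlib
import Pool.Agent.H532.WG.OneC
import Pool.Agent.H532.WG.Num3

/-!
The number of the classes modulo a prime without small elements.
-/

namespace Pool.Agent.H532.WG

open Finset MeasureTheory Function ProbabilityTheory Filter Pool.Agent.H532.RM
open Pool.Agent.H532.LG hiding Fam
open scoped ENNReal Topology

/-- the class `b` modulo `d` contains no element of `R` up to `Y` -/
def Late (z a : ℕ → ℕ) (d : ℕ) (Y : ℝ) (b : ℕ) : Prop :=
  ∀ n : ℕ, (∀ p : ℕ, p.Prime → p ≤ z n → ¬ n ≡ a p [MOD p]) → n ≡ b [MOD d] → Y < n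

open Classical in
/-- the classes modulo `d`, not that of `a d`, without elements of `R` up to `Y` -/
noncomputable def LS (z a : ℕ → ℕ) (d : ℕ) (Y : ℝ) : Finset ℕ :=
  (range d).filter (fun b => ¬ b ≡ a d [MOD d] ∧ Late z a d Y b)

/-- the law of the number of these classes -/
def GoodC (δ : ℝ) (z a : ℕ → ℕ) (d : ℕ) : Prop := ∀ U : ℕ,
  Real.log d * Real.log (Real.log d) ^ 3 ≤ U → U ≤ 1 / δ * Real.log d ^ 2 →
  ((LS z a d (d * U)).card : ℝ) ≤
    d * Real.exp (-((rm U ⌊U / Real.log d⌋₊ - δ) * (U / Real.log d))) ∧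
  ((rm U ⌊U / Real.log d⌋₊ + δ) * U ≤ (1 - δ) * Real.log d ^ 2 →
    d * Real.exp (-((rm U ⌊U / Real.log d⌋₊ + δ) * (U / Real.log d))) ≤
      (LS z a d (d * U)).card)

lemma late_of_TG (z a : ℕ → ℕ) (hz : Monotone z) {d U j b : ℕ} (hj : 2 ≤ j)
    (hd1 : 2 ^ (j - 1) < d) (hb : b ∈ Ico ((d + 1) / 2) d)
    (h : (TG (fun b => apW d U b) a (z (2 ^ (j - 2))) b).card ≤ 0) :
    Late z a d (d * U) b := by
  have hbI := mem_Ico.1 hb
  have e2 : 2 ^ (j - 1) = 2 * 2 ^ (j - 2) := by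
    rw [← pow_succ']; congr 1; omega
  have hb2 : 2 ^ (j - 2) ≤ b := by omega
  have hb1 : 0 < b := lt_of_lt_of_le (by positivity) hb2
  intro n hn hnb
  have h4 : n % d = b := by
    have : n % d = b % d := hnb
    rw [this, Nat.mod_eq_of_lt hbI.2]
  have h5 : n = b + d * (n / d) := by
    conv_lhs => rw [← Nat.mod_add_div n d, h4]
  have h6 : U ≤ n / d := by
    by_contra hcon
    rw [not_le] at hcon
    have h7 := h
    rw [Nat.le_zero, card_eq_zero, Finset.eq_empty_iff_forall_notMem] at h7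
    refine h7 n (mem_filter.2 ⟨mem_image.2 ⟨n / d, mem_range.2 hcon, h5.symm⟩,
      fun p hp h8 => ?_⟩)
    obtain ⟨h9, h10⟩ := mem_primesLe.1 hp
    have hbn : b ≤ n := by rw [h5]; exact Nat.le_add_right _ _
    exact hn p h10 (h9.trans (hz (hb2.trans hbn))) h8
  have h8 : d * U ≤ d * (n / d) := Nat.mul_le_mul_left _ h6
  have h9 : d * U < n := by omega
  exact_mod_cast h9

lemma LS_ge (z a : ℕ → ℕ) (hz : Monotone z) {d U j : ℕ} {D : ℝ} (hj : 2 ≤ j)
    (hd1 : 2 ^ (j - 1) < d)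
    (h : FamG (fun b => apW d U b) (Ico ((d + 1) / 2) d) a (z (2 ^ (j - 2))) 0 D) :
    D - 1 ≤ (LS z a d (d * U)).card := by
  classical
  obtain ⟨M, h1, h2, h3⟩ := h
  have hsub : M.erase (a d % d) ⊆ LS z a d (d * U) := by
    intro b hb
    obtain ⟨hne, hbM⟩ := mem_erase.1 hb
    have hbI := mem_Ico.1 (h1 hbM)
    refine mem_filter.2 ⟨mem_range.2 hbI.2, fun hcon => ?_,
      late_of_TG z a hz hj hd1 (h1 hbM) (h3 b hbM)⟩
    have h4 : b % d = a d % d := hcon
    rw [Nat.mod_eq_of_lt hbI.2] at h4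
    exact hne h4
  have h4 := card_le_card hsub
  have h5 := Finset.pred_card_le_card_erase (s := M) (a := a d % d)
  have h6 : M.card ≤ (LS z a d (d * U)).card + 1 := by omega
  have h7 : (M.card : ℝ) ≤ (LS z a d (d * U)).card + 1 := by exact_mod_cast h6
  linarith

lemma TG_zero_of_late (z a : ℕ → ℕ) (hz : Monotone z) {d U j b : ℕ} (hd2 : d ≤ 2 ^ j)
    (hU : U ≤ j ^ 3) (hb : b < d) (h : Late z a d (d * U) b) :
    (TG (fun b => apW d U b) a (z (2 ^ j * j ^ 3)) b).card = 0 := by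
  by_contra hne
  obtain ⟨q, hq⟩ := card_pos.1 (Nat.pos_of_ne_zero hne)
  obtain ⟨h3, h4⟩ := mem_filter.1 hq
  obtain ⟨s, hs, rfl⟩ := mem_image.1 h3
  rw [mem_range] at hs
  have e1 : b + d * s < d * U := by
    have : d * (s + 1) ≤ d * U := Nat.mul_le_mul_left _ hs
    rw [mul_add, mul_one] at this
    omega
  have e2 : b + d * s ≤ 2 ^ j * j ^ 3 := e1.le.trans (Nat.mul_le_mul hd2 hU)
  have h5 := h (b + d * s) (fun p hp hpz hc => h4 p (mem_primesLe.2 ⟨hpz.trans (hz e2), hp⟩) hc)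
    (by
      show (b + d * s) % d = b % d
      rw [Nat.add_mul_mod_self_left])
  have h6 : ((b + d * s : ℕ) : ℝ) < d * U := by exact_mod_cast e1
  linarith

theorem main_goodC (δ : ℝ) (hδ : 0 < δ) (hδ1 : δ ≤ 1) {Ω : Type} [MeasurableSpace Ω]
    (μ : Measure Ω) [IsProbabilityMeasure μ] (A : ℕ → Ω → ℕ) (hA : RandomClasses μ A)
    (z : ℕ → ℕ) (hzm : Monotone z)
    (hz : Tendsto (fun n : ℕ => V (z n) * Real.log n) atTop (𝓝 1)) :
    ∀ᵐ ω ∂μ, ∀ᶠ j : ℕ in atTop, ∀ t : Finset ℕ, (∀ d ∈ t, d.Prime ∧ 2 ^ (j - 1) < d ∧ d ≤ 2 ^ j ∧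
      ¬ GoodC δ z (fun p => A p ω) d) → (t.card : ℝ) ≤ 2 ^ j / (j : ℝ) ^ 14 := by
  classical
  have hl2a := Real.log_two_gt_d9
  have hl2b := Real.log_two_lt_d9
  have hlog2 : (0 : ℝ) < Real.log 2 := by linarith
  obtain ⟨C, hC, ζ0, hrp⟩ := rp_bdd
  obtain ⟨ε, hε⟩ : ∃ ε : ℝ, ε = min (1 / 16) (δ / (24 * (C + 1))) := ⟨_, rfl⟩
  have hε0 : 0 < ε := by rw [hε]; exact lt_min (by norm_num) (by positivity)
  have hε1 : ε ≤ 1 / 16 := by rw [hε]; exact min_le_left _ _
  have hε2 : 24 * ε * (C + 1) ≤ δ := by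
    have h1 : ε ≤ δ / (24 * (C + 1)) := by rw [hε]; exact min_le_right _ _
    rw [le_div_iff₀ (by positivity)] at h1
    linarith
  have hZ0 := V_low z hz
  have hZ1 := V_up z hz
  have hCδ : 1 ≤ 1 / δ := by rw [le_div_iff₀ hδ]; linarith
  have hv0 : ∀ᶠ j : ℕ in atTop, V (z (2 ^ (j - 2))) * (j * Real.log 2) ≤ 1 + ε := by
    filter_upwards [hZ0.eventually (gt_mem_nhds (show 1 < 1 + ε by linarith))] with j h
    exact h.le
  have hv1 : ∀ᶠ j : ℕ in atTop, 1 - ε ≤ V (z (2 ^ j * j ^ 3)) * (j * Real.log 2) ∧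
      V (z (2 ^ j * j ^ 3)) * (j * Real.log 2) ≤ 1 + ε := by
    filter_upwards [hZ1.eventually (lt_mem_nhds (show 1 - ε < 1 by linarith)),
      hZ1.eventually (gt_mem_nhds (show 1 < 1 + ε by linarith))] with j h h'
    exact ⟨h.le, h'.le⟩
  -- the events
  obtain ⟨cZ, hcZ⟩ : ∃ cZ : ℕ → ℕ → ℕ → Prop, cZ = fun (j d U : ℕ) =>
    UOK (1 / δ) j U ∧ 2 * U / j / 4 ≤ ⌊U / Real.log d⌋₊ ∧ ⌊U / Real.log d⌋₊ ≤ 2 * U / j :=
    ⟨_, rfl⟩
  obtain ⟨cL, hcL⟩ : ∃ cL : ℕ → ℕ → ℕ → Prop, cL = fun (j d U : ℕ) => cZ j d U ∧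
    (rm U ⌊U / Real.log d⌋₊ + δ / 4) * (U * V (z (2 ^ (j - 2)))) ≤
      (1 - δ / 4) * (j * Real.log 2) := ⟨_, rfl⟩
  obtain ⟨EL, hEL⟩ : ∃ EL : ℕ → ℕ → ℕ → Set Ω, EL = fun (j d U : ℕ) =>
    {ω | ¬ FamG (fun b => apW d U b) (Ico ((d + 1) / 2) d) (fun p => A p ω)
      (z (2 ^ (j - 2))) 0 (2 ^ j * Real.exp (-((rm U ⌊U / Real.log d⌋₊ + δ / 4) *
        (U * V (z (2 ^ (j - 2)))))))} := ⟨_, rfl⟩
  obtain ⟨EU, hEU⟩ : ∃ EU : ℕ → ℕ → ℕ → Set Ω, EU = fun (j d U : ℕ) =>
    {ω | 2 ^ j * Real.exp (-((rm U ⌊U / Real.log d⌋₊ - δ / 4) *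
        (U * V (z (2 ^ j * j ^ 3))))) <
      ∑ b ∈ range d, ({ω | T1 (fun p => trA A d b p ω) (z (2 ^ j * j ^ 3)) 0 U = 0}).indicator
        (fun _ => (1 : ℝ)) ω} := ⟨_, rfl⟩
  obtain ⟨E, hE⟩ : ∃ E : ℕ → ℕ → Set Ω, E = fun j d =>
    (⋃ U ∈ (range (j ^ 3 + 1)).filter (cL j d), EL j d U) ∪
    (⋃ U ∈ (range (j ^ 3 + 1)).filter (cZ j d), EU j d U) := ⟨_, rfl⟩
  obtain ⟨s, hs⟩ : ∃ s : ℕ → Finset ℕ, s = fun j =>
    (Ioc (2 ^ (j - 1)) (2 ^ j)).filter (fun d => d.Prime) := ⟨_, rfl⟩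
  have hvz : ∀ᶠ j : ℕ in atTop, 1 ≤ (j : ℝ) * V (z (2 ^ j * j ^ 3)) := by
    filter_upwards [hZ1.eventually (lt_mem_nhds (show (0.9 : ℝ) < 1 by norm_num))] with j h1
    have h3 : 0 ≤ (j : ℝ) * V (z (2 ^ j * j ^ 3)) :=
      mul_nonneg (Nat.cast_nonneg _) (V_pos _).le
    nlinarith
  have hcb := count_bad μ s E (fun j => by
    rw [hs]
    refine (card_filter_le _ _).trans ?_
    rw [Nat.card_Ioc]
    exact Nat.sub_le _ _) (by
    filter_upwards [ap_cnt (δ / 4) (1 / δ) (by positivity) (by linarith) hCδ _ hZ0,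
      up_one (δ / 4) (1 / δ) (by positivity) (by linarith) (by positivity) _ hZ1,
      Z_lt _ hZ0, ev_log_exp (δ / 8) (by positivity) 21, eventually_ge_atTop 16, hvz]
      with j h1 h2 h3 h4 hj16 hvz d hd
    rw [hs] at hd
    obtain ⟨hd1, hdp⟩ := mem_filter.1 hd
    obtain ⟨hd1, hd2⟩ := mem_Ioc.1 hd1
    have hjr : (16 : ℝ) ≤ j := by exact_mod_cast hj16
    have hj0 : (0 : ℝ) < j := by linarith
    rw [hE]
    have hcard : ∀ (P : ℕ → Prop) [DecidablePred P],
        ((((range (j ^ 3 + 1)).filter P).card : ℕ) : ℝ) ≤ 2 * (j : ℝ) ^ 3 := by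
      intro P _
      have e1 : ((range (j ^ 3 + 1)).filter P).card ≤ j ^ 3 + 1 := by
        refine (card_filter_le _ _).trans (le_of_eq (card_range _))
      have e2 : ((((range (j ^ 3 + 1)).filter P).card : ℕ) : ℝ) ≤ (j : ℝ) ^ 3 + 1 := by
        exact_mod_cast e1
      have e3 : (1 : ℝ) ≤ (j : ℝ) ^ 3 := one_le_pow₀ (by linarith)
      linarith
    have g1 : μ (⋃ U ∈ (range (j ^ 3 + 1)).filter (cL j d), EL j d U) ≤
        ENNReal.ofReal (2 * (j : ℝ) ^ 3 * (2 / (j : ℝ) ^ 20)) := by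
      calc μ (⋃ U ∈ (range (j ^ 3 + 1)).filter (cL j d), EL j d U) ≤
          ∑ U ∈ (range (j ^ 3 + 1)).filter (cL j d), μ (EL j d U) :=
            measure_biUnion_finset_le _ _
        _ ≤ ∑ U ∈ (range (j ^ 3 + 1)).filter (cL j d), ENNReal.ofReal (2 / (j : ℝ) ^ 20) := by
            refine sum_le_sum fun U hU => ?_
            have k := (mem_filter.1 hU).2
            rw [hcL] at k
            obtain ⟨k0, k4⟩ := k
            rw [hcZ] at k0
            rw [hEL]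
            exact h1 μ A hA d hdp hd1 hd2 (h3.trans hd1) U k0.1 _ k0.2.1 k0.2.2 k4
        _ = ENNReal.ofReal (((((range (j ^ 3 + 1)).filter (cL j d)).card : ℕ) : ℝ) *
            (2 / (j : ℝ) ^ 20)) := by
            rw [sum_const, nsmul_eq_mul, ENNReal.ofReal_mul (Nat.cast_nonneg _),
              ENNReal.ofReal_natCast]
        _ ≤ _ := by
            refine ENNReal.ofReal_le_ofReal ?_
            have := hcard (cL j d)
            gcongr
    have g2 : μ (⋃ U ∈ (range (j ^ 3 + 1)).filter (cZ j d), EU j d U) ≤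
        ENNReal.ofReal (2 * (j : ℝ) ^ 3 * (2 / (j : ℝ) ^ 21)) := by
      calc μ (⋃ U ∈ (range (j ^ 3 + 1)).filter (cZ j d), EU j d U) ≤
          ∑ U ∈ (range (j ^ 3 + 1)).filter (cZ j d), μ (EU j d U) :=
            measure_biUnion_finset_le _ _
        _ ≤ ∑ U ∈ (range (j ^ 3 + 1)).filter (cZ j d), ENNReal.ofReal (2 / (j : ℝ) ^ 21) := by
            refine sum_le_sum fun U hU => ?_
            have k := (mem_filter.1 hU).2
            rw [hcZ] at k
            rw [hEU]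
            beta_reduce
            obtain ⟨r, hr⟩ : ∃ r, r = rm U ⌊(U : ℝ) / Real.log d⌋₊ := ⟨_, rfl⟩
            rw [← hr]
            obtain ⟨y, hy⟩ : ∃ y, y = (U : ℝ) * V (z (2 ^ j * j ^ 3)) := ⟨_, rfl⟩
            rw [← hy]
            have hy2 : Real.log j ^ 2 ≤ y := by
              have e1 : (U : ℝ) / j ≤ y := by
                rw [hy]
                calc (U : ℝ) / j = (U / j) * 1 := (mul_one _).symm
                  _ ≤ (U / j) * (j * V (z (2 ^ j * j ^ 3))) := by gcongr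
                  _ = U * V (z (2 ^ j * j ^ 3)) := by field_simp
              exact k.1.u2.trans e1
            have hmk := markov_count μ (range d)
              (fun b => {ω | T1 (fun p => trA A d b p ω) (z (2 ^ j * j ^ 3)) 0 U = 0})
              (2 * Real.exp (-((r - δ / 4 / 2) * y)))
              (2 ^ j * Real.exp (-((r - δ / 4) * y)))
              (fun b _ => measurable_T1 (trA_random hA d b) (z (2 ^ j * j ^ 3)) 0 U
                (measurableSet_singleton 0)) (fun b _ => by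
                have := h2 μ (trA A d b) (trA_random hA d b) U k.1 _ k.2.1 k.2.2 0
                rw [← hr, ← hy] at this
                exact this) (by positivity) (by positivity)
            refine hmk.trans (ENNReal.ofReal_le_ofReal ?_)
            rw [card_range, div_le_iff₀ (by positivity)]
            have e3 : Real.exp (-((r - δ / 4 / 2) * y)) =
                Real.exp (-(δ / 8 * y)) * Real.exp (-((r - δ / 4) * y)) := by
              rw [← Real.exp_add]; congr 1; ring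
            have e4 : Real.exp (-(δ / 8 * y)) ≤ 1 / (j : ℝ) ^ 21 := by
              refine le_trans (Real.exp_le_exp.2 ?_) h4
              have : δ / 8 * Real.log j ^ 2 ≤ δ / 8 * y := by gcongr
              linarith
            have hdr : (d : ℝ) ≤ 2 ^ j := by exact_mod_cast hd2
            rw [e3]
            calc (d : ℝ) * (2 * (Real.exp (-(δ / 8 * y)) * Real.exp (-((r - δ / 4) * y)))) ≤
                2 ^ j * (2 * (1 / (j : ℝ) ^ 21 * Real.exp (-((r - δ / 4) * y)))) := by gcongr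
              _ = 2 / (j : ℝ) ^ 21 * (2 ^ j * Real.exp (-((r - δ / 4) * y))) := by ring
        _ = ENNReal.ofReal (((((range (j ^ 3 + 1)).filter (cZ j d)).card : ℕ) : ℝ) *
            (2 / (j : ℝ) ^ 21)) := by
            rw [sum_const, nsmul_eq_mul, ENNReal.ofReal_mul (Nat.cast_nonneg _),
              ENNReal.ofReal_natCast]
        _ ≤ _ := by
            refine ENNReal.ofReal_le_ofReal ?_
            have := hcard (cZ j d)
            gcongr
    refine (measure_union_le _ _).trans ((add_le_add g1 g2).trans ?_)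
    rw [← ENNReal.ofReal_add (by positivity) (by positivity)]
    refine ENNReal.ofReal_le_ofReal ?_
    calc 2 * (j : ℝ) ^ 3 * (2 / (j : ℝ) ^ 20) + 2 * (j : ℝ) ^ 3 * (2 / (j : ℝ) ^ 21) ≤
        2 * (j : ℝ) ^ 3 * (2 / (j : ℝ) ^ 20) + 2 * (j : ℝ) ^ 3 * (2 / (j : ℝ) ^ 20) := by
          have : (j : ℝ) ^ 20 ≤ (j : ℝ) ^ 21 := pow_le_pow_right₀ (by linarith) (by norm_num)
          gcongr
      _ = (8 / j) * (1 / (j : ℝ) ^ 16) := by field_simp; norm_num
      _ ≤ 1 * (1 / (j : ℝ) ^ 16) := by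
          gcongr
          rw [div_le_one hj0]; linarith
      _ = 1 / (j : ℝ) ^ 16 := one_mul _)
  have hJ2 : ∀ᶠ j : ℕ in atTop, 2 ≤ Real.exp (δ / 4 * (j * Real.log 2)) := by
    have hjt : Tendsto (fun j : ℕ => (j : ℝ)) atTop atTop := tendsto_natCast_atTop_atTop
    filter_upwards [hjt.eventually_ge_atTop (8 / δ)] with j hj
    have h1 : 2 * 0.5 ≤ δ / 4 * (j * Real.log 2) := by
      have h2 : 8 ≤ δ * j := by
        rw [div_le_iff₀ hδ] at hj; linarith
      nlinarith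
    have h3 := Real.add_one_le_exp (δ / 4 * (j * Real.log 2))
    linarith
  filter_upwards [hcb, ae_lt hA] with ω hω hlt
  filter_upwards [hω, num_okC δ ε (4 / δ + ζ0 + 1) hδ hδ1 hε0, hv0, hv1, Z_lt _ hZ1, hJ2,
    eventually_ge_atTop 2] with j h1 h2 h3 h4 h5 h6 hj2 t ht
  refine h1 t (fun d hd => ?_) (fun d hd => ?_)
  · obtain ⟨k1, k2, k3, _⟩ := ht d hd
    rw [hs]
    exact mem_filter.2 ⟨mem_Ioc.2 ⟨k2, k3⟩, k1⟩
  · obtain ⟨k1, k2, k3, k4⟩ := ht d hd
    by_contra hcon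
    refine k4 ?_
    rw [hE] at hcon
    simp only [Set.mem_union, not_or] at hcon
    obtain ⟨hn1, hn2⟩ := hcon
    have hj0 : (0 : ℝ) < j := by exact_mod_cast (by omega : 0 < j)
    intro U hU1 hU2
    obtain ⟨m1, m2, m3, m4, m5, m6, m7⟩ := h2 d U k2 k3 hU1 hU2
    have hUr : U ∈ range (j ^ 3 + 1) := mem_range.2 (by have := m1.u1; omega)
    have hr0 := rm_nonneg U ⌊(U : ℝ) / Real.log d⌋₊
    have hζ0' : (0 : ℝ) ≤ ζ0 := Nat.cast_nonneg _
    have h4δ : 0 < 4 / δ := by positivity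
    have hUL : 4 / δ ≤ (U : ℝ) / Real.log d := by linarith
    have hζζ : ζ0 ≤ ⌊(U : ℝ) / Real.log d⌋₊ := Nat.le_floor (by linarith)
    have hUpos : 0 < U := by
      by_contra hneg
      have : U = 0 := by omega
      rw [this, Nat.cast_zero, zero_div] at hUL
      linarith
    have hζU : ⌊(U : ℝ) / Real.log d⌋₊ ≤ U ^ 2 := by
      have e1 : 2 * U / j ≤ U := by
        refine Nat.div_le_of_le_mul ?_
        nlinarith
      exact m3.trans (e1.trans (Nat.le_self_pow (by norm_num) U))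
    have hrC : rm U ⌊(U : ℝ) / Real.log d⌋₊ ≤ C :=
      (rm_le_rp _ _).trans (hrp _ hζζ U hUpos hζU)
    have hdpos : (0 : ℝ) < d := by exact_mod_cast k1.pos
    have hE2 : (2 : ℝ) ^ j = Real.exp (j * Real.log 2) := by
      rw [Real.exp_nat_mul, Real.exp_log (by norm_num)]
    have hd2j : (d : ℝ) ≤ 2 ^ j := by exact_mod_cast k3
    have h2jd : (2 : ℝ) ^ j ≤ 2 * d := by
      have e1 : 2 ^ j ≤ 2 * d := by
        have : 2 ^ j = 2 * 2 ^ (j - 1) := by
          rw [← pow_succ']; congr 1; omega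
        omega
      exact_mod_cast e1
    have hmemZ : cZ j d U := by
      rw [hcZ]
      exact ⟨m1, m2, m3⟩
    constructor
    · refine cnt_up (C := C) hδ hδ1 hε0 hε1 hε2 hC hr0 hrC m7 m5 m4 (Nat.cast_nonneg U)
        (V_pos (z (2 ^ j * j ^ 3))) h4.2 h4.1 hdpos h2jd (by positivity) hUL ?_
      by_contra hneg
      rw [not_le] at hneg
      refine hn2 (Set.mem_biUnion (x := U) (mem_coe.2 (mem_filter.2 ⟨hUr, hmemZ⟩)) ?_)
      rw [hEU]
      refine hneg.trans_le ?_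
      have hsub : LS z (fun p => A p ω) d (d * U) ⊆ (range d).filter (fun b =>
          T1 (fun p => trA A d b p ω) (z (2 ^ j * j ^ 3)) 0 U = 0) := by
        intro b hb
        obtain ⟨g1, g2, g3⟩ := mem_filter.1 hb
        refine mem_filter.2 ⟨g1, ?_⟩
        exact TG_trA A k1 (h5.trans k2) ω hlt
          (TG_zero_of_late z _ hzm k3 m1.u1 (mem_range.1 g1) g3)
      have hle : ((LS z (fun p => A p ω) d (d * U)).card : ℝ) ≤
          (((range d).filter (fun b =>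
          T1 (fun p => trA A d b p ω) (z (2 ^ j * j ^ 3)) 0 U = 0)).card : ℝ) := by
        exact_mod_cast card_le_card hsub
      refine hle.trans (le_of_eq ?_)
      rw [card_filter, Nat.cast_sum]
      refine sum_congr rfl fun b _ => ?_
      rw [Set.indicator_apply]
      simp only [Set.mem_setOf_eq]
      split_ifs <;> simp
    · intro hc
      obtain ⟨hc1, hc2⟩ := cnt_low (N := ((LS z (fun p => A p ω) d (d * U)).card : ℝ)) (C := C)
        hδ hδ1 hε0 hε2 hC hr0 hrC m7 m5 (Nat.cast_nonneg U)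
        (V_pos (z (2 ^ (j - 2)))) h3 hdpos hd2j hE2 hUL h6 hc
      refine hc2 (LS_ge z _ hzm hj2 k2 ?_)
      by_contra hneg
      refine hn1 (Set.mem_biUnion (x := U) (mem_coe.2 (mem_filter.2 ⟨hUr, ?_⟩)) ?_)
      · rw [hcL]
        exact ⟨hmemZ, hc1⟩
      · rw [hEL]
        exact hneg

end Pool.Agent.H532.WG
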