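import Mathlib
import Pool.Agent.H532.WG.Final
import Pool.Agent.H532.WG.Main3

/-!
The number of the classes modulo a prime without small elements: the final form.
-/

namespace Pool.Agent.H532.WG

open Finset MeasureTheory Function ProbabilityTheory Filter Pool.Agent.H532.RM
open Pool.Agent.H532.LG hiding Fam
open scoped ENNReal Topology

theorem final_C (δ : ℝ) (hδ : 0 < δ) (hδ1 : δ ≤ 1) {Ω : Type} [MeasurableSpace Ω]
    (μ : Measure Ω) [IsProbabilityMeasure μ] (A : ℕ → Ω → ℕ) (hA : RandomClasses μ A)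
    (z : ℕ → ℕ) (hzm : Monotone z)
    (hz : Tendsto (fun n : ℕ => V (z n) * Real.log n) atTop (𝓝 1)) :
    ∀ᵐ ω ∂μ, ∀ᶠ x : ℕ in atTop, ∀ t : Finset ℕ, (∀ d ∈ t, d.Prime ∧ x < d ∧ d ≤ 2 * x ∧
      ¬ GoodC δ z (fun p => A p ω) d) → (t.card : ℝ) ≤ x / Real.log x ^ 12 := by
  filter_upwards [main_goodC δ hδ hδ1 μ A hA z hzm hz] with ω hω
  exact blocks (fun d => ¬ GoodC δ z (fun p => A p ω) d) hω

end Pool.Agent.H532.WG
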