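import Mathlib
import Pool.Agent.H532.LG.Count
import Pool.Agent.H532.WG.Up
import Pool.Graph.R_seed8.Y829.BT2

/-!
The probability that a window longer than `j ^ (2 + ε)` is empty.
-/

namespace Pool.Agent.H532.WG

open Finset MeasureTheory Function ProbabilityTheory Filter Pool.Agent.H532.RM
open Pool.Agent.H532.LG hiding Fam
open scoped ENNReal Topology

/-- conditional probability of an empty window, given the primes up to `w` -/
theorem empty_lm2 : ∃ C : ℝ, 0 < C ∧ ∀ (ν' : ℕ → Measure ℕ) [∀ p, IsProbabilityMeasure (ν' p)]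
    (w W Z m U : ℕ) (S : Finset ℕ), 4 ≤ w → w ≤ W → W ≤ Z → (∀ p ∈ bigP w Z, UnifOn (ν' p) p) →
    InWin m U S → U ≤ W → 4 * (U : ℝ) ^ 2 ≤ W → ∀ lam κ' : ℝ, 0 ≤ lam → lam ≤ V Z / V W →
    lam * (1 + C * (U * V W * (Real.log w / w))) ≤ κ' → κ' ≤ 1 → ∀ x : ℕ → ℕ,
    lmarginal ν' (bigP w Z) (fun a => if (surv (OmD {0}) (bigP w Z) a S).card = 0 then 1 else 0)
      x ≤ ENNReal.ofReal (2 * Real.exp (-(lam * (V W / V w) * Real.exp (-(4 * κ')) * S.card))) := by
  classical
  obtain ⟨C, hC, hKb⟩ := Kb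
  refine ⟨C, hC, ?_⟩
  intro ν' _ w W Z m U S hw hwW hWZ hν hS hUW hU4 lam κ' hlam0 hlam hκ hκ1 x
  obtain ⟨hK1, hK2⟩ := hKb w W U hw
  set P1 := bigP w W with hP1
  set P2 := bigP W Z with hP2
  have hK1' : KK 1 (fun p => (U : ℝ) / p + 1) P1 ≤ 1 + C * (U * V W * (Real.log w / w)) := hK1
  have hK2' : ∀ p ∈ P1, uu 1 P1 p * ((U : ℝ) / p + 1) ≤
    1 + C * (U * V W * (Real.log w / w)) := hK2
  clear hK1 hK2
  have hVW := V_pos W
  have hVZ := V_pos Z
  have hVw := V_pos w
  have hρ2 : rho 1 P2 = V Z / V W := rho_bigP hWZ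
  have hρ1 : rho 1 P1 = V W / V w := rho_bigP hwW
  have hdis : Disjoint P1 P2 := bigP_disj
  rw [bigP_union hwW hWZ, lmarginal_union ν' _ (by
    refine Measurable.ite ?_ measurable_const measurable_const
    have h1 := measurable_surv (OmD {0}) (P1 ∪ P2) S
    have : {a : ℕ → ℕ | (surv (OmD {0}) (P1 ∪ P2) a S).card = 0} =
        (fun a : ℕ → ℕ => ((surv (OmD {0}) (P1 ∪ P2) a S).card : ℝ)) ⁻¹' {0} := by
      ext a; simp
    rw [this]
    exact h1 (measurableSet_singleton _)) hdis]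
  -- inner
  have hin : ∀ x : ℕ → ℕ, lmarginal ν' P2 (fun a =>
      if (surv (OmD {0}) (P1 ∪ P2) a S).card = 0 then 1 else 0) x ≤
      ENNReal.ofReal (2 * Real.exp (-(lam * (surv (OmD {0}) P1 x S).card))) := by
    intro x
    have hSS : surv (OmD {0}) P1 x S ⊆ S := filter_subset _ _
    have h1 := lm_zero ν' (W := W) (m := m) (U := U) (P := P2) (S := surv (OmD {0}) P1 x S)
      (fun p hp => hν p (by rw [bigP_union hwW hWZ]; exact mem_union_right _ hp))
      (fun n hn => hS n (hSS hn)) (fun p hp => (mem_bigP.1 hp).2) hUW (by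
        refine le_trans ?_ hU4
        have h2 : (surv (OmD {0}) P1 x S).card ≤ U := by
          have h3 : surv (OmD {0}) P1 x S ⊆ Ioc m (m + U) := fun n hn =>
            mem_Ioc.2 (hS n (hSS hn))
          have := card_le_card h3
          rw [Nat.card_Ioc] at this
          omega
        have h3 : ((surv (OmD {0}) P1 x S).card : ℝ) ≤ U := by exact_mod_cast h2
        gcongr) x
    rw [hρ2] at h1
    have h0 : ENNReal.ofReal (2 * Real.exp (-(V Z / V W * (surv (OmD {0}) P1 x S).card))) ≤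
        ENNReal.ofReal (2 * Real.exp (-(lam * (surv (OmD {0}) P1 x S).card))) := by
      refine ENNReal.ofReal_le_ofReal ?_
      have h5 : lam * ((surv (OmD {0}) P1 x S).card : ℝ) ≤
          V Z / V W * (surv (OmD {0}) P1 x S).card :=
        mul_le_mul_of_nonneg_right hlam (Nat.cast_nonneg _)
      have := Real.exp_le_exp.2 (neg_le_neg h5)
      linarith
    refine le_trans (le_of_eq ?_) (h1.trans h0)
    unfold lmarginal
    refine lintegral_congr fun y => ?_
    beta_reduce
    rw [surv_union]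
    have : surv (OmD {0}) P1 (updateFinset x P2 y) S = surv (OmD {0}) P1 x S :=
      surv_congr P1 (fun p hp => by
        rw [updateFinset_def]
        have : p ∉ P2 := fun h => (Finset.disjoint_left.1 hdis hp) h
        simp [this]) S
    rw [this]
  have h1 : lmarginal ν' P1 (lmarginal ν' P2 (fun a =>
      if (surv (OmD {0}) (P1 ∪ P2) a S).card = 0 then 1 else 0)) x ≤
      lmarginal ν' P1 (fun a => ENNReal.ofReal 2 *
        ENNReal.ofReal (Real.exp (-(lam * (surv (OmD {0}) P1 a S).card)))) x := by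
    refine lmarginal_mono (fun a => ?_) x
    rw [← ENNReal.ofReal_mul (by norm_num)]
    exact hin a
  refine h1.trans ?_
  have h2 : lmarginal ν' P1 (fun a => ENNReal.ofReal 2 *
      ENNReal.ofReal (Real.exp (-(lam * (surv (OmD {0}) P1 a S).card)))) x =
      ENNReal.ofReal 2 * lmarginal ν' P1 (fun a =>
        ENNReal.ofReal (Real.exp (-(lam * (surv (OmD {0}) P1 a S).card)))) x := by
    unfold lmarginal
    rw [lintegral_const_mul _ (measurable_of_countable _)]
  rw [h2]
  have hBpos : ∀ p ∈ P1, p.Prime ∧ w < p := fun p hp => ⟨(mem_bigP.1 hp).1.2, (mem_bigP.1 hp).2⟩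
  have hK0 : 0 ≤ KK 1 (fun p => (U : ℝ) / p + 1) P1 := KK_nonneg _ _ _
    (fun p hp => ⟨(hBpos p hp).1.pos, by have := (hBpos p hp).2; omega⟩) (fun p _ => by positivity)
  have h3 := mgf_lower ν' (OmD {0}) 1 (fun p => (U : ℝ) / p + 1) lam hlam0 P1
    (fun p hp => hν p (by rw [bigP_union hwW hWZ]; exact mem_union_left _ hp))
    (fun p hp => by
      have h4 := hK2' p hp
      calc lam * uu 1 P1 p * ((U : ℝ) / p + 1) = lam * (uu 1 P1 p * ((U : ℝ) / p + 1)) := by ring
        _ ≤ lam * (1 + C * (U * V W * (Real.log w / w))) := by gcongr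
        _ ≤ κ' := hκ
        _ ≤ 1 := hκ1) S
    { big := fun p hp => ⟨(hBpos p hp).1.pos, by have := (hBpos p hp).2; omega⟩
      om := fun n _ p hp => om0_ok n p (hBpos p hp).1.pos
      Bpos := fun p _ => by positivity
      cls := fun p hp r _ => by
        have h5 := card_class_le m U 0 p r (hBpos p hp).1.pos
        refine le_trans ?_ h5
        have h6 : S.filter (fun n => r ∈ OmD {0} n p) ⊆
            (Ioc m (m + U)).filter (fun n => (n + 0) % p = r) := by
          intro n hn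
          obtain ⟨h7, h8⟩ := mem_filter.1 hn
          refine mem_filter.2 ⟨mem_Ioc.2 (hS n h7), ?_⟩
          rw [mem_Om0] at h8
          rw [add_zero]; exact h8.symm
        exact_mod_cast card_le_card h6 } x
  calc ENNReal.ofReal 2 * lmarginal ν' P1 (fun a =>
        ENNReal.ofReal (Real.exp (-(lam * (surv (OmD {0}) P1 a S).card)))) x ≤
      ENNReal.ofReal 2 * ENNReal.ofReal (Real.exp (-(lam * rho 1 P1 *
        Real.exp (-(4 * lam * KK 1 (fun p => (U : ℝ) / p + 1) P1)) * S.card))) :=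
          mul_le_mul_right h3 _
    _ = ENNReal.ofReal (2 * Real.exp (-(lam * rho 1 P1 *
        Real.exp (-(4 * lam * KK 1 (fun p => (U : ℝ) / p + 1) P1)) * S.card))) := by
        rw [ENNReal.ofReal_mul (by norm_num)]
    _ ≤ ENNReal.ofReal (2 * Real.exp (-(lam * (V W / V w) * Real.exp (-(4 * κ')) * S.card))) := by
        refine ENNReal.ofReal_le_ofReal ?_
        rw [hρ1]
        have h4 : 4 * lam * KK 1 (fun p => (U : ℝ) / p + 1) P1 ≤ 4 * κ' := by
          calc 4 * lam * KK 1 (fun p => (U : ℝ) / p + 1) P1 ≤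
              4 * lam * (1 + C * (U * V W * (Real.log w / w))) := by gcongr
            _ = 4 * (lam * (1 + C * (U * V W * (Real.log w / w)))) := by ring
            _ ≤ 4 * κ' := by gcongr
        have h5 : 0 < V W / V w := by positivity
        have h6 : 0 ≤ lam * (V W / V w) := by positivity
        gcongr

theorem empty_prob2 : ∃ C : ℝ, 0 < C ∧ ∀ {Ω : Type} [MeasurableSpace Ω] (μ : Measure Ω)
    [IsProbabilityMeasure μ] (A : ℕ → Ω → ℕ), RandomClasses μ A → ∀ (w W Z m U : ℕ), 4 ≤ w →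
    w ≤ W → W ≤ Z → U ≤ W → 4 * (U : ℝ) ^ 2 ≤ W → ∀ lam κ' x : ℝ, 0 ≤ lam → lam ≤ V Z / V W →
    lam * (1 + C * (U * V W * (Real.log w / w))) ≤ κ' → κ' ≤ 1 →
    (∀ c : ℕ → ℕ, x ≤ lam * (V W / V w) * Real.exp (-(4 * κ')) * T1 c w m U) →
    μ {ω | T1 (fun p => A p ω) Z m U = 0} ≤ ENNReal.ofReal (2 * Real.exp (-x)) := by
  classical
  obtain ⟨C, hC, hlm⟩ := empty_lm2
  refine ⟨C, hC, ?_⟩
  intro Ω _ μ _ A hA w W Z m U hw hwW hWZ hUW hU4 lam κ' x0 hlam0 hlam hκ hκ1 hx
  have := fun p => law_prob hA p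
  have hwZ : w ≤ Z := hwW.trans hWZ
  set P := bigP w Z with hP
  set f : (ℕ → ℕ) → ℝ≥0∞ := fun a =>
    if (surv (OmD {0}) P a (TT {0} a (primesLe w) m U)).card = 0 then 1 else 0 with hf
  have hdepS := dep_surv w Z m U hwZ
  have hdep : DepOn (primesLe Z) f := by
    intro a a' haa
    rw [hf]
    simp only
    rw [show surv (OmD {0}) P a (TT {0} a (primesLe w) m U) =
      surv (OmD {0}) P a' (TT {0} a' (primesLe w) m U) from hdepS a a' haa]
  have hle := lintegral_le_of_lmarginal hA (primesLe Z) P (fun p hp => (mem_primesLe.1 hp).2)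
    (filter_subset _ _) f hdep (ENNReal.ofReal (2 * Real.exp (-x0))) (fun x => by
      have e1 : lmarginal (law μ A) P f x = lmarginal (law μ A) P (fun a =>
          if (surv (OmD {0}) P a (TT {0} x (primesLe w) m U)).card = 0 then 1 else 0) x := by
        unfold lmarginal
        refine lintegral_congr fun y => ?_
        rw [hf]
        simp only
        rw [TT_update x w Z m U y]
      rw [e1]
      refine (hlm (law μ A) w W Z m U (TT {0} x (primesLe w) m U) hw hwW hWZ
        (fun p hp => law_unif hA (mem_bigP.1 hp).1.2) (inWin_TT x (primesLe w) m U) hUW hU4 lam κ'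
        hlam0 hlam hκ hκ1 x).trans ?_
      refine ENNReal.ofReal_le_ofReal ?_
      have h1 := hx x
      have h2 : Real.exp (-(lam * (V W / V w) * Real.exp (-(4 * κ')) *
          ((TT {0} x (primesLe w) m U).card : ℝ))) ≤ Real.exp (-x0) := by
        refine Real.exp_le_exp.2 ?_
        unfold T1 at h1
        linarith
      linarith)
  refine le_trans ?_ hle
  have hms : MeasurableSet {ω | (surv (OmD {0}) P (fun p => A p ω)
      (TT {0} (fun p => A p ω) (primesLe w) m U)).card = 0} := by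
    have hA' : Measurable (fun ω (p : ℕ) => A p ω) := measurable_pi_lambda _ hA.meas
    have h1 : Measurable (fun a : ℕ → ℕ =>
        (surv (OmD {0}) P a (TT {0} a (primesLe w) m U)).card) := by
      refine DepOn.measurable (s := primesLe Z) ?_
      intro a a' haa
      beta_reduce
      rw [show surv (OmD {0}) P a (TT {0} a (primesLe w) m U) =
        surv (OmD {0}) P a' (TT {0} a' (primesLe w) m U) from hdepS a a' haa]
    exact (h1.comp hA') (measurableSet_singleton 0)
  have hrw : ∫⁻ ω, f (fun p => A p ω) ∂μ =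
      μ {ω | (surv (OmD {0}) P (fun p => A p ω)
      (TT {0} (fun p => A p ω) (primesLe w) m U)).card = 0} := by
    rw [← lintegral_indicator_one hms]
    refine lintegral_congr fun ω => ?_
    rw [Set.indicator_apply]
    rfl
  rw [hrw]
  refine measure_mono_ae ?_
  filter_upwards [ae_lt hA] with ω hω h1
  show (surv _ _ _ _).card = 0
  rw [surv_TT hwZ m U _ hω]
  exact h1

/-- the linear sieve in intervals -/
lemma T1_lin (δ : ℝ) (h0 : 0 < δ) (h1 : δ ≤ 1 / 10) : ∃ (c : ℝ) (U0 : ℕ), 0 < c ∧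
    ∀ (a : ℕ → ℕ) (U m w : ℕ), U0 ≤ U → (w : ℝ) ≤ (U : ℝ) ^ ((1 / 2 : ℝ) - δ) →
    c * (U * V w) ≤ T1 a w m U := by
  obtain ⟨c, U0, hc, h⟩ := Pool.Agent.Y829.lemA δ h0 h1
  refine ⟨c, U0, hc, fun a U m w hU hw => ?_⟩
  obtain ⟨m0, hm0⟩ := exists_smin U w
  have h2 : (smin U w : ℝ) ≤ T1 a w m U := by exact_mod_cast smin_le_T1 a w m U
  refine le_trans ?_ h2
  rw [← hm0]
  have h3 := h U m0 (primesLe w) hU (fun p hp => by
    obtain ⟨h4, h5⟩ := mem_primesLe.1 hp
    exact ⟨h5, le_trans (by exact_mod_cast h4) hw⟩)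
  rw [← Pool.Agent.Y829.Sf_eq] at h3
  have e1 : Pool.Agent.Y829.V (primesLe w) = V w := rfl
  rw [e1] at h3
  refine h3.trans ?_
  have h4 : ((Ioc m0 (m0 + U)).filter (fun m => ∀ p ∈ primesLe w, ¬ p ∣ m)).card ≤
      T1 (fun _ => 0) w m0 U := by
    unfold T1
    refine card_le_card fun n hn => ?_
    obtain ⟨h5, h6⟩ := mem_filter.1 hn
    refine mem_T1.2 ⟨mem_Ioc.1 h5, fun p hp h7 => ?_⟩
    rw [Nat.zero_mod] at h7
    exact h6 p hp (Nat.dvd_of_mod_eq_zero h7)
  exact_mod_cast h4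

end Pool.Agent.H532.WG
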