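import Mathlib
import Pool.Agent.H532.WG.Poly
import Pool.Agent.H532.WG.Main

/-!
All classes modulo all moduli contain elements of `R` up to `m (log m) ^ (2 + ε)`.
-/

namespace Pool.Agent.H532.WG

open Finset MeasureTheory Function ProbabilityTheory Filter Pool.Agent.H532.RM
open Pool.Agent.H532.LG hiding Fam
open scoped ENNReal Topology

lemma nums (ε : ℝ) (hε : 0 < ε) (hε1 : ε ≤ 1) (K : ℝ) : ∀ᶠ j : ℕ in atTop, ∀ U w : ℕ,
    U = ⌊(j : ℝ) ^ (2 + ε)⌋₊ → w = ⌊(j : ℝ) ^ (1 + ε / 4)⌋₊ →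
    4 ≤ w ∧ w ≤ j ^ 2 ∧ U ≤ j ^ 3 ∧ K * (j : ℝ) ^ 2 ≤ U ∧ K * (j * Real.log w) ≤ w ∧
    (w : ℝ) ≤ (U : ℝ) ^ ((1 / 2 : ℝ) - ε / (8 * (2 + ε))) := by
  have hjt : Tendsto (fun j : ℕ => (j : ℝ)) atTop atTop := tendsto_natCast_atTop_atTop
  have t1 : ∀ r : ℝ, 0 < r → Tendsto (fun j : ℕ => (j : ℝ) ^ r) atTop atTop := fun r hr =>
    (tendsto_rpow_atTop hr).comp hjt
  have hlog : ∀ᶠ j : ℕ in atTop, (4 * (|K| + 1)) * Real.log j ≤ (j : ℝ) ^ (ε / 4) := by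
    have h1 := (isLittleO_log_rpow_atTop (show 0 < ε / 4 by positivity)).bound
      (show (0 : ℝ) < 1 / (4 * (|K| + 1)) by positivity)
    filter_upwards [hjt.eventually h1, eventually_ge_atTop 2] with j h2 h3
    have hj : (2 : ℝ) ≤ j := by exact_mod_cast h3
    have hl : 0 ≤ Real.log j := Real.log_nonneg (by linarith)
    rw [Real.norm_of_nonneg hl, Real.norm_of_nonneg (by positivity)] at h2
    rw [one_div, inv_mul_eq_div, le_div_iff₀ (by positivity)] at h2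
    linarith
  filter_upwards [hlog, (t1 ε hε).eventually_ge_atTop (|K| + 1 + 1),
    (t1 (ε / 8) (by positivity)).eventually_ge_atTop 2, eventually_ge_atTop 8] with j h1 h2 h3 h4
  intro U w hU hw
  have hj8 : (8 : ℝ) ≤ j := by exact_mod_cast h4
  have hj0 : (0 : ℝ) < j := by linarith
  have hj1 : (1 : ℝ) ≤ j := by linarith
  have hK := abs_nonneg K
  have hK2 := le_abs_self K
  have eU : (j : ℝ) ^ (2 + ε) = (j : ℝ) ^ 2 * (j : ℝ) ^ ε := by
    rw [Real.rpow_add hj0, Real.rpow_two]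
  have ew : (j : ℝ) ^ (1 + ε / 4) = (j : ℝ) * (j : ℝ) ^ (ε / 4) := by
    rw [Real.rpow_add hj0, Real.rpow_one]
  have hj4 : (1 : ℝ) ≤ (j : ℝ) ^ (ε / 4) := Real.one_le_rpow hj1 (by positivity)
  have hjε : (1 : ℝ) ≤ (j : ℝ) ^ ε := Real.one_le_rpow hj1 (by positivity)
  have hU1 : (U : ℝ) ≤ (j : ℝ) ^ (2 + ε) := by rw [hU]; exact Nat.floor_le (by positivity)
  have hU2 : (j : ℝ) ^ (2 + ε) < U + 1 := by rw [hU]; exact Nat.lt_floor_add_one _
  have hw1 : (w : ℝ) ≤ (j : ℝ) ^ (1 + ε / 4) := by rw [hw]; exact Nat.floor_le (by positivity)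
  have hw2 : (j : ℝ) ^ (1 + ε / 4) < w + 1 := by rw [hw]; exact Nat.lt_floor_add_one _
  have hj4' : (j : ℝ) * 1 ≤ (j : ℝ) * (j : ℝ) ^ (ε / 4) := by gcongr
  have hw7 : (7 : ℝ) < w := by linarith
  have hw8 : 7 < w := by exact_mod_cast hw7
  have hwj : (w : ℝ) ≤ (j : ℝ) ^ 2 := by
    refine hw1.trans ?_
    rw [← Real.rpow_two]
    exact Real.rpow_le_rpow_of_exponent_le hj1 (by linarith)
  have hj2 : 64 ≤ (j : ℝ) ^ 2 := by nlinarith
  refine ⟨by omega, by exact_mod_cast hwj, ?_, ?_, ?_, ?_⟩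
  · have : (U : ℝ) ≤ (j : ℝ) ^ 3 := by
      refine hU1.trans ?_
      have e : (j : ℝ) ^ 3 = (j : ℝ) ^ (3 : ℝ) := by norm_cast
      rw [e]
      exact Real.rpow_le_rpow_of_exponent_le hj1 (by linarith)
    exact_mod_cast this
  · have e1 : (j : ℝ) ^ 2 * (|K| + 1 + 1) ≤ (j : ℝ) ^ 2 * (j : ℝ) ^ ε := by gcongr
    have e2 : K * (j : ℝ) ^ 2 ≤ |K| * (j : ℝ) ^ 2 := by gcongr
    nlinarith
  · have hlw : Real.log w ≤ 2 * Real.log j := by
      have e1 : Real.log w ≤ Real.log ((j : ℝ) ^ 2) := Real.log_le_log (by linarith) hwj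
      rw [Real.log_pow] at e1
      exact_mod_cast e1
    have hlw0 : 0 ≤ Real.log w := Real.log_nonneg (by linarith)
    have hlj : 0 ≤ Real.log j := Real.log_nonneg hj1
    have e2 : K * (j * Real.log w) ≤ (|K| + 1) * (j * (2 * Real.log j)) := by
      calc K * (j * Real.log w) ≤ (|K| + 1) * (j * Real.log w) := by gcongr; linarith
        _ ≤ (|K| + 1) * (j * (2 * Real.log j)) := by gcongr
    have e3 : (j : ℝ) * ((4 * (|K| + 1)) * Real.log j) ≤ (j : ℝ) * (j : ℝ) ^ (ε / 4) := by gcongr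
    have e4 : 2 * ((|K| + 1) * (j * (2 * Real.log j))) ≤ w + 1 := by
      calc 2 * ((|K| + 1) * (j * (2 * Real.log j))) =
          (j : ℝ) * ((4 * (|K| + 1)) * Real.log j) := by ring
        _ ≤ (j : ℝ) * (j : ℝ) ^ (ε / 4) := e3
        _ = (j : ℝ) ^ (1 + ε / 4) := ew.symm
        _ ≤ w + 1 := hw2.le
    linarith
  · obtain ⟨s, hs⟩ : ∃ s : ℝ, s = (1 / 2 : ℝ) - ε / (8 * (2 + ε)) := ⟨_, rfl⟩
    have hs1 : (2 + ε) * s = 1 + 3 * ε / 8 := by
      rw [hs]; field_simp; ring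
    have hs0 : 0 < s := by
      have : 0 < (2 + ε) * s := by rw [hs1]; positivity
      exact (pos_iff_pos_of_mul_pos this).1 (by positivity)
    have hs2 : s ≤ 1 := by
      rw [hs]
      have : 0 < ε / (8 * (2 + ε)) := by positivity
      linarith
    rw [← hs]
    have hU3 : (j : ℝ) ^ (2 + ε) / 2 ≤ U := by
      have : (2 : ℝ) ≤ (j : ℝ) ^ (2 + ε) := by rw [eU]; nlinarith
      linarith
    have e1 : ((j : ℝ) ^ (2 + ε) / 2) ^ s ≤ (U : ℝ) ^ s :=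
      Real.rpow_le_rpow (by positivity) hU3 hs0.le
    refine hw1.trans (le_trans ?_ e1)
    rw [Real.div_rpow (by positivity) (by norm_num), ← Real.rpow_mul hj0.le, hs1]
    have e2 : (2 : ℝ) ^ s ≤ 2 := by
      calc (2 : ℝ) ^ s ≤ (2 : ℝ) ^ (1 : ℝ) := Real.rpow_le_rpow_of_exponent_le (by norm_num) hs2
        _ = 2 := Real.rpow_one 2
    rw [le_div_iff₀ (by positivity)]
    have e3 : (j : ℝ) ^ (1 + 3 * ε / 8) = (j : ℝ) ^ (1 + ε / 4) * (j : ℝ) ^ (ε / 8) := by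
      rw [← Real.rpow_add hj0]; congr 1; ring
    rw [e3]
    gcongr
    exact e2.trans h3

theorem long_one (ε : ℝ) (hε : 0 < ε) (hε1 : ε ≤ 1) (Z : ℕ → ℕ)
    (hZ : Tendsto (fun j : ℕ => V (Z j) * (j * Real.log 2)) atTop (𝓝 1)) :
    ∀ᶠ j : ℕ in atTop, ∀ {Ω : Type} [MeasurableSpace Ω] (μ : Measure Ω) [IsProbabilityMeasure μ]
      (A : ℕ → Ω → ℕ) (_ : RandomClasses μ A) (m : ℕ),
      μ {ω | T1 (fun p => A p ω) (Z j) m ⌊(j : ℝ) ^ (2 + ε)⌋₊ = 0} ≤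
          ENNReal.ofReal (2 * Real.exp (-(3 * j))) := by
  obtain ⟨C, hC, hprob⟩ := empty_prob2
  obtain ⟨c, U0, hc, hlin⟩ := T1_lin (ε / (8 * (2 + ε))) (by positivity) (by
    rw [div_le_iff₀ (by positivity)]; linarith)
  have hl2a := Real.log_two_gt_d9
  have hl2b := Real.log_two_lt_d9
  have hvz : ∀ᶠ j : ℕ in atTop, 1 ≤ (j : ℝ) * V (Z j) := by
    filter_upwards [hZ.eventually (lt_mem_nhds (show (0.9 : ℝ) < 1 by norm_num))] with j h1
    have h3 : 0 ≤ (j : ℝ) * V (Z j) := mul_nonneg (Nat.cast_nonneg _) (V_pos _).le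
    nlinarith
  obtain ⟨e4, he4⟩ : ∃ e4 : ℝ, e4 = Real.exp (-(4 * 1)) := ⟨_, rfl⟩
  have he40 : 0 < e4 := by rw [he4]; exact Real.exp_pos _
  obtain ⟨K, hK⟩ : ∃ K : ℝ, K = (6 * C + 6) / (c * e4) + U0 := ⟨_, rfl⟩
  have hce : 0 < c * e4 := by positivity
  have hU00 : (0 : ℝ) ≤ U0 := Nat.cast_nonneg _
  have hKce : 6 * C + 6 ≤ K * (c * e4) := by
    have h1 : (6 * C + 6) / (c * e4) ≤ K := by rw [hK]; linarith
    rwa [div_le_iff₀ hce] at h1
  have hKU : (U0 : ℝ) ≤ K := by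
    rw [hK]
    have : 0 ≤ (6 * C + 6) / (c * e4) := by positivity
    linarith
  filter_upwards [nums ε hε hε1 K, Wj_le_Z hZ, hvz, eventually_ge_atTop 8] with j h1 h2 h3 h4
  intro Ω _ μ _ A hA m
  obtain ⟨U, hU⟩ : ∃ U, U = ⌊(j : ℝ) ^ (2 + ε)⌋₊ := ⟨_, rfl⟩
  obtain ⟨w, hw⟩ : ∃ w, w = ⌊(j : ℝ) ^ (1 + ε / 4)⌋₊ := ⟨_, rfl⟩
  obtain ⟨n1, n2, n3, n4, n5, n6⟩ := h1 U w hU hw
  rw [← hU]
  have hjr : (8 : ℝ) ≤ j := by exact_mod_cast h4
  have hj0 : (0 : ℝ) < j := by linarith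
  have hVZ := V_pos (Z j)
  have hVW := V_pos (Wj j)
  have hVw := V_pos w
  have hWr : ((Wj j : ℕ) : ℝ) = (j : ℝ) ^ 40 := by unfold Wj; push_cast; rfl
  have hwW : w ≤ Wj j := by
    refine n2.trans ?_
    unfold Wj; exact Nat.pow_le_pow_right (by omega) (by norm_num)
  have hUW : U ≤ Wj j := by
    refine n3.trans ?_
    unfold Wj; exact Nat.pow_le_pow_right (by omega) (by norm_num)
  have hU3 : (U : ℝ) ≤ (j : ℝ) ^ 3 := by exact_mod_cast n3
  have hU4 : 4 * (U : ℝ) ^ 2 ≤ (Wj j : ℕ) := by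
    rw [hWr]
    calc 4 * (U : ℝ) ^ 2 ≤ j * ((j : ℝ) ^ 3) ^ 2 := by gcongr; linarith
      _ = (j : ℝ) ^ 7 := by ring
      _ ≤ (j : ℝ) ^ 40 := pow_le_pow_right₀ (by linarith) (by norm_num)
  have hwr : (4 : ℝ) ≤ w := by exact_mod_cast n1
  have hlw : 0 ≤ Real.log w := Real.log_nonneg (by linarith)
  have hKp : 0 ≤ K := hU00.trans hKU
  have hUU0 : U0 ≤ U := by
    have : (U0 : ℝ) ≤ U := by
      refine le_trans ?_ n4
      have : (1 : ℝ) ≤ (j : ℝ) ^ 2 := by nlinarith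
      nlinarith
    exact_mod_cast this
  obtain ⟨y, hy⟩ : ∃ y, y = (U : ℝ) * V (Wj j) := ⟨_, rfl⟩
  obtain ⟨b, hb⟩ : ∃ b, b = 1 + C * (y * (Real.log w / w)) := ⟨_, rfl⟩
  have hy0 : 0 ≤ y := by rw [hy]; positivity
  have hb1 : 1 ≤ b := by
    rw [hb]
    have : 0 ≤ C * (y * (Real.log w / w)) := by positivity
    linarith
  have hb0 : 0 < b := by linarith
  obtain ⟨lam, hlam⟩ : ∃ lam, lam = min (V (Z j) / V (Wj j)) (1 / b) := ⟨_, rfl⟩
  have hlam0 : 0 ≤ lam := by rw [hlam]; exact le_min (by positivity) (by positivity)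
  have hlam1 : lam ≤ V (Z j) / V (Wj j) := by rw [hlam]; exact min_le_left _ _
  have hlam2 : lam * b ≤ 1 := by
    have : lam ≤ 1 / b := by rw [hlam]; exact min_le_right _ _
    rwa [le_div_iff₀ hb0] at this
  refine hprob μ A hA w (Wj j) (Z j) m U n1 hwW h2 hUW hU4 lam 1 (3 * j) hlam0 hlam1
    (by rw [← hy, ← hb]; exact hlam2) le_rfl ?_
  intro a
  have hT := hlin a U m w hUU0 n6
  rw [← he4]
  have hstep : lam * (V (Wj j) / V w) * e4 * (c * (U * V w)) ≤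
      lam * (V (Wj j) / V w) * e4 * T1 a w m U := by
    gcongr
  refine le_trans ?_ hstep
  have e1 : lam * (V (Wj j) / V w) * e4 * (c * (U * V w)) = (c * e4) * (lam * y) := by
    rw [hy]; field_simp
  rw [e1]
  -- `3 j ≤ c e4 λ y`
  rcases le_total (V (Z j) / V (Wj j)) (1 / b) with hcase | hcase
  · have e2 : lam = V (Z j) / V (Wj j) := by rw [hlam]; exact min_eq_left hcase
    have e3 : lam * y = U * V (Z j) := by rw [e2, hy]; field_simp
    rw [e3]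
    have e5 : (j : ℝ) * (K * (j : ℝ) ^ 2 * V (Z j)) ≥ K * (j : ℝ) ^ 2 := by
      calc (j : ℝ) * (K * (j : ℝ) ^ 2 * V (Z j)) = (K * (j : ℝ) ^ 2) * (j * V (Z j)) := by ring
        _ ≥ (K * (j : ℝ) ^ 2) * 1 := by gcongr
        _ = K * (j : ℝ) ^ 2 := mul_one _
    have e6 : K * (j : ℝ) ≤ U * V (Z j) := by
      have e7 : (j : ℝ) * (K * j) ≤ j * (U * V (Z j)) := by
        calc (j : ℝ) * (K * j) = K * (j : ℝ) ^ 2 := by ring
          _ ≤ (j : ℝ) * (K * (j : ℝ) ^ 2 * V (Z j)) := e5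
          _ ≤ j * (U * V (Z j)) := by gcongr
      exact le_of_mul_le_mul_left e7 hj0
    calc 3 * (j : ℝ) ≤ (6 * C + 6) * j := by gcongr; linarith
      _ ≤ (K * (c * e4)) * j := by gcongr
      _ = (c * e4) * (K * j) := by ring
      _ ≤ (c * e4) * (U * V (Z j)) := by gcongr
  · have e2 : lam = 1 / b := by rw [hlam]; exact min_eq_right hcase
    have e3 : (c * e4) * (lam * y) = (c * e4) * y / b := by rw [e2]; field_simp
    rw [e3, le_div_iff₀ hb0, hb]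
    -- `y ≥ K j`
    have hVV : V (Z j) ≤ V (Wj j) := V_anti h2
    have e5 : K * (j : ℝ) ≤ y := by
      have e7 : (j : ℝ) * (K * j) ≤ j * y := by
        calc (j : ℝ) * (K * j) = (K * (j : ℝ) ^ 2) * 1 := by ring
          _ ≤ (K * (j : ℝ) ^ 2) * (j * V (Z j)) := by gcongr
          _ ≤ U * (j * V (Wj j)) := by gcongr
          _ = j * y := by rw [hy]; ring
      exact le_of_mul_le_mul_left e7 hj0
    have e6 : 6 * (j : ℝ) ≤ (c * e4) * y := by
      calc 6 * (j : ℝ) ≤ (6 * C + 6) * j := by gcongr; linarith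
        _ ≤ (K * (c * e4)) * j := by gcongr
        _ = (c * e4) * (K * j) := by ring
        _ ≤ (c * e4) * y := by gcongr
    have e7 : 6 * C * (j * (Real.log w / w)) ≤ c * e4 := by
      have e8 : (6 * C + 6) * (j * Real.log w) ≤ (c * e4) * w := by
        calc (6 * C + 6) * (j * Real.log w) ≤ (K * (c * e4)) * (j * Real.log w) := by gcongr
          _ = (c * e4) * (K * (j * Real.log w)) := by ring
          _ ≤ (c * e4) * w := by gcongr
      have e9 : 6 * C * (j * (Real.log w / w)) = (6 * C * (j * Real.log w)) / w := by ring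
      rw [e9, div_le_iff₀ (by linarith)]
      refine le_trans ?_ e8
      gcongr
      linarith
    have e8 : 6 * C * (j * (Real.log w / w)) * y ≤ c * e4 * y := by gcongr
    nlinarith

end Pool.Agent.H532.WG
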