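import Mathlib
import Pool.Agent.H532.WG.Poly2

/-!
All classes modulo all moduli contain elements of `R` up to `m (log m) ^ (2 + ε)`: final form.
-/

namespace Pool.Agent.H532.WG

open Finset MeasureTheory Function ProbabilityTheory Filter Pool.Agent.H532.RM
open Pool.Agent.H532.LG hiding Fam
open scoped ENNReal Topology

/-- the class `c` modulo `m` is reduced -/
def Red (a : ℕ → ℕ) (m c : ℕ) : Prop := ∀ p : ℕ, p.Prime → p ∣ m → ¬ c ≡ a p [MOD p]

/-- there is an element of `R` up to `Y` in the class `c` modulo `m` -/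
def Has (z a : ℕ → ℕ) (m c : ℕ) (Y : ℝ) : Prop :=
  ∃ n : ℕ, (∀ p : ℕ, p.Prime → p ≤ z n → ¬ n ≡ a p [MOD p]) ∧ n ≡ c [MOD m] ∧ (n : ℝ) ≤ Y

lemma has_of_T1 {Ω : Type} (A : ℕ → Ω → ℕ) (z : ℕ → ℕ) (hz : Monotone z) {m c U j : ℕ} (ω : Ω)
    (hω : ∀ p, p.Prime → A p ω < p) (hm : m ≤ 2 ^ j) (hU : U ≤ j ^ 3) (hc : c < m)
    (hred : Red (fun p => A p ω) m c)
    (h : T1 (fun p => trA A m c p ω) (z (2 ^ j * j ^ 3)) 0 U ≠ 0) :
    Has z (fun p => A p ω) m c (m * U) := by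
  unfold T1 at h
  obtain ⟨q, hq⟩ := card_pos.1 (Nat.pos_of_ne_zero h)
  obtain ⟨⟨h1, h2⟩, h3⟩ := mem_T1.1 hq
  obtain ⟨s, hs⟩ : ∃ s, s = q - 1 := ⟨_, rfl⟩
  have hsU : s < U := by omega
  have hqs : s + 1 = q := by omega
  have e1 : c + m * s < m * U := by
    have : m * (s + 1) ≤ m * U := Nat.mul_le_mul_left _ hsU
    rw [mul_add, mul_one] at this
    omega
  have e2 : c + m * s ≤ 2 ^ j * j ^ 3 := e1.le.trans (Nat.mul_le_mul hm hU)
  refine ⟨c + m * s, fun p hp hpz hcon => ?_, ?_, ?_⟩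
  · by_cases hpm : p ∣ m
    · refine hred p hp hpm ?_
      have h4 : c + m * s ≡ c [MOD p] := by
        have : m * s ≡ 0 [MOD p] := (Nat.modEq_zero_iff_dvd).2 (Dvd.dvd.mul_right hpm s)
        simpa using this.add_left c
      exact h4.symm.trans hcon
    · have hpZ : p ∈ primesLe (z (2 ^ j * j ^ 3)) := mem_primesLe.2 ⟨hpz.trans (hz e2), hp⟩
      refine h3 p hpZ ?_
      have h4 := (trf_iff (b := c) hp hpm (hω p hp) s).1 hcon
      rw [hqs] at h4
      simp only [trA, if_neg hpm]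
      exact h4
  · show (c + m * s) % m = c % m
    rw [Nat.add_mul_mod_self_left]
  · have : ((c + m * s : ℕ) : ℝ) < m * U := by exact_mod_cast e1
    exact this.le

theorem all_moduli (ε : ℝ) (hε : 0 < ε) {Ω : Type} [MeasurableSpace Ω]
    (μ : Measure Ω) [IsProbabilityMeasure μ] (A : ℕ → Ω → ℕ) (hA : RandomClasses μ A)
    (z : ℕ → ℕ) (hzm : Monotone z)
    (hz : Tendsto (fun n : ℕ => V (z n) * Real.log n) atTop (𝓝 1)) :
    ∀ᵐ ω ∂μ, ∀ᶠ m : ℕ in atTop, ∀ c, Red (fun p => A p ω) m c →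
      Has z (fun p => A p ω) m c (m * Real.log m ^ (2 + ε)) := by
  classical
  obtain ⟨ε', hε'⟩ : ∃ ε', ε' = min ε 1 / 2 := ⟨_, rfl⟩
  have h0 : 0 < ε' := by
    rw [hε']
    have : 0 < min ε 1 := lt_min hε one_pos
    linarith
  have h1 : ε' ≤ 1 / 2 := by
    rw [hε']
    have : min ε 1 ≤ 1 := min_le_right _ _
    linarith
  have h2 : ε' ≤ ε / 2 := by
    rw [hε']
    have : min ε 1 ≤ ε := min_le_left _ _
    linarith
  have hl2a := Real.log_two_gt_d9
  have hl2b := Real.log_two_lt_d9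
  have hZ1 := V_up z hz
  obtain ⟨B, hB⟩ : ∃ B : ℕ → Set Ω, B = fun j : ℕ => ⋃ m ∈ Ioc (2 ^ (j - 1)) (2 ^ j),
    ⋃ c ∈ range m, {ω | T1 (fun p => trA A m c p ω) (z (2 ^ j * j ^ 3)) 0
      ⌊(j : ℝ) ^ (2 + ε')⌋₊ = 0} := ⟨_, rfl⟩
  have hbc := borel_cantelli_sq μ B (by
    filter_upwards [long_one ε' h0 (by linarith) _ hZ1, ev_poly_exp (3 / 2) (by norm_num) 3,
      eventually_ge_atTop 2] with j hj hpe hj2
    have hjr : (2 : ℝ) ≤ j := by exact_mod_cast hj2
    have hj0 : (0 : ℝ) < j := by linarith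
    rw [hB]
    have hq : (0 : ℝ) ≤ 2 * Real.exp (-(3 * j)) := by positivity
    calc μ (⋃ m ∈ Ioc (2 ^ (j - 1)) (2 ^ j), ⋃ c ∈ range m,
          {ω | T1 (fun p => trA A m c p ω) (z (2 ^ j * j ^ 3)) 0 ⌊(j : ℝ) ^ (2 + ε')⌋₊ = 0}) ≤
        ∑ m ∈ Ioc (2 ^ (j - 1)) (2 ^ j), μ (⋃ c ∈ range m,
          {ω | T1 (fun p => trA A m c p ω) (z (2 ^ j * j ^ 3)) 0 ⌊(j : ℝ) ^ (2 + ε')⌋₊ = 0}) :=
          measure_biUnion_finset_le _ _
      _ ≤ ∑ m ∈ Ioc (2 ^ (j - 1)) (2 ^ j),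
          ENNReal.ofReal (2 ^ j * (2 * Real.exp (-(3 * j)))) := by
          refine sum_le_sum fun m hm => ?_
          refine (measure_biUnion_finset_le _ _).trans ?_
          calc ∑ c ∈ range m, μ {ω | T1 (fun p => trA A m c p ω) (z (2 ^ j * j ^ 3)) 0
                ⌊(j : ℝ) ^ (2 + ε')⌋₊ = 0} ≤
              ∑ c ∈ range m, ENNReal.ofReal (2 * Real.exp (-(3 * j))) :=
                sum_le_sum fun c _ => hj μ (trA A m c) (trA_random hA m c) 0
            _ = ENNReal.ofReal (m * (2 * Real.exp (-(3 * j)))) := by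
                rw [sum_const, card_range, nsmul_eq_mul, ENNReal.ofReal_mul (Nat.cast_nonneg _),
                  ENNReal.ofReal_natCast]
            _ ≤ ENNReal.ofReal (2 ^ j * (2 * Real.exp (-(3 * j)))) := by
                refine ENNReal.ofReal_le_ofReal ?_
                have : (m : ℝ) ≤ 2 ^ j := by exact_mod_cast (mem_Ioc.1 hm).2
                gcongr
      _ = ENNReal.ofReal (((Ioc (2 ^ (j - 1)) (2 ^ j)).card : ℝ) *
          (2 ^ j * (2 * Real.exp (-(3 * j))))) := by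
          rw [sum_const, nsmul_eq_mul, ENNReal.ofReal_mul (Nat.cast_nonneg _),
            ENNReal.ofReal_natCast]
      _ ≤ ENNReal.ofReal (1 / (j : ℝ) ^ 2) := by
          refine ENNReal.ofReal_le_ofReal ?_
          have e1 : ((Ioc (2 ^ (j - 1)) (2 ^ j)).card : ℝ) ≤ 2 ^ j := by
            have : (Ioc (2 ^ (j - 1)) (2 ^ j)).card ≤ 2 ^ j := by
              rw [Nat.card_Ioc]; exact Nat.sub_le _ _
            exact_mod_cast this
          have e2 : (2 : ℝ) ^ j ≤ Real.exp (3 / 4 * j) := by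
            have : (2 : ℝ) ^ j = Real.exp (j * Real.log 2) := by
              rw [Real.exp_nat_mul, Real.exp_log (by norm_num)]
            rw [this]
            refine Real.exp_le_exp.2 ?_
            nlinarith
          calc ((Ioc (2 ^ (j - 1)) (2 ^ j)).card : ℝ) * (2 ^ j * (2 * Real.exp (-(3 * j)))) ≤
              Real.exp (3 / 4 * j) * (Real.exp (3 / 4 * j) * (2 * Real.exp (-(3 * j)))) := by
                have := e1.trans e2
                gcongr
            _ = 2 * (Real.exp (3 / 4 * j) * Real.exp (3 / 4 * j) * Real.exp (-(3 * j))) := by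
                ring
            _ = 2 * Real.exp (-(3 / 2 * j)) := by
                rw [← Real.exp_add, ← Real.exp_add]; congr 2; ring
            _ ≤ 1 / (j : ℝ) ^ 2 := by
                rw [le_div_iff₀ (by positivity)]
                calc 2 * Real.exp (-(3 / 2 * (j : ℝ))) * (j : ℝ) ^ 2 ≤
                    j * Real.exp (-(3 / 2 * (j : ℝ))) * (j : ℝ) ^ 2 := by gcongr
                  _ = (j : ℝ) ^ 3 * Real.exp (-(3 / 2 * (j : ℝ))) := by ring
                  _ ≤ 1 := hpe)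
  filter_upwards [hbc, ae_lt hA] with ω hω hlt
  obtain ⟨J, hJ⟩ := eventually_atTop.1 (hω.and (nums ε' h0 (by linarith) 0))
  have hlt' : Tendsto (fun m : ℕ => Real.log (m : ℝ)) atTop atTop :=
    Real.tendsto_log_atTop.comp tendsto_natCast_atTop_atTop
  have hpw : Tendsto (fun m : ℕ => Real.log (m : ℝ) ^ (ε / 2)) atTop atTop :=
    (tendsto_rpow_atTop (by positivity)).comp hlt'
  filter_upwards [eventually_gt_atTop (2 ^ J), hlt'.eventually_ge_atTop 2,
    hpw.eventually_ge_atTop 8, eventually_ge_atTop 4] with m hm hlm hp8 hm4 c hc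
  obtain ⟨j, hj⟩ : ∃ j, j = Nat.clog 2 m := ⟨_, rfl⟩
  have g1 : 2 ^ (j - 1) < m := by
    rw [hj]; exact Nat.pow_pred_clog_lt_self (by norm_num) (by omega)
  have g2 : m ≤ 2 ^ j := by rw [hj]; exact Nat.le_pow_clog (by norm_num) m
  have hJj : J ≤ j := by
    by_contra hneg
    rw [not_le] at hneg
    have : 2 ^ j ≤ 2 ^ J := Nat.pow_le_pow_right (by norm_num) hneg.le
    omega
  obtain ⟨k1, k2⟩ := hJ j hJj
  obtain ⟨_, _, n3, _⟩ := k2 _ _ rfl rfl
  have hm0 : 0 < m := by omega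
  have hmr : (0 : ℝ) < m := by exact_mod_cast hm0
  have hcm : c % m < m := Nat.mod_lt _ hm0
  have hred : Red (fun p => A p ω) m (c % m) := by
    intro p hp hpm hcon
    refine hc p hp hpm ?_
    have h4 : c % m ≡ c [MOD p] := (Nat.mod_modEq c m).of_dvd hpm
    exact h4.symm.trans hcon
  have hT : T1 (fun p => trA A m (c % m) p ω) (z (2 ^ j * j ^ 3)) 0 ⌊(j : ℝ) ^ (2 + ε')⌋₊ ≠ 0 := by
    intro hcon
    rw [hB] at k1
    refine k1 (Set.mem_biUnion (x := m) (mem_coe.2 (mem_Ioc.2 ⟨g1, g2⟩)) ?_)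
    exact Set.mem_biUnion (x := c % m) (mem_coe.2 (mem_range.2 hcm)) hcon
  obtain ⟨n, hn1, hn2, hn3⟩ := has_of_T1 A z hzm ω hlt g2 n3 hcm hred hT
  refine ⟨n, hn1, hn2.trans (Nat.mod_modEq c m), hn3.trans ?_⟩
  have hjm : (j : ℝ) ≤ 2 * Real.log m := by
    have e1 : ((j : ℝ) - 1) * Real.log 2 ≤ Real.log m := by
      have hj1 : 1 ≤ j := by
        by_contra hneg
        have : j = 0 := by omega
        rw [this] at g2
        omega
      have e : (j : ℝ) - 1 = ((j - 1 : ℕ) : ℝ) := by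
        rw [Nat.cast_sub hj1]; norm_num
      rw [e, ← Real.log_pow]
      refine Real.log_le_log (by positivity) ?_
      exact_mod_cast g1.le
    nlinarith
  have e1 : ((⌊(j : ℝ) ^ (2 + ε')⌋₊ : ℕ) : ℝ) ≤ (j : ℝ) ^ (2 + ε') := Nat.floor_le (by positivity)
  have e2 : (j : ℝ) ^ (2 + ε') ≤ (2 * Real.log m) ^ (2 + ε') :=
    Real.rpow_le_rpow (Nat.cast_nonneg _) hjm (by linarith)
  have hlm0 : 0 < Real.log m := by linarith
  have e3 : (2 * Real.log m) ^ (2 + ε') ≤ Real.log m ^ (2 + ε) := by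
    rw [Real.mul_rpow (by norm_num) hlm0.le]
    have e4 : (2 : ℝ) ^ (2 + ε') ≤ 8 := by
      calc (2 : ℝ) ^ (2 + ε') ≤ (2 : ℝ) ^ (3 : ℝ) :=
            Real.rpow_le_rpow_of_exponent_le (by norm_num) (by linarith)
        _ = 8 := by norm_num
    calc (2 : ℝ) ^ (2 + ε') * Real.log m ^ (2 + ε') ≤
        Real.log m ^ (ε / 2) * Real.log m ^ (2 + ε / 2) := by
          have e5 : Real.log m ^ (2 + ε') ≤ Real.log m ^ (2 + ε / 2) :=
            Real.rpow_le_rpow_of_exponent_le (by linarith) (by linarith)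
          have e6 := e4.trans hp8
          gcongr
      _ = Real.log m ^ (2 + ε) := by
          rw [← Real.rpow_add hlm0]; congr 1; ring
  gcongr
  exact e1.trans (e2.trans e3)

/-- all moduli, with a constant -/
theorem all_moduli_K (ε : ℝ) (hε : 0 < ε) {Ω : Type} [MeasurableSpace Ω]
    (μ : Measure Ω) [IsProbabilityMeasure μ] (A : ℕ → Ω → ℕ) (hA : RandomClasses μ A)
    (z : ℕ → ℕ) (hzm : Monotone z)
    (hz : Tendsto (fun n : ℕ => V (z n) * Real.log n) atTop (𝓝 1)) :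
    ∀ᵐ ω ∂μ, ∃ K : ℝ, ∀ m : ℕ, 2 ≤ m → ∀ c, Red (fun p => A p ω) m c →
      Has z (fun p => A p ω) m c (K * (m * Real.log m ^ (2 + ε))) := by
  classical
  filter_upwards [all_moduli ε hε μ A hA z hzm hz] with ω hω
  obtain ⟨N, hN⟩ := eventually_atTop.1 hω
  obtain ⟨a, ha⟩ : ∃ a : ℕ → ℕ, a = fun p => A p ω := ⟨_, rfl⟩
  rw [← ha] at hN ⊢
  -- all reduced classes contain elements
  have hne : ∀ m : ℕ, 0 < m → ∀ c, Red a m c → ∃ Y : ℝ, Has z a m c Y := by
    intro m hm c hc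
    obtain ⟨p, hp1, hp⟩ := Nat.exists_infinite_primes (m + N + 1)
    have hcop : Nat.Coprime m p := by
      refine ((Nat.Prime.coprime_iff_not_dvd hp).2 fun hd => ?_).symm
      have := Nat.le_of_dvd hm hd
      omega
    obtain ⟨c', h1, h2⟩ := Nat.chineseRemainder hcop c (a p + 1)
    have hred : Red a (m * p) c' := by
      intro q hq hqd hcon
      rcases (Nat.Prime.dvd_mul hq).1 hqd with h3 | h3
      · exact hc q hq h3 ((h1.of_dvd h3).symm.trans hcon)
      · have e : q = p := (Nat.prime_dvd_prime_iff_eq hq hp).1 h3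
        rw [e] at hcon
        have h4 : a p + 1 ≡ a p + 0 [MOD p] := h2.symm.trans hcon
        have h5 := Nat.ModEq.add_left_cancel' _ h4
        have h6 : p ∣ 1 := (Nat.modEq_zero_iff_dvd).1 h5
        exact hp.one_lt.ne' (Nat.dvd_one.1 h6)
    obtain ⟨n, h3, h4, h5⟩ := hN (m * p) (by nlinarith) c' hred
    exact ⟨_, n, h3, (h4.of_dvd (Dvd.intro _ rfl)).trans h1, h5⟩
  have hch : ∀ m c : ℕ, ∃ Y : ℝ, 0 ≤ Y ∧ (0 < m → Red a m c → Has z a m c Y) := by
    intro m c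
    by_cases h : 0 < m ∧ Red a m c
    · obtain ⟨Y, n, h1, h2, h3⟩ := hne m h.1 c h.2
      exact ⟨|Y|, abs_nonneg _, fun _ _ => ⟨n, h1, h2, h3.trans (le_abs_self _)⟩⟩
    · exact ⟨0, le_rfl, fun h1 h2 => absurd ⟨h1, h2⟩ h⟩
  choose Y hY0 hY using hch
  obtain ⟨B, hB⟩ : ∃ B : ℝ, B = ∑ m ∈ range N, ∑ c ∈ range m, Y m c := ⟨_, rfl⟩
  have hB0 : 0 ≤ B := by
    rw [hB]; exact sum_nonneg fun m _ => sum_nonneg fun c _ => hY0 m c
  obtain ⟨l, hl⟩ : ∃ l : ℝ, l = Real.log 2 ^ (2 + ε) := ⟨_, rfl⟩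
  have hl2 : 0 < Real.log 2 := Real.log_pos (by norm_num)
  have hl0 : 0 < l := by rw [hl]; positivity
  refine ⟨B / l + 1, fun m hm c hc => ?_⟩
  have hm2 : (2 : ℝ) ≤ m := by exact_mod_cast hm
  have hlog : l ≤ Real.log m ^ (2 + ε) := by
    rw [hl]
    refine Real.rpow_le_rpow hl2.le (Real.log_le_log (by norm_num) hm2) (by linarith)
  have hX : 0 ≤ (m : ℝ) * Real.log m ^ (2 + ε) := by
    have : 0 ≤ Real.log m ^ (2 + ε) := hl0.le.trans hlog
    positivity
  rcases lt_or_ge m N with hmN | hmN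
  · have hcm : c % m < m := Nat.mod_lt _ (by omega)
    have hred : Red a m (c % m) := by
      intro p hp hpm hcon
      refine hc p hp hpm ?_
      have h4 : c % m ≡ c [MOD p] := (Nat.mod_modEq c m).of_dvd hpm
      exact h4.symm.trans hcon
    obtain ⟨n, h1, h2, h3⟩ := hY m (c % m) (by omega) hred
    refine ⟨n, h1, h2.trans (Nat.mod_modEq c m), h3.trans ?_⟩
    have h4 : Y m (c % m) ≤ B := by
      rw [hB]
      calc Y m (c % m) ≤ ∑ c ∈ range m, Y m c :=
            single_le_sum (f := fun c => Y m c) (fun c _ => hY0 m c) (mem_range.2 hcm)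
        _ ≤ ∑ m ∈ range N, ∑ c ∈ range m, Y m c :=
            single_le_sum (f := fun m => ∑ c ∈ range m, Y m c)
              (fun m _ => sum_nonneg fun c _ => hY0 m c) (mem_range.2 hmN)
    refine h4.trans ?_
    calc B = B / l * (1 * l) := by field_simp
      _ ≤ B / l * (m * Real.log m ^ (2 + ε)) := by
          gcongr
          linarith
      _ ≤ (B / l + 1) * (m * Real.log m ^ (2 + ε)) := by
          gcongr
          linarith
  · obtain ⟨n, h1, h2, h3⟩ := hN m hmN c hc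
    refine ⟨n, h1, h2, h3.trans ?_⟩
    have : 0 ≤ B / l := by positivity
    nlinarith

end Pool.Agent.H532.WG
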